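import Pool.Agent.Helper47.UB.PolySp

/-!
# Orthonormal basis of the polynomials of degree `≤ D`, constant kernel

On the finite-dimensional space `V = PD n D` the form `⟪f, g⟫ = ∫ f g dσ` is positive definite
(`sg_openPos`: a continuous function with `∫ f² = 0` vanishes; all functions are continuous on a
compact space, hence integrable). Take an orthonormal basis `b` of `V`, `h = finrank V` (e.g. via
`InnerProductSpace.Core` on `V` or a copy of it, or Gram-Schmidt; or by finding a matrix from
positive definiteness of the Gram matrix of a basis). `card`: `PD_finrank`. `pos`: constants lie in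
`V` (`PD_ridge`, `p = 1`), and they are nonzero as the sphere is nonempty for `n ≥ 1`. `ridge`: `PD_ridge`
and expansion in the basis. `kern`: `K y = ∑ b_i(y)²`. For an isometry `ρ` the functions `b_i ∘ rot ρ` lie
in `V` (`PD_rot`) and are orthonormal (`sg_rot`), so `b_i ∘ rot ρ = ∑_k O_{ik} b_k` with
`O_{ik} = ∫ (b_i ∘ rot ρ) b_k`, `O Oᵀ = 1` hence `Oᵀ O = 1`, and `K (rot ρ y) = K y`. By `exists_rot` `K` is
constant, `= ∫ K = h`.
-/

open MeasureTheory Metric
open scoped RealInnerProductSpace ENNReal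

namespace Pool.Agent.Helper47.UB

private theorem onb (n D : ℕ) (hn : 1 ≤ n) : ∃ (h : ℕ) (b : Fin h → C(Sph n, ℝ)),
    h = Module.finrank ℝ (PD n D) ∧ (∀ i, b i ∈ PD n D) ∧
    (∀ i j, ∫ y, b i y * b j y ∂(sg n) = if i = j then 1 else 0) ∧
    (∀ f ∈ PD n D, f = ∑ i, (∫ y, f y * b i y ∂(sg n)) • b i) := by
  classical
  have := sg_prob n hn
  have := sg_openPos n hn
  have := PD_finite n D
  let L : C(Sph n, ℝ) →ₗ[ℝ] Lp ℝ 2 (sg n) :=
    ((ContinuousMap.toLp 2 (sg n) ℝ : C(Sph n, ℝ) →L[ℝ] Lp ℝ 2 (sg n)) :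
      C(Sph n, ℝ) →ₗ[ℝ] Lp ℝ 2 (sg n))
  have hL : Function.Injective L := ContinuousMap.toLp_injective (p := 2) (𝕜 := ℝ) (sg n)
  have hin : ∀ f g : C(Sph n, ℝ), ⟪L f, L g⟫ = ∫ y, g y * f y ∂(sg n) := fun f g => by
    have h0 := ContinuousMap.inner_toLp (𝕜 := ℝ) (μ := sg n) f g
    simp only [conj_trivial] at h0
    exact h0
  let e : PD n D ≃ₗ[ℝ] (PD n D).map L := Submodule.equivMapOfInjective L hL (PD n D)
  have he : ∀ f : PD n D, ((e f : (PD n D).map L) : Lp ℝ 2 (sg n)) = L f := fun f =>
    Submodule.coe_equivMapOfInjective_apply L hL (PD n D) f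
  have : FiniteDimensional ℝ ((PD n D).map L) := Module.Finite.equiv e
  let u := stdOrthonormalBasis ℝ ((PD n D).map L)
  have hu : ∀ i, L ((e.symm (u i) : PD n D) : C(Sph n, ℝ)) = ((u i : (PD n D).map L) : Lp ℝ 2 (sg n)) := by
    intro i
    rw [← he, LinearEquiv.apply_symm_apply]
  refine ⟨Module.finrank ℝ ((PD n D).map L), fun i => ((e.symm (u i) : PD n D) : C(Sph n, ℝ)),
    e.finrank_eq.symm, fun i => (e.symm (u i)).2, ?_, ?_⟩
  · intro i j
    have h1 := hin ((e.symm (u j) : PD n D) : C(Sph n, ℝ)) ((e.symm (u i) : PD n D) : C(Sph n, ℝ))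
    rw [hu, hu, ← Submodule.coe_inner, orthonormal_iff_ite.1 u.orthonormal] at h1
    rw [← h1]
    by_cases hij : i = j
    · rw [if_pos hij, if_pos hij.symm]
    · rw [if_neg hij, if_neg (fun h => hij h.symm)]
  · intro f hf
    have h1 := u.sum_repr (e ⟨f, hf⟩)
    have h2 := congrArg e.symm h1
    rw [LinearEquiv.symm_apply_apply, map_sum] at h2
    have h3 := congrArg (fun g : PD n D => (g : C(Sph n, ℝ))) h2
    simp only [Submodule.coe_sum, map_smul, Submodule.coe_smul] at h3
    refine h3.symm.trans ?_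
    refine Finset.sum_congr rfl fun i _ => ?_
    congr 1
    rw [u.repr_apply_apply, Submodule.coe_inner, he, ← hu, hin]

private theorem rot_cont {n : ℕ} (ρ : En n ≃ₗᵢ[ℝ] En n) : Continuous (rot (n := n) ρ) := by
  unfold rot
  exact (ρ.continuous.comp continuous_subtype_val).subtype_mk _

theorem basis (n D : ℕ) (hn : 1 ≤ n) : ∃ (h : ℕ) (b : Fin h → C(Sph n, ℝ)), OB n D b := by
  classical
  have := sg_prob n hn
  have := sg_openPos n hn
  have := PD_finite n D
  obtain ⟨h, b, hh, hb, horth, hexp⟩ := onb n D hn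
  have hne : Nonempty (Sph n) := ⟨⟨EuclideanSpace.single (⟨0, hn⟩ : Fin n) (1 : ℝ), by simp⟩⟩
  obtain ⟨y₀⟩ := hne
  have hpos : 1 ≤ h := by
    by_contra hcon
    have h0 : h = 0 := by omega
    have h1 : (1 : C(Sph n, ℝ)) ∈ PD n D := PD_ridge n D 0 1 (by simp) 1 (fun y => by simp)
    have h2 := hexp 1 h1
    subst h0
    rw [Finset.univ_eq_empty, Finset.sum_empty] at h2
    have h3 := congrArg (fun g : C(Sph n, ℝ) => g y₀) h2
    simp at h3
  have hint : ∀ f g : C(Sph n, ℝ), Integrable (fun y => f y * g y) (sg n) := fun f g =>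
    (f * g).continuous.integrable_of_hasCompactSupport (HasCompactSupport.of_compactSpace _)
  -- invariance of the kernel
  have hK : ∀ (ρ : En n ≃ₗᵢ[ℝ] En n) (y : Sph n), ∑ i, b i (rot ρ y) ^ 2 = ∑ i, b i y ^ 2 := by
    intro ρ y
    let g : Fin h → C(Sph n, ℝ) := fun i => (b i).comp ⟨rot ρ, rot_cont ρ⟩
    have hg : ∀ i, g i ∈ PD n D := fun i => PD_rot n D ρ (b i) (g i) (hb i) (fun y => rfl)
    let O : Matrix (Fin h) (Fin h) ℝ := fun i k => ∫ y, g i y * b k y ∂(sg n)
    have hgO : ∀ i (z : Sph n), g i z = ∑ k, O i k * b k z := by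
      intro i z
      have h1 := congrArg (fun g : C(Sph n, ℝ) => g z) (hexp (g i) (hg i))
      simp only [ContinuousMap.coe_sum, Finset.sum_apply, ContinuousMap.coe_smul, Pi.smul_apply,
        smul_eq_mul] at h1
      exact h1
    have hgg : ∀ i j, ∫ z, g i z * g j z ∂(sg n) = if i = j then 1 else 0 := by
      intro i j
      rw [← horth i j]
      have hcont : Continuous fun z : Sph n => b i z * b j z := (b i).continuous.mul (b j).continuous
      have h1 : ∫ z, (b i z * b j z) ∂(sg n) =
          ∫ z, (b i (rot ρ z) * b j (rot ρ z)) ∂(sg n) := by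
        conv_lhs => rw [← (sg_rot n ρ).map_eq]
        rw [integral_map (sg_rot n ρ).measurable.aemeasurable hcont.aestronglyMeasurable]
      exact h1.symm
    have hOO : O * O.transpose = 1 := by
      ext i j
      rw [Matrix.mul_apply, Matrix.one_apply, ← hgg i j]
      have h1 : ∀ z, g i z * g j z = ∑ k, O j k * (g i z * b k z) := by
        intro z
        rw [hgO j z, Finset.mul_sum]
        refine Finset.sum_congr rfl fun k _ => ?_
        ring
      simp_rw [h1]
      rw [integral_finsetSum _ (fun k _ => (hint (g i) (b k)).const_mul _)]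
      refine Finset.sum_congr rfl fun k _ => ?_
      rw [integral_const_mul, Matrix.transpose_apply]
      show O i k * O j k = O j k * O i k
      ring
    have hOO' : O.transpose * O = 1 := mul_eq_one_comm.1 hOO
    have h2 : ∀ i, b i (rot ρ y) = ∑ k, O i k * b k y := fun i => hgO i y
    calc ∑ i, b i (rot ρ y) ^ 2 = ∑ i, ∑ k, ∑ l, (O i k * O i l) * (b k y * b l y) := by
          refine Finset.sum_congr rfl fun i _ => ?_
          rw [h2 i, sq, Finset.sum_mul_sum]
          refine Finset.sum_congr rfl fun k _ => Finset.sum_congr rfl fun l _ => ?_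
          ring
      _ = ∑ k, ∑ l, (∑ i, O i k * O i l) * (b k y * b l y) := by
          rw [Finset.sum_comm]
          refine Finset.sum_congr rfl fun k _ => ?_
          rw [Finset.sum_comm]
          refine Finset.sum_congr rfl fun l _ => ?_
          rw [Finset.sum_mul]
      _ = ∑ k, ∑ l, (if k = l then 1 else 0) * (b k y * b l y) := by
          refine Finset.sum_congr rfl fun k _ => Finset.sum_congr rfl fun l _ => ?_
          congr 1
          have h3 := congrFun (congrFun hOO' k) l
          rw [Matrix.mul_apply, Matrix.one_apply] at h3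
          exact h3
      _ = ∑ k, b k y ^ 2 := by
          refine Finset.sum_congr rfl fun k _ => ?_
          simp [sq]
  have hconst : ∀ y, ∑ i, b i y ^ 2 = ∑ i, b i y₀ ^ 2 := by
    intro y
    obtain ⟨ρ, hρ⟩ := exists_rot y₀ y
    rw [← hρ]
    exact hK ρ y₀
  have hkern : ∀ y, ∑ i, b i y ^ 2 = (h : ℝ) := by
    have h1 : ∫ y, ∑ i, b i y ^ 2 ∂(sg n) = h := by
      have h2 : ∀ y, ∑ i, b i y ^ 2 = ∑ i, b i y * b i y := fun y =>
        Finset.sum_congr rfl fun i _ => sq _
      simp_rw [h2]
      rw [integral_finsetSum _ (fun i _ => hint (b i) (b i))]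
      simp [horth]
    have h2 : ∫ y, ∑ i, b i y ^ 2 ∂(sg n) = ∑ i, b i y₀ ^ 2 := by
      simp_rw [hconst]
      simp
    intro y
    rw [hconst y, ← h2, h1]
  refine ⟨h, b, hpos, ?_, horth, hkern, ?_⟩
  · rw [hh]
    exact PD_finrank n D
  · intro v p hp
    let f : C(Sph n, ℝ) := ⟨fun y => p.eval ⟪v, (y : En n)⟫,
      p.continuous.comp (continuous_const.inner continuous_subtype_val)⟩
    have hf : f ∈ PD n D := PD_ridge n D v p hp f (fun y => rfl)
    refine ⟨fun i => ∫ y, f y * b i y ∂(sg n), fun y => ?_⟩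
    have h1 := congrArg (fun g : C(Sph n, ℝ) => g y) (hexp f hf)
    simp only [ContinuousMap.coe_sum, Finset.sum_apply, ContinuousMap.coe_smul, Pi.smul_apply,
      smul_eq_mul] at h1
    exact h1

end Pool.Agent.Helper47.UB
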