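import Mathlib

/-!
# A Bernstein inequality

For `|λ| b ≤ 1`: `e^x ≤ 1 + x + x²` for `|x| ≤ 1`, so `E exp(λ f) ≤ 1 + λ² s ≤ exp(λ² s)`; product
structure (`integral_fintype_prod_eq_prod` or `lintegral` version): `E exp(λ ∑ f(y_j)) ≤ exp(N λ² s)`. Markov with
`λ = t/(2 N s)`: `P(∑ f ≥ t) ≤ exp(-λ t + N λ² s) = exp(-t²/(4 N s))`; the same for `-f`. `N = 0` (or
`t = 0`): the bound is `≥ 1` (in Lean `t²/0 = 0`, so the right hand side is `2`).
-/

open MeasureTheory

namespace Pool.Agent.Helper47.UB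

private theorem bdd_int {Y : Type} [MeasurableSpace Y] (μ : Measure Y) [IsFiniteMeasure μ]
    (g : Y → ℝ) (hg : Measurable g) (B : ℝ) (hB : ∀ y, |g y| ≤ B) : Integrable g μ :=
  Integrable.of_bound hg.aestronglyMeasurable B (Filter.Eventually.of_forall fun y => by
    rw [Real.norm_eq_abs]; exact hB y)

private theorem mgf_bound {Y : Type} [MeasurableSpace Y] (μ : Measure Y) [IsProbabilityMeasure μ]
    (f : Y → ℝ) (hf : Measurable f) (s b l : ℝ) (hl : |l| * b ≤ 1)
    (hmean : ∫ y, f y ∂μ = 0) (hvar : ∫ y, f y ^ 2 ∂μ ≤ s) (hbd : ∀ y, |f y| ≤ b) :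
    ∫ y, Real.exp (l * f y) ∂μ ≤ Real.exp (l ^ 2 * s) := by
  have hlf : ∀ y, |l * f y| ≤ 1 := fun y => by
    rw [abs_mul]
    exact le_trans (mul_le_mul_of_nonneg_left (hbd y) (abs_nonneg _)) hl
  have hpt : ∀ y, Real.exp (l * f y) ≤ 1 + l * f y + l ^ 2 * f y ^ 2 := by
    intro y
    have h := Real.abs_exp_sub_one_sub_id_le (hlf y)
    have h2 := (abs_le.1 h).2
    nlinarith [h2]
  have hif : Integrable f μ := bdd_int μ f hf b hbd
  have hif2 : Integrable (fun y => f y ^ 2) μ := bdd_int μ _ (hf.pow_const 2) (b ^ 2) fun y => by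
    rw [abs_pow]
    exact pow_le_pow_left₀ (abs_nonneg _) (hbd y) 2
  have hie : Integrable (fun y => Real.exp (l * f y)) μ :=
    bdd_int μ _ (by fun_prop) (Real.exp 1) fun y => by
      rw [abs_of_pos (Real.exp_pos _)]
      exact Real.exp_le_exp.2 ((abs_le.1 (hlf y)).2)
  calc ∫ y, Real.exp (l * f y) ∂μ ≤ ∫ y, (1 + l * f y + l ^ 2 * f y ^ 2) ∂μ :=
        integral_mono hie (((integrable_const _).add (hif.const_mul _)).add (hif2.const_mul _)) hpt
    _ = 1 + l * ∫ y, f y ∂μ + l ^ 2 * ∫ y, f y ^ 2 ∂μ := by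
        rw [integral_add, integral_add, integral_const_mul, integral_const_mul]
        · simp
        · exact integrable_const _
        · exact hif.const_mul _
        · exact (integrable_const _).add (hif.const_mul _)
        · exact hif2.const_mul _
    _ ≤ 1 + l ^ 2 * s := by
        rw [hmean]
        nlinarith [mul_le_mul_of_nonneg_left hvar (sq_nonneg l)]
    _ ≤ Real.exp (l ^ 2 * s) := by
        have := Real.add_one_le_exp (l ^ 2 * s)
        linarith

private theorem one_side {Y : Type} [MeasurableSpace Y] (μ : Measure Y) [IsProbabilityMeasure μ]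
    (N : ℕ) (hN : 1 ≤ N)
    (f : Y → ℝ) (hf : Measurable f) (s b t : ℝ) (hs : 0 < s) (hb : 0 < b) (ht : 0 ≤ t)
    (hmean : ∫ y, f y ∂μ = 0) (hvar : ∫ y, f y ^ 2 ∂μ ≤ s) (hbd : ∀ y, |f y| ≤ b)
    (hlin : t * b ≤ 2 * N * s) :
    (Measure.pi fun _ : Fin N => μ) {y | t ≤ ∑ j, f (y j)} ≤
      ENNReal.ofReal (Real.exp (-(t ^ 2 / (4 * N * s)))) := by
  have hN0 : (0 : ℝ) < N := by exact_mod_cast hN
  set l : ℝ := t / (2 * N * s) with hl
  have hl0 : 0 ≤ l := by positivity
  have hlb : |l| * b ≤ 1 := by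
    rw [abs_of_nonneg hl0, hl, div_mul_eq_mul_div, div_le_one (by positivity)]
    exact hlin
  have hm := mgf_bound μ f hf s b l hlb hmean hvar hbd
  set P : Measure (Fin N → Y) := Measure.pi fun _ : Fin N => μ with hP
  have hprod : ∫ y, Real.exp (l * ∑ j, f (y j)) ∂P = (∫ y, Real.exp (l * f y) ∂μ) ^ N := by
    have h1 : ∀ y : Fin N → Y, Real.exp (l * ∑ j, f (y j)) = ∏ j, Real.exp (l * f (y j)) := by
      intro y
      rw [Finset.mul_sum, Real.exp_sum]
    simp_rw [h1]
    rw [hP, integral_fintype_prod_eq_prod (fun _ : Fin N => fun z : Y => Real.exp (l * f z))]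
    simp
  have hmeas : Measurable fun y : Fin N → Y => Real.exp (l * ∑ j, f (y j)) := by
    refine Real.measurable_exp.comp (Measurable.const_mul ?_ _)
    exact Finset.measurable_sum _ fun j _ => hf.comp (measurable_pi_apply j)
  have hint : Integrable (fun y : Fin N → Y => Real.exp (l * ∑ j, f (y j))) P := by
    refine bdd_int P _ hmeas (Real.exp N) fun y => ?_
    rw [abs_of_pos (Real.exp_pos _)]
    refine Real.exp_le_exp.2 ?_
    rw [Finset.mul_sum]
    calc ∑ j, l * f (y j) ≤ ∑ _j : Fin N, (1 : ℝ) := by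
          refine Finset.sum_le_sum fun j _ => ?_
          calc l * f (y j) ≤ |l * f (y j)| := le_abs_self _
            _ = |l| * |f (y j)| := abs_mul _ _
            _ ≤ |l| * b := mul_le_mul_of_nonneg_left (hbd _) (abs_nonneg _)
            _ ≤ 1 := hlb
      _ = N := by simp
  have hmark := mul_meas_ge_le_integral_of_nonneg (μ := P)
    (f := fun y : Fin N → Y => Real.exp (l * ∑ j, f (y j)))
    (Filter.Eventually.of_forall fun y => (Real.exp_pos _).le) hint (Real.exp (l * t))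
  have hsub : {y : Fin N → Y | t ≤ ∑ j, f (y j)} ⊆
      {y | Real.exp (l * t) ≤ Real.exp (l * ∑ j, f (y j))} := by
    intro y hy
    exact Real.exp_le_exp.2 (mul_le_mul_of_nonneg_left hy hl0)
  have hbound : P.real {y | Real.exp (l * t) ≤ Real.exp (l * ∑ j, f (y j))} ≤
      Real.exp (-(t ^ 2 / (4 * N * s))) := by
    have h2 : (∫ y, Real.exp (l * f y) ∂μ) ^ N ≤ Real.exp (N * (l ^ 2 * s)) := by
      rw [Real.exp_nat_mul]
      exact pow_le_pow_left₀ (integral_nonneg fun y => (Real.exp_pos _).le) hm N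
    have h3 : Real.exp (l * t) * P.real {y | Real.exp (l * t) ≤ Real.exp (l * ∑ j, f (y j))} ≤
        Real.exp (N * (l ^ 2 * s)) := (hmark.trans (le_of_eq hprod)).trans h2
    have h4 : P.real {y | Real.exp (l * t) ≤ Real.exp (l * ∑ j, f (y j))} ≤
        Real.exp (N * (l ^ 2 * s)) / Real.exp (l * t) := by
      rw [le_div_iff₀ (Real.exp_pos _), mul_comm]
      exact h3
    refine h4.trans (le_of_eq ?_)
    rw [← Real.exp_sub]
    congr 1
    rw [hl]
    field_simp
    ring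
  calc P {y | t ≤ ∑ j, f (y j)} ≤ P {y | Real.exp (l * t) ≤ Real.exp (l * ∑ j, f (y j))} :=
        measure_mono hsub
    _ = ENNReal.ofReal (P.real {y | Real.exp (l * t) ≤ Real.exp (l * ∑ j, f (y j))}) := by
        rw [Measure.real, ENNReal.ofReal_toReal (measure_ne_top _ _)]
    _ ≤ _ := ENNReal.ofReal_le_ofReal hbound

theorem bern {Y : Type} [MeasurableSpace Y] (μ : Measure Y) [IsProbabilityMeasure μ] (N : ℕ)
    (f : Y → ℝ) (hf : Measurable f) (s b t : ℝ) (hs : 0 < s) (hb : 0 < b) (ht : 0 ≤ t)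
    (hmean : ∫ y, f y ∂μ = 0) (hvar : ∫ y, f y ^ 2 ∂μ ≤ s) (hbd : ∀ y, |f y| ≤ b)
    (hlin : t * b ≤ 2 * N * s) :
    (Measure.pi fun _ : Fin N => μ) {y | t ≤ |∑ j, f (y j)|} ≤
      ENNReal.ofReal (2 * Real.exp (-(t ^ 2 / (4 * N * s)))) := by
  rcases Nat.eq_zero_or_pos N with hN | hN
  · subst hN
    refine le_trans prob_le_one ?_
    simp
  have h1 := one_side μ N hN f hf s b t hs hb ht hmean hvar hbd hlin
  have h2 := one_side μ N hN (fun y => -f y) hf.neg s b t hs hb ht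
    (by rw [integral_neg, hmean, neg_zero]) (by simpa using hvar)
    (fun y => by rw [abs_neg]; exact hbd y) hlin
  have hsub : {y : Fin N → Y | t ≤ |∑ j, f (y j)|} ⊆
      {y | t ≤ ∑ j, f (y j)} ∪ {y | t ≤ ∑ j, -f (y j)} := by
    intro y hy
    rcases le_abs.1 (show t ≤ |∑ j, f (y j)| from hy) with h | h
    · exact Or.inl h
    · right
      show t ≤ ∑ j, -f (y j)
      rw [Finset.sum_neg_distrib]
      exact h
  calc (Measure.pi fun _ : Fin N => μ) {y | t ≤ |∑ j, f (y j)|}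
      ≤ (Measure.pi fun _ : Fin N => μ) ({y | t ≤ ∑ j, f (y j)} ∪ {y | t ≤ ∑ j, -f (y j)}) :=
        measure_mono hsub
    _ ≤ _ := measure_union_le _ _
    _ ≤ ENNReal.ofReal (Real.exp (-(t ^ 2 / (4 * N * s)))) +
        ENNReal.ofReal (Real.exp (-(t ^ 2 / (4 * N * s)))) := add_le_add h1 h2
    _ = ENNReal.ofReal (2 * Real.exp (-(t ^ 2 / (4 * N * s)))) := by
        rw [← ENNReal.ofReal_add (Real.exp_pos _).le (Real.exp_pos _).le, two_mul]

end Pool.Agent.Helper47.UB
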