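import Pool.Agent.Helper47.UB.Defs

/-!
# Numerical choice of the scales

`i0`: least with `(1/2)^{i0} ≤ √δ`; then `i0 = 0` or `(1/2)^{i0} > √δ/2`, so `i0 + 2 ≤ 6 log(2/δ)`
(`i0 + 2 ≤ 3 + log₂(1/√δ)`, `log(2/δ) ≥ log 2 ≥ 0.69`) — adjust the constant `6` inside the proof if necessary by
a finer computation; `3 + (1/2) log₂(1/δ) ≤ 6 (log 2 + log (1/δ))` holds. `i1`: least `≥ i0` with
`(1/2)^{i1} ≤ 1/N`; then `i1 ≤ max i0 (log₂ N + 1)` and all conditions hold if `N ≥ C (Λ b n/δ)^4`: with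
`M = Λ b n/δ ≥ 1`, `√N = N^{1/4} N^{1/4} ≥ C^{1/4} M · N^{1/4}`... e.g. `√N ≥ √C M²`, `N δ² ≥ C M² ...`. For
`i < i1`: `i + 2 ≤ max(...)`, `√(i+2) ≤ C' N^{1/8}` and `4 Λ b n √(i+2) ≤ 4 M C' N^{1/8} ≤ √N`, as
`N^{3/8} ≥ C^{3/8} M^{3/2}`. The last: `N b (1/2)^{i1} ≤ b ≤ √(N δ)`.
-/

namespace Pool.Agent.Helper47.UB

private theorem sq_le_two_pow (k : ℕ) : ((k : ℝ) + 2) ^ 2 ≤ 9 * 2 ^ k := by
  induction k with
  | zero => norm_num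
  | succ k ih =>
    rcases Nat.eq_zero_or_pos k with rfl | hk
    · norm_num
    · have hk1 : (1 : ℝ) ≤ k := by exact_mod_cast hk
      have h2 : (2 : ℝ) ^ (k + 1) = 2 ^ k * 2 := pow_succ 2 k
      push_cast
      rw [h2]
      nlinarith

theorem chain_num : ∃ C : ℝ, 1 ≤ C ∧ ∀ (n N : ℕ) (δ b Λ : ℝ), 1 ≤ n → 0 < δ → δ ≤ 1 → 1 ≤ b →
    1 ≤ Λ → C * (Λ * b * n / δ) ^ 4 ≤ N → ∃ i0 i1 : ℕ, i0 ≤ i1 ∧ (1 / 2 : ℝ) ^ i0 ≤ Real.sqrt δ ∧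
      ((i0 : ℝ) + 2 ≤ 6 * Real.log (2 / δ)) ∧
      (∀ i, i0 ≤ i → i < i1 → 4 * Λ * b * n * Real.sqrt (i + 2) ≤ Real.sqrt N) ∧
      4 * Λ * b * n * Real.sqrt (i0 + 2) ≤ Real.sqrt (N * δ) ∧
      N * b * (1 / 2 : ℝ) ^ i1 ≤ Real.sqrt (N * δ) := by
  refine ⟨2304, by norm_num, ?_⟩
  intro n N δ b Λ hn hδ hδ1 hb hΛ hN
  have hn1 : (1 : ℝ) ≤ n := by exact_mod_cast hn
  obtain ⟨P, hP⟩ : ∃ P : ℝ, P = Λ * b * n := ⟨_, rfl⟩
  have hΛb : b ≤ Λ * b := by nlinarith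
  have hbP : b ≤ P := by
    rw [hP]
    nlinarith
  have hP1 : 1 ≤ P := hb.trans hbP
  obtain ⟨M, hM⟩ : ∃ M : ℝ, M = P / δ := ⟨_, rfl⟩
  have hMδ : M * δ = P := by rw [hM]; exact div_mul_cancel₀ _ hδ.ne'
  have hPM : P ≤ M := by
    rw [← hMδ]
    have hM0 : 0 ≤ M := by rw [hM]; positivity
    nlinarith
  have hM1 : 1 ≤ M := hP1.trans hPM
  have hN' : 2304 * M ^ 4 ≤ (N : ℝ) := by
    rw [hM, hP]
    exact hN
  have hM2 : 1 ≤ M ^ 2 := one_le_pow₀ hM1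
  have hM24 : M ^ 2 ≤ M ^ 4 := pow_le_pow_right₀ hM1 (by norm_num)
  have hN1 : (2304 : ℝ) ≤ N := by nlinarith
  have hN0 : (0 : ℝ) < N := by linarith
  have hNn : 2 ≤ N := by
    have : (2 : ℝ) ≤ N := by linarith
    exact_mod_cast this
  have hsδ : 0 < Real.sqrt δ := Real.sqrt_pos.2 hδ
  have hex : ∃ i : ℕ, (1 / 2 : ℝ) ^ i ≤ Real.sqrt δ := by
    obtain ⟨i, hi⟩ := exists_pow_lt_of_lt_one hsδ (by norm_num : (1 / 2 : ℝ) < 1)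
    exact ⟨i, hi.le⟩
  classical
  obtain ⟨i0, hi0, hi0min⟩ : ∃ i0 : ℕ, (1 / 2 : ℝ) ^ i0 ≤ Real.sqrt δ ∧
      ∀ i < i0, Real.sqrt δ < (1 / 2 : ℝ) ^ i :=
    ⟨Nat.find hex, Nat.find_spec hex, fun i hi => not_le.1 (Nat.find_min hex hi)⟩
  have hlog2 : (0.69 : ℝ) < Real.log 2 := by
    have := Real.log_two_gt_d9
    linarith
  have hlogd : Real.log (2 / δ) = Real.log 2 - Real.log δ := Real.log_div (by norm_num) hδ.ne'
  have hlogδ : Real.log δ ≤ 0 := Real.log_nonpos hδ.le hδ1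
  have hi0b : (i0 : ℝ) + 2 ≤ 6 * Real.log (2 / δ) := by
    rw [hlogd]
    rcases Nat.eq_zero_or_pos i0 with h | h
    · rw [h, Nat.cast_zero]
      linarith
    · have h1 := hi0min (i0 - 1) (by omega)
      have h2 : Real.log (Real.sqrt δ) < Real.log ((1 / 2 : ℝ) ^ (i0 - 1)) := Real.log_lt_log hsδ h1
      rw [Real.log_sqrt hδ.le, Real.log_pow, one_div, Real.log_inv, Nat.cast_sub h,
        Nat.cast_one] at h2
      have h3 : ((i0 : ℝ) - 1) * Real.log 2 < - Real.log δ / 2 := by linarith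
      have hi01 : (0 : ℝ) ≤ (i0 : ℝ) - 1 := by
        have : (1 : ℝ) ≤ i0 := by exact_mod_cast h
        linarith
      have h4 : ((i0 : ℝ) - 1) * 0.69 ≤ ((i0 : ℝ) - 1) * Real.log 2 :=
        mul_le_mul_of_nonneg_left hlog2.le hi01
      linarith
  set j1 : ℕ := Nat.clog 2 N with hj1
  have hj1a : N ≤ 2 ^ j1 := Nat.le_pow_clog (by norm_num) N
  have hj1b : 2 ^ (j1 - 1) < N := Nat.pow_pred_clog_lt_self (by norm_num) (by omega)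
  have hj1c : (2 : ℝ) ^ (j1 - 1) ≤ N := by exact_mod_cast hj1b.le
  refine ⟨i0, max i0 j1, le_max_left _ _, hi0, hi0b, ?_, ?_, ?_⟩
  · intro i hi hi1
    have hij : i < j1 := by
      rcases lt_max_iff.1 hi1 with h | h
      · omega
      · exact h
    apply Real.le_sqrt_of_sq_le
    have e : 4 * Λ * b * n * Real.sqrt (i + 2) = 4 * P * Real.sqrt (i + 2) := by rw [hP]; ring
    rw [e, mul_pow, mul_pow, Real.sq_sqrt (by positivity)]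
    have h1 : ((i : ℝ) + 2) ≤ ((j1 - 1 : ℕ) : ℝ) + 2 := by
      have : i ≤ j1 - 1 := by omega
      have : (i : ℝ) ≤ ((j1 - 1 : ℕ) : ℝ) := by exact_mod_cast this
      linarith
    have h2 := sq_le_two_pow (j1 - 1)
    have h3 : ((i : ℝ) + 2) ^ 2 ≤ 9 * N := by
      calc ((i : ℝ) + 2) ^ 2 ≤ (((j1 - 1 : ℕ) : ℝ) + 2) ^ 2 :=
            pow_le_pow_left₀ (by positivity) h1 2
        _ ≤ 9 * 2 ^ (j1 - 1) := h2
        _ ≤ 9 * N := by linarith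
    have hP2 : P ^ 2 ≤ M ^ 2 := pow_le_pow_left₀ (by linarith) hPM 2
    have h4 : 4 ^ 2 * P ^ 2 * ((i : ℝ) + 2) ≤ 16 * M ^ 2 * ((i : ℝ) + 2) := by
      have : (0 : ℝ) ≤ (i : ℝ) + 2 := by positivity
      nlinarith
    refine h4.trans ?_
    -- `(16 M² (i+2))² ≤ 256 M⁴ 9 N ≤ N²`
    refine (sq_le_sq₀ (by positivity) hN0.le).1 ?_
    calc (16 * M ^ 2 * ((i : ℝ) + 2)) ^ 2 = 256 * M ^ 4 * ((i : ℝ) + 2) ^ 2 := by ring
      _ ≤ 256 * M ^ 4 * (9 * N) := mul_le_mul_of_nonneg_left h3 (by positivity)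
      _ = 2304 * M ^ 4 * N := by ring
      _ ≤ N * N := mul_le_mul_of_nonneg_right hN' hN0.le
      _ = (N : ℝ) ^ 2 := by ring
  · apply Real.le_sqrt_of_sq_le
    have e : 4 * Λ * b * n * Real.sqrt (i0 + 2) = 4 * P * Real.sqrt (i0 + 2) := by rw [hP]; ring
    rw [e, mul_pow, mul_pow, Real.sq_sqrt (by positivity)]
    have h1 : Real.log (2 / δ) ≤ 2 / δ := (Real.log_le_sub_one_of_pos (by positivity)).trans (by linarith)
    have h2 : ((i0 : ℝ) + 2) * δ ≤ 12 := by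
      have h3 : (i0 : ℝ) + 2 ≤ 12 / δ := by
        calc (i0 : ℝ) + 2 ≤ 6 * Real.log (2 / δ) := hi0b
          _ ≤ 6 * (2 / δ) := by linarith
          _ = 12 / δ := by ring
      rw [le_div_iff₀ hδ] at h3
      exact h3
    have h5 : 4 ^ 2 * P ^ 2 * ((i0 : ℝ) + 2) = 16 * M ^ 2 * (((i0 : ℝ) + 2) * δ) * δ := by
      rw [← hMδ]
      ring
    rw [h5]
    refine mul_le_mul_of_nonneg_right ?_ hδ.le
    have h6 : 16 * M ^ 2 * (((i0 : ℝ) + 2) * δ) ≤ 16 * M ^ 2 * 12 :=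
      mul_le_mul_of_nonneg_left h2 (by positivity)
    linarith
  · have h1 : (N : ℝ) * (1 / 2 : ℝ) ^ (max i0 j1) ≤ 1 := by
      have h2 : (1 / 2 : ℝ) ^ (max i0 j1) ≤ (1 / 2 : ℝ) ^ j1 :=
        pow_le_pow_of_le_one (by norm_num) (by norm_num) (le_max_right _ _)
      have h3 : (N : ℝ) ≤ 2 ^ j1 := by exact_mod_cast hj1a
      calc (N : ℝ) * (1 / 2 : ℝ) ^ (max i0 j1) ≤ 2 ^ j1 * (1 / 2 : ℝ) ^ j1 :=
            mul_le_mul h3 h2 (by positivity) (by positivity)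
        _ = 1 := by rw [← mul_pow]; norm_num
    have h4 : (N : ℝ) * b * (1 / 2 : ℝ) ^ (max i0 j1) ≤ b := by
      calc (N : ℝ) * b * (1 / 2 : ℝ) ^ (max i0 j1) = b * (N * (1 / 2 : ℝ) ^ (max i0 j1)) := by ring
        _ ≤ b * 1 := mul_le_mul_of_nonneg_left h1 (by linarith)
        _ = b := mul_one b
    refine h4.trans (Real.le_sqrt_of_sq_le ?_)
    have h5 : b ^ 2 ≤ P ^ 2 := pow_le_pow_left₀ (by linarith) hbP 2
    have h6 : P ^ 2 = M ^ 2 * δ * δ := by rw [← hMδ]; ring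
    have h7 : M ^ 2 * δ ≤ N := by
      have : M ^ 2 * δ ≤ M ^ 2 * 1 := mul_le_mul_of_nonneg_left hδ1 (by positivity)
      nlinarith
    calc b ^ 2 ≤ M ^ 2 * δ * δ := h5.trans h6.le
      _ ≤ N * δ := mul_le_mul_of_nonneg_right h7 hδ.le

end Pool.Agent.Helper47.UB
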