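import Pool.Agent.Helper47.UB.Defs

/-!
# Volumetric nets of the sphere

Let `T` be a maximal `η`-separated subset of the unit sphere (`‖a - a'‖ > η` for distinct `a, a'`; finite
by the volume bound, a maximal one exists by maximal cardinality). The balls `B(a, η/2)` are disjoint
and contained in `B(0, 1 + η/2)`, so `card T · (η/2)^n ≤ (1 + η/2)^n`, `card T ≤ (1 + 2/η)^n ≤ (3/η)^n` for
`η ≤ 1` (`Measure.addHaar_ball` / `EuclideanSpace.volume_ball`). Maximality gives the covering.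
-/

open MeasureTheory Metric
open scoped RealInnerProductSpace ENNReal

namespace Pool.Agent.Helper47.UB

private theorem vnet_card (n : ℕ) (η : ℝ) (h0 : 0 < η) (h1 : η ≤ 1) (T : Finset (En n))
    (hT : ∀ a ∈ T, ‖a‖ = 1) (hs : ∀ a ∈ T, ∀ a' ∈ T, a ≠ a' → η < ‖a - a'‖) :
    (T.card : ℝ) ≤ (3 / η) ^ n := by
  have hη : 0 < η / 2 := by positivity
  have hdisj : (T : Set (En n)).PairwiseDisjoint (fun a => ball a (η / 2)) := by
    intro a ha a' ha' hne
    refine ball_disjoint_ball ?_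
    rw [dist_eq_norm]
    have := hs a ha a' ha' hne
    linarith
  have hsub : (⋃ a ∈ T, ball a (η / 2)) ⊆ ball (0 : En n) (1 + η / 2) := by
    intro x hx
    rw [Set.mem_iUnion₂] at hx
    obtain ⟨a, ha, hxa⟩ := hx
    rw [mem_ball, dist_eq_norm] at hxa
    rw [mem_ball, dist_zero_right]
    have h2 : ‖x‖ ≤ ‖x - a‖ + ‖a‖ := by
      have := norm_add_le (x - a) a
      rwa [sub_add_cancel] at this
    rw [hT a ha] at h2
    linarith
  have hfr : Module.finrank ℝ (En n) = n := finrank_euclideanSpace_fin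
  have hvol : ∀ (a : En n) (r : ℝ), 0 < r → (volume : Measure (En n)) (ball a r) =
      ENNReal.ofReal (r ^ n) * (volume : Measure (En n)) (ball 0 1) := by
    intro a r hr
    rw [Measure.addHaar_ball_of_pos _ a hr, hfr]
  have hc0 : (volume : Measure (En n)) (ball 0 1) ≠ 0 := (measure_ball_pos _ _ one_pos).ne'
  have hct : (volume : Measure (En n)) (ball 0 1) ≠ ⊤ := measure_ball_lt_top.ne
  have hle : ∑ a ∈ T, (volume : Measure (En n)) (ball a (η / 2)) ≤
      (volume : Measure (En n)) (ball 0 (1 + η / 2)) := by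
    rw [← measure_biUnion_finset hdisj (fun a _ => measurableSet_ball)]
    exact measure_mono hsub
  rw [Finset.sum_congr rfl (fun a _ => hvol a (η / 2) hη), hvol 0 (1 + η / 2) (by linarith),
    Finset.sum_const, nsmul_eq_mul, ← mul_assoc] at hle
  have hle2 : (T.card : ℝ≥0∞) * ENNReal.ofReal ((η / 2) ^ n) ≤ ENNReal.ofReal ((1 + η / 2) ^ n) :=
    (ENNReal.mul_le_mul_iff_left hc0 hct).1 hle
  have hle3 : (T.card : ℝ) * (η / 2) ^ n ≤ (1 + η / 2) ^ n := by
    have h3 : (T.card : ℝ≥0∞) = ENNReal.ofReal (T.card : ℝ) := (ENNReal.ofReal_natCast _).symm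
    rw [h3, ← ENNReal.ofReal_mul (Nat.cast_nonneg _)] at hle2
    exact (ENNReal.ofReal_le_ofReal_iff (by positivity)).1 hle2
  have h4 : (1 + η / 2) ^ n ≤ (3 / η) ^ n * (η / 2) ^ n := by
    rw [← mul_pow]
    refine pow_le_pow_left₀ (by positivity) ?_ n
    have h5 : 3 / η * (η / 2) = 3 / 2 := by field_simp
    rw [h5]
    linarith
  have h6 : 0 < (η / 2) ^ n := by positivity
  exact le_of_mul_le_mul_right (hle3.trans h4) h6

theorem vnet (n : ℕ) (hn : 1 ≤ n) (η : ℝ) (h0 : 0 < η) (h1 : η ≤ 1) :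
    ∃ T : Finset (En n), (T.card : ℝ) ≤ (3 / η) ^ n ∧ (∀ a ∈ T, ‖a‖ = 1) ∧
      ∀ v : En n, ‖v‖ = 1 → ∃ a ∈ T, ‖v - a‖ ≤ η := by
  classical
  have _ := hn
  set S : Set ℕ := {k | ∃ T : Finset (En n), T.card = k ∧ (∀ a ∈ T, ‖a‖ = 1) ∧
    ∀ a ∈ T, ∀ a' ∈ T, a ≠ a' → η < ‖a - a'‖} with hS
  have hne : S.Nonempty := ⟨0, ∅, rfl, fun a ha => absurd ha (Finset.notMem_empty a),
    fun a ha => absurd ha (Finset.notMem_empty a)⟩
  have hbdd : BddAbove S := by
    refine ⟨⌊(3 / η) ^ n⌋₊, ?_⟩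
    rintro k ⟨T, rfl, h2, h3⟩
    exact Nat.le_floor (vnet_card n η h0 h1 T h2 h3)
  obtain ⟨T, hTc, hT1, hT2⟩ := Nat.sSup_mem hne hbdd
  refine ⟨T, vnet_card n η h0 h1 T hT1 hT2, hT1, fun v hv => ?_⟩
  by_contra hcon
  have hfar : ∀ a ∈ T, η < ‖v - a‖ := fun a ha => not_le.1 fun h => hcon ⟨a, ha, h⟩
  have hvT : v ∉ T := by
    intro h
    have := hfar v h
    rw [sub_self, norm_zero] at this
    linarith
  have hmem : (insert v T).card ∈ S := by
    refine ⟨insert v T, rfl, ?_, ?_⟩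
    · intro a ha
      rcases Finset.mem_insert.1 ha with rfl | ha
      · exact hv
      · exact hT1 a ha
    · intro a ha a' ha' hne'
      rcases Finset.mem_insert.1 ha with e1 | e1
      · rcases Finset.mem_insert.1 ha' with e2 | e2
        · exact absurd (e1.trans e2.symm) hne'
        · rw [e1]
          exact hfar a' e2
      · rcases Finset.mem_insert.1 ha' with e2 | e2
        · rw [norm_sub_rev, e2]
          exact hfar a e1
        · exact hT2 a e1 a' e2 hne'
  have h5 := le_csSup hbdd hmem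
  rw [← hTc, Finset.card_insert_of_notMem hvT] at h5
  omega

end Pool.Agent.Helper47.UB
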