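import Pool.Agent.Helper47.UB.Bern
import Pool.Agent.Helper47.UB.VNet

/-!
# Probability of the bad events of the chaining

Family `F : En n → Y → ℝ` as in `ChainHyp`. `level_bad`: pairs `(a,c) ∈ T × T'` with `‖a - c‖ ≤ 2·2^{-i}`; for
each pair apply `bern` to `F a - F c` with `s = 4 (1/2)^{2i}/n`, `b·2·(1/2)^i` in place of `b`,
`t = 16 Λ √N (1/2)^i √(i+2)`. Linear condition: `t · 2 b (1/2)^i ≤ 8 N (1/2)^{2i}/n` is `4 Λ b n √(i+2) ≤ √N`.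
Exponent `t²/(4 N s) = 16 Λ² n (i+2)`. Number of pairs `≤ (3·2^i)^n (3·2^{i+1})^n ≤ exp(4 n (i+1))`
(`18·4^i ≤ e^{4(i+1)}`). Union: `≤ 2 exp(4 n (i+1) - 16 Λ² n (i+2)) ≤ 2 exp(-12 Λ² (i+2))
≤ 2^{-Λ²} 2^{-i}/64`.
`top_bad`: `bern` for `F a`, `a ∈ T`, `s = δ/n`, `t = 8 Λ √(N δ (i+2))`, linear condition
`4 Λ b n √(i+2) ≤ √(N δ)`, exponent `16 Λ² n (i+2)`, number `(3·2^i)^n`.
-/

open MeasureTheory Metric
open scoped RealInnerProductSpace ENNReal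

namespace Pool.Agent.Helper47.UB

/-- The hypotheses on the family. -/
structure ChainHyp {Y : Type} [MeasurableSpace Y] (μ : Measure Y) (n : ℕ) (F : En n → Y → ℝ)
    (δ b : ℝ) : Prop where
  meas : ∀ v, Measurable (F v)
  mean : ∀ v, ‖v‖ = 1 → ∫ y, F v y ∂μ = 0
  sq : ∀ v, ‖v‖ = 1 → ∫ y, F v y ^ 2 ∂μ ≤ δ / n
  diff : ∀ v w, ‖v‖ = 1 → ‖w‖ = 1 → ∫ y, (F v y - F w y) ^ 2 ∂μ ≤ ‖v - w‖ ^ 2 / n
  lip : ∀ v w y, ‖v‖ = 1 → ‖w‖ = 1 → |F v y - F w y| ≤ b * ‖v - w‖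
  bd : ∀ v y, ‖v‖ = 1 → |F v y| ≤ b

private theorem cp_union {Ω ι : Type} [MeasurableSpace Ω] (P : Measure Ω) (S : Finset ι)
    (A : ι → Set Ω) (B : Set Ω) (q M : ℝ) (hq : 0 ≤ q) (hB : B ⊆ ⋃ i ∈ S, A i)
    (h : ∀ i ∈ S, P (A i) ≤ ENNReal.ofReal q) (hM : (S.card : ℝ) ≤ M) :
    P B ≤ ENNReal.ofReal (M * q) := by
  calc P B ≤ P (⋃ i ∈ S, A i) := measure_mono hB
    _ ≤ ∑ i ∈ S, P (A i) := measure_biUnion_finset_le S A
    _ ≤ ∑ _i ∈ S, ENNReal.ofReal q := Finset.sum_le_sum h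
    _ = ENNReal.ofReal ((S.card : ℝ) * q) := by
        rw [Finset.sum_const, nsmul_eq_mul, ENNReal.ofReal_mul (by positivity),
          ENNReal.ofReal_natCast]
    _ ≤ ENNReal.ofReal (M * q) :=
        ENNReal.ofReal_le_ofReal (mul_le_mul_of_nonneg_right hM hq)

private theorem cp_exp4 : (18 : ℝ) ≤ Real.exp 4 := by
  have h1 : (2.7182818283 : ℝ) < Real.exp 1 := Real.exp_one_gt_d9
  have h2 : Real.exp 4 = Real.exp 1 ^ 4 := by
    rw [← Real.exp_nat_mul]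
    norm_num
  rw [h2]
  have h3 : (2.7 : ℝ) ^ 4 ≤ Real.exp 1 ^ 4 := pow_le_pow_left₀ (by norm_num) (by linarith) 4
  norm_num at h3 ⊢
  linarith

private theorem cp_card (n i : ℕ) :
    ((3 * 2 ^ i : ℝ)) ^ n * (3 * 2 ^ (i + 1)) ^ n ≤ Real.exp (4 * n * (i + 1)) := by
  have h0 := cp_exp4
  have h1 : ((3 * 2 ^ i : ℝ)) * (3 * 2 ^ (i + 1)) = 18 * 4 ^ i := by
    have : (4 : ℝ) ^ i = 2 ^ i * 2 ^ i := by
      rw [← mul_pow]
      norm_num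
    rw [this, pow_succ]
    ring
  have h2 : (18 : ℝ) * 4 ^ i ≤ Real.exp (4 * (i + 1)) := by
    have h3 : Real.exp (4 * ((i : ℝ) + 1)) = Real.exp 4 * Real.exp 4 ^ i := by
      rw [← Real.exp_nat_mul, ← Real.exp_add]
      congr 1
      ring
    rw [h3]
    refine mul_le_mul h0 (pow_le_pow_left₀ (by norm_num) (by linarith) i) (by positivity)
      (by positivity)
  rw [← mul_pow, h1]
  calc ((18 : ℝ) * 4 ^ i) ^ n ≤ Real.exp (4 * (i + 1)) ^ n :=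
        pow_le_pow_left₀ (by positivity) h2 n
    _ = Real.exp (4 * n * (i + 1)) := by
        rw [← Real.exp_nat_mul]
        congr 1
        ring

private theorem cp_fin (n i : ℕ) (hn : 1 ≤ n) (Λ : ℝ) (hΛ : 1 ≤ Λ) :
    Real.exp (4 * n * (i + 1)) * (2 * Real.exp (-(16 * Λ ^ 2 * n * (i + 2)))) ≤
      (1 / 2 : ℝ) ^ (Λ ^ 2) * (1 / 2 : ℝ) ^ i / 64 := by
  have hn' : (1 : ℝ) ≤ n := by exact_mod_cast hn
  have hi : (0 : ℝ) ≤ i := Nat.cast_nonneg i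
  have hL : (1 : ℝ) ≤ Λ ^ 2 := by nlinarith
  have hl2 : Real.log 2 ≤ 1 := by
    have := Real.log_two_lt_d9
    linarith
  have h5 : (128 : ℝ) ≤ Real.exp 5 := by
    have h1 : (2.7182818283 : ℝ) < Real.exp 1 := Real.exp_one_gt_d9
    have h2 : Real.exp 5 = Real.exp 1 ^ 5 := by
      rw [← Real.exp_nat_mul]
      norm_num
    rw [h2]
    have h3 : (2.7 : ℝ) ^ 5 ≤ Real.exp 1 ^ 5 := pow_le_pow_left₀ (by norm_num) (by linarith) 5
    norm_num at h3 ⊢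
    linarith
  have h6 : Real.exp (-(Λ ^ 2)) ≤ (1 / 2 : ℝ) ^ (Λ ^ 2) := by
    rw [Real.rpow_def_of_pos (by norm_num)]
    apply Real.exp_le_exp.2
    rw [one_div, Real.log_inv]
    nlinarith
  have h7 : Real.exp (-(i : ℝ)) ≤ (1 / 2 : ℝ) ^ i := by
    have : (1 / 2 : ℝ) ^ i = Real.exp (-(i * Real.log 2)) := by
      rw [Real.exp_neg, Real.exp_nat_mul, Real.exp_log (by norm_num), one_div, inv_pow]
    rw [this]
    apply Real.exp_le_exp.2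
    nlinarith
  have h8 : Real.exp (-(Λ ^ 2)) * Real.exp (-(i : ℝ)) ≤ (1 / 2 : ℝ) ^ (Λ ^ 2) * (1 / 2 : ℝ) ^ i :=
    mul_le_mul h6 h7 (by positivity) (by positivity)
  have h9 : Real.exp (4 * n * (i + 1)) * (2 * Real.exp (-(16 * Λ ^ 2 * n * (i + 2)))) ≤
      2 * (Real.exp (-(Λ ^ 2)) * Real.exp (-(i : ℝ)) * Real.exp (-5)) := by
    rw [← Real.exp_add, ← Real.exp_add]
    have : Real.exp (4 * n * (i + 1)) * (2 * Real.exp (-(16 * Λ ^ 2 * n * (i + 2)))) =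
        2 * Real.exp (4 * n * (i + 1) + -(16 * Λ ^ 2 * n * (i + 2))) := by
      rw [Real.exp_add]
      ring
    rw [this]
    refine mul_le_mul_of_nonneg_left (Real.exp_le_exp.2 ?_) (by norm_num)
    have e1 : 4 * (n : ℝ) * (i + 1) ≤ 4 * (Λ ^ 2 * (n * (i + 2))) := by
      have : (n : ℝ) * (i + 1) ≤ Λ ^ 2 * (n * (i + 2)) := by
        have h10 : (0 : ℝ) ≤ n * (i + 2) := by positivity
        nlinarith
      linarith
    have e2 : Λ ^ 2 * (i + 2) ≤ Λ ^ 2 * (n * (i + 2)) := by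
      have h10 : (0 : ℝ) ≤ i + 2 := by linarith
      have h11 : (i : ℝ) + 2 ≤ n * (i + 2) := by nlinarith
      nlinarith
    have e3 : (i : ℝ) ≤ Λ ^ 2 * i := by nlinarith
    have e4 : Λ ^ 2 * ((i : ℝ) + 2) = Λ ^ 2 * i + 2 * Λ ^ 2 := by ring
    have e5 : 16 * Λ ^ 2 * (n : ℝ) * (i + 2) = 16 * (Λ ^ 2 * (n * (i + 2))) := by ring
    rw [e5]
    linarith
  have h10 : Real.exp (-5) ≤ 1 / 128 := by
    rw [Real.exp_neg, ← one_div]
    exact one_div_le_one_div_of_le (by norm_num) h5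
  refine h9.trans ?_
  have h11 : 0 ≤ Real.exp (-(Λ ^ 2)) * Real.exp (-(i : ℝ)) := by positivity
  nlinarith

private theorem cp_int {Y : Type} [MeasurableSpace Y] (μ : Measure Y) [IsProbabilityMeasure μ]
    {n : ℕ} {F : En n → Y → ℝ} {δ b : ℝ} (hF : ChainHyp μ n F δ b) {v : En n} (hv : ‖v‖ = 1) :
    Integrable (F v) μ := by
  refine Integrable.of_bound (hF.meas v).aestronglyMeasurable b ?_
  exact Filter.Eventually.of_forall fun y => hF.bd v y hv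

private theorem cp_pair {Y : Type} [MeasurableSpace Y] (μ : Measure Y) [IsProbabilityMeasure μ]
    {n N : ℕ} (hn : 1 ≤ n) (hN : 1 ≤ N) {F : En n → Y → ℝ} {δ b : ℝ} (hb : 1 ≤ b)
    (hF : ChainHyp μ n F δ b) (Λ : ℝ) (hΛ : 1 ≤ Λ) (i : ℕ) (a c : En n)
    (ha : ‖a‖ = 1) (hc : ‖c‖ = 1) (hac : ‖a - c‖ ≤ 2 * (1 / 2 : ℝ) ^ i)
    (hlin : 4 * Λ * b * n * Real.sqrt (i + 2) ≤ Real.sqrt N) :
    (Measure.pi fun _ : Fin N => μ) {y |
      16 * Λ * Real.sqrt N * ((1 / 2 : ℝ) ^ i * Real.sqrt (i + 2)) ≤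
        |∑ j, F a (y j) - ∑ j, F c (y j)|} ≤
      ENNReal.ofReal (2 * Real.exp (-(16 * Λ ^ 2 * n * (i + 2)))) := by
  have hn' : (1 : ℝ) ≤ n := by exact_mod_cast hn
  have hN' : (1 : ℝ) ≤ N := by exact_mod_cast hN
  have hi : (0 : ℝ) ≤ i := Nat.cast_nonneg i
  set h : ℝ := (1 / 2 : ℝ) ^ i with hh
  have hhp : 0 < h := by positivity
  set r : ℝ := Real.sqrt (i + 2) with hr
  have hrp : 0 ≤ r := Real.sqrt_nonneg _
  have hr2 : r ^ 2 = i + 2 := Real.sq_sqrt (by linarith)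
  set w : ℝ := Real.sqrt N with hw
  have hwp : 0 ≤ w := Real.sqrt_nonneg _
  have hw2 : w ^ 2 = N := Real.sq_sqrt (by linarith)
  have key := bern μ N (fun y => F a y - F c y) ((hF.meas a).sub (hF.meas c)) (4 * h ^ 2 / n)
    (2 * b * h) (16 * Λ * w * (h * r)) (by positivity) (by positivity) (by positivity)
    (by rw [integral_sub (cp_int μ hF ha) (cp_int μ hF hc), hF.mean a ha, hF.mean c hc, sub_zero])
    (by
      refine (hF.diff a c ha hc).trans ?_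
      refine div_le_div_of_nonneg_right ?_ (by linarith)
      have h1 : ‖a - c‖ ^ 2 ≤ (2 * h) ^ 2 := pow_le_pow_left₀ (norm_nonneg _) hac 2
      have h2 : (2 * h) ^ 2 = 4 * h ^ 2 := by ring
      linarith)
    (by
      intro y
      refine (hF.lip a c y ha hc).trans ?_
      have : b * ‖a - c‖ ≤ b * (2 * h) := mul_le_mul_of_nonneg_left hac (by linarith)
      linarith)
    (by
      have h1 : 16 * Λ * w * (h * r) * (2 * b * h) * n = 8 * h ^ 2 * (w * (4 * Λ * b * n * r)) := by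
        ring
      have h2 : w * (4 * Λ * b * n * r) ≤ w * w := mul_le_mul_of_nonneg_left hlin hwp
      have h3 : w * w = N := by rw [← hw2]; ring
      have h4 : 16 * Λ * w * (h * r) * (2 * b * h) * n ≤ 8 * h ^ 2 * N := by
        rw [h1, ← h3]
        exact mul_le_mul_of_nonneg_left h2 (by positivity)
      have h5 : 2 * (N : ℝ) * (4 * h ^ 2 / n) = 8 * h ^ 2 * N / n := by ring
      rw [h5, le_div_iff₀ (by linarith)]
      exact h4)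
  have he : (16 * Λ * w * (h * r)) ^ 2 / (4 * N * (4 * h ^ 2 / n)) = 16 * Λ ^ 2 * n * (i + 2) := by
    rw [← hr2, ← hw2]
    have hw0 : w ≠ 0 := by
      intro h0
      rw [h0] at hw2
      norm_num at hw2
      linarith
    field_simp
    ring
  rw [he] at key
  refine le_trans (measure_mono ?_) key
  intro y hy
  simp only [Set.mem_ofPred_eq] at hy ⊢
  rwa [Finset.sum_sub_distrib]

private theorem cp_one {Y : Type} [MeasurableSpace Y] (μ : Measure Y) [IsProbabilityMeasure μ]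
    {n N : ℕ} (hn : 1 ≤ n) (hN : 1 ≤ N) {F : En n → Y → ℝ} {δ b : ℝ} (hδ : 0 < δ) (hb : 1 ≤ b)
    (hF : ChainHyp μ n F δ b) (Λ : ℝ) (hΛ : 1 ≤ Λ) (i : ℕ) (a : En n) (ha : ‖a‖ = 1)
    (hlin : 4 * Λ * b * n * Real.sqrt (i + 2) ≤ Real.sqrt (N * δ)) :
    (Measure.pi fun _ : Fin N => μ) {y |
      8 * Λ * Real.sqrt (N * δ) * Real.sqrt (i + 2) ≤ |∑ j, F a (y j)|} ≤
      ENNReal.ofReal (2 * Real.exp (-(16 * Λ ^ 2 * n * (i + 2)))) := by
  have hn' : (1 : ℝ) ≤ n := by exact_mod_cast hn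
  have hN' : (1 : ℝ) ≤ N := by exact_mod_cast hN
  have hi : (0 : ℝ) ≤ i := Nat.cast_nonneg i
  set r : ℝ := Real.sqrt (i + 2) with hr
  have hrp : 0 ≤ r := Real.sqrt_nonneg _
  have hr2 : r ^ 2 = i + 2 := Real.sq_sqrt (by linarith)
  have hNδ : 0 < (N : ℝ) * δ := by positivity
  set w : ℝ := Real.sqrt (N * δ) with hw
  have hwp : 0 < w := Real.sqrt_pos.2 hNδ
  have hw2 : w ^ 2 = N * δ := Real.sq_sqrt hNδ.le
  have key := bern μ N (F a) (hF.meas a) (δ / n) b (8 * Λ * w * r) (by positivity) (by linarith)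
    (by positivity) (hF.mean a ha) (hF.sq a ha) (fun y => hF.bd a y ha)
    (by
      have h1 : 8 * Λ * w * r * b * n = 2 * (w * (4 * Λ * b * n * r)) := by ring
      have h2 : w * (4 * Λ * b * n * r) ≤ w * w := mul_le_mul_of_nonneg_left hlin hwp.le
      have h3 : w * w = N * δ := by rw [← hw2]; ring
      have h5 : 2 * (N : ℝ) * (δ / n) = 2 * (N * δ) / n := by ring
      rw [h5, le_div_iff₀ (by linarith), h1, ← h3]
      linarith)
  have he : (8 * Λ * w * r) ^ 2 / (4 * N * (δ / n)) = 16 * Λ ^ 2 * n * (i + 2) := by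
    have h1 : (4 : ℝ) * N * (δ / n) = 4 * w ^ 2 / n := by
      rw [hw2]
      ring
    rw [h1, ← hr2]
    field_simp
    ring
  rw [he] at key
  exact key

theorem level_bad {Y : Type} [MeasurableSpace Y] (μ : Measure Y) [IsProbabilityMeasure μ]
    {n N : ℕ} (hn : 1 ≤ n) (hN : 1 ≤ N) {F : En n → Y → ℝ} {δ b : ℝ} (hb : 1 ≤ b)
    (hF : ChainHyp μ n F δ b) (Λ : ℝ) (hΛ : 1 ≤ Λ) (i : ℕ) (T T' : Finset (En n))
    (hT : ∀ a ∈ T, ‖a‖ = 1) (hT' : ∀ a ∈ T', ‖a‖ = 1) (hc : (T.card : ℝ) ≤ (3 * 2 ^ i) ^ n)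
    (hc' : (T'.card : ℝ) ≤ (3 * 2 ^ (i + 1)) ^ n)
    (hlin : 4 * Λ * b * n * Real.sqrt (i + 2) ≤ Real.sqrt N) :
    (Measure.pi fun _ : Fin N => μ) {y | ∃ a ∈ T, ∃ c ∈ T', ‖a - c‖ ≤ 2 * (1 / 2 : ℝ) ^ i ∧
      16 * Λ * Real.sqrt N * ((1 / 2 : ℝ) ^ i * Real.sqrt (i + 2)) ≤
        |∑ j, F a (y j) - ∑ j, F c (y j)|} ≤
      ENNReal.ofReal ((1 / 2 : ℝ) ^ (Λ ^ 2) * (1 / 2 : ℝ) ^ i / 64) := by
  classical
  have h1 := cp_union (Measure.pi fun _ : Fin N => μ)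
    ((T ×ˢ T').filter fun p => ‖p.1 - p.2‖ ≤ 2 * (1 / 2 : ℝ) ^ i)
    (fun p => {y | 16 * Λ * Real.sqrt N * ((1 / 2 : ℝ) ^ i * Real.sqrt (i + 2)) ≤
        |∑ j, F p.1 (y j) - ∑ j, F p.2 (y j)|})
    {y | ∃ a ∈ T, ∃ c ∈ T', ‖a - c‖ ≤ 2 * (1 / 2 : ℝ) ^ i ∧
      16 * Λ * Real.sqrt N * ((1 / 2 : ℝ) ^ i * Real.sqrt (i + 2)) ≤
        |∑ j, F a (y j) - ∑ j, F c (y j)|}
    (2 * Real.exp (-(16 * Λ ^ 2 * n * (i + 2)))) (Real.exp (4 * n * (i + 1))) (by positivity)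
    (by
      rintro y ⟨a, ha, c, hc1, hac, hy⟩
      simp only [Set.mem_iUnion]
      exact ⟨(a, c), Finset.mem_filter.2 ⟨Finset.mem_product.2 ⟨ha, hc1⟩, hac⟩, hy⟩)
    (by
      rintro ⟨a, c⟩ hac
      obtain ⟨h2, h3⟩ := Finset.mem_filter.1 hac
      obtain ⟨h4, h5⟩ := Finset.mem_product.1 h2
      exact cp_pair μ hn hN hb hF Λ hΛ i a c (hT a h4) (hT' c h5) h3 hlin)
    (by
      refine le_trans ?_ (cp_card n i)
      calc ((((T ×ˢ T').filter fun p => ‖p.1 - p.2‖ ≤ 2 * (1 / 2 : ℝ) ^ i).card : ℕ) : ℝ)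
          ≤ ((T ×ˢ T').card : ℝ) := by
            exact_mod_cast Finset.card_filter_le _ _
        _ = (T.card : ℝ) * T'.card := by
            rw [Finset.card_product]
            push_cast
            ring
        _ ≤ (3 * 2 ^ i) ^ n * (3 * 2 ^ (i + 1)) ^ n :=
            mul_le_mul hc hc' (by positivity) (by positivity))
  exact h1.trans (ENNReal.ofReal_le_ofReal (cp_fin n i hn Λ hΛ))

theorem top_bad {Y : Type} [MeasurableSpace Y] (μ : Measure Y) [IsProbabilityMeasure μ]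
    {n N : ℕ} (hn : 1 ≤ n) (hN : 1 ≤ N) {F : En n → Y → ℝ} {δ b : ℝ} (hδ : 0 < δ) (hb : 1 ≤ b)
    (hF : ChainHyp μ n F δ b) (Λ : ℝ) (hΛ : 1 ≤ Λ) (i : ℕ) (T : Finset (En n))
    (hT : ∀ a ∈ T, ‖a‖ = 1) (hc : (T.card : ℝ) ≤ (3 * 2 ^ i) ^ n)
    (hlin : 4 * Λ * b * n * Real.sqrt (i + 2) ≤ Real.sqrt (N * δ)) :
    (Measure.pi fun _ : Fin N => μ) {y | ∃ a ∈ T,
      8 * Λ * Real.sqrt (N * δ) * Real.sqrt (i + 2) ≤ |∑ j, F a (y j)|} ≤
      ENNReal.ofReal ((1 / 2 : ℝ) ^ (Λ ^ 2) / 32) := by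
  have h1 := cp_union (Measure.pi fun _ : Fin N => μ) T
    (fun a => {y | 8 * Λ * Real.sqrt (N * δ) * Real.sqrt (i + 2) ≤ |∑ j, F a (y j)|})
    {y | ∃ a ∈ T, 8 * Λ * Real.sqrt (N * δ) * Real.sqrt (i + 2) ≤ |∑ j, F a (y j)|}
    (2 * Real.exp (-(16 * Λ ^ 2 * n * (i + 2)))) (Real.exp (4 * n * (i + 1))) (by positivity)
    (by
      rintro y ⟨a, ha, hy⟩
      simp only [Set.mem_iUnion]
      exact ⟨a, ha, hy⟩)
    (fun a ha => cp_one μ hn hN hδ hb hF Λ hΛ i a (hT a ha) hlin)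
    (by
      refine hc.trans (le_trans ?_ (cp_card n i))
      have h2 : (1 : ℝ) ≤ (3 * 2 ^ (i + 1)) ^ n := by
        apply one_le_pow₀
        have : (1 : ℝ) ≤ 2 ^ (i + 1) := one_le_pow₀ (by norm_num)
        linarith
      have h3 : (0 : ℝ) ≤ (3 * 2 ^ i) ^ n := by positivity
      nlinarith)
  refine h1.trans (ENNReal.ofReal_le_ofReal ((cp_fin n i hn Λ hΛ).trans ?_))
  have h4 : (1 / 2 : ℝ) ^ i ≤ 1 := pow_le_one₀ (by norm_num) (by norm_num)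
  have h5 : 0 ≤ (1 / 2 : ℝ) ^ (Λ ^ 2) := by positivity
  nlinarith

end Pool.Agent.Helper47.UB
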