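import Pool.Agent.Helper47.UB.ChainDet
import Pool.Agent.Helper47.UB.ChainProb
import Pool.Agent.Helper47.UB.ChainNum

/-!
# Chaining

`T i` from `vnet` with `η = (1/2)^i`; `i0, i1` from `chain_num`. Outside the bad events of `level_bad`
(`i0 ≤ i < i1`, `T = T i`, `T' = T (i+1)`) and `top_bad` (`i = i0`), whose total measure is
`≤ 2^{-Λ²} (∑ 2^{-i}/64 + 1/32) ≤ 2^{-Λ²}/16`, `chain_det` with `S v = ∑ F v (y j)`, `L = N b`,
`t i = 16 Λ √N ((1/2)^i √(i+2))`, `sum_scales` and `chain_num` give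
`|S v| ≤ 8 Λ √(Nδ) √(i0+2) + 64 Λ √N √δ √(i0+2) + √(N δ) ≤ C Λ √(N (δ log(2/δ)))`.
-/

open MeasureTheory Metric
open scoped RealInnerProductSpace ENNReal

namespace Pool.Agent.Helper47.UB

private lemma ch_geom (i0 i1 : ℕ) : ∑ i ∈ Finset.Ico i0 i1, (1 / 2 : ℝ) ^ i ≤ 2 := by
  have h1 : ∑ i ∈ Finset.Ico i0 i1, (1 / 2 : ℝ) ^ i ≤ ∑ i ∈ Finset.range i1, (1 / 2 : ℝ) ^ i := by
    apply Finset.sum_le_sum_of_subset_of_nonneg
    · intro i hi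
      rw [Finset.mem_Ico] at hi
      exact Finset.mem_range.mpr hi.2
    · intro i _ _
      positivity
  refine h1.trans ?_
  have h2 : ∀ k : ℕ, ∑ i ∈ Finset.range k, (1 / 2 : ℝ) ^ i = 2 - 2 * (1 / 2 : ℝ) ^ k := by
    intro k
    induction k with
    | zero => simp
    | succ k ih =>
      rw [Finset.sum_range_succ, ih, pow_succ]
      ring
  rw [h2]
  have : (0 : ℝ) < (1 / 2 : ℝ) ^ i1 := by positivity
  linarith

private lemma ch_num (N δ Λ r : ℝ) (hN : 0 ≤ N) (hδ : 0 < δ) (hδ1 : δ ≤ 1) (hΛ : 1 ≤ Λ)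
    (h1 : 1 ≤ r) (hr : r ^ 2 ≤ 6 * Real.log (2 / δ)) :
    73 * Λ * Real.sqrt (N * δ) * r ≤
      219 * Λ * Real.sqrt (N * (δ * Real.log (2 / δ))) := by
  have hlog : 0 ≤ Real.log (2 / δ) := by
    have : (0 : ℝ) ≤ r ^ 2 := sq_nonneg r
    linarith
  have h2 : Real.sqrt (N * (δ * Real.log (2 / δ))) =
      Real.sqrt (N * δ) * Real.sqrt (Real.log (2 / δ)) := by
    rw [← mul_assoc, Real.sqrt_mul (by positivity)]
  have h3 : r ≤ 3 * Real.sqrt (Real.log (2 / δ)) := by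
    have h4 : 0 ≤ 3 * Real.sqrt (Real.log (2 / δ)) := by positivity
    have h5 : r ^ 2 ≤ (3 * Real.sqrt (Real.log (2 / δ))) ^ 2 := by
      rw [mul_pow, Real.sq_sqrt hlog]
      linarith
    exact (sq_le_sq₀ (by linarith) h4).mp h5
  rw [h2]
  have h6 : 0 ≤ 73 * Λ * Real.sqrt (N * δ) := by positivity
  calc 73 * Λ * Real.sqrt (N * δ) * r
      ≤ 73 * Λ * Real.sqrt (N * δ) * (3 * Real.sqrt (Real.log (2 / δ))) :=
        mul_le_mul_of_nonneg_left h3 h6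
    _ = 219 * Λ * (Real.sqrt (N * δ) * Real.sqrt (Real.log (2 / δ))) := by ring

theorem chain : ∃ C : ℝ, 1 ≤ C ∧ ∀ {Y : Type} [MeasurableSpace Y] (μ : Measure Y)
    [IsProbabilityMeasure μ] (n N : ℕ) (F : En n → Y → ℝ) (δ b Λ : ℝ), 1 ≤ n → 0 < δ → δ ≤ 1 →
    1 ≤ b → 1 ≤ Λ → ChainHyp μ n F δ b → C * (Λ * b * n / δ) ^ 4 ≤ N →
    (Measure.pi fun _ : Fin N => μ) {y | ∃ v : En n, ‖v‖ = 1 ∧
      C * Λ * Real.sqrt (N * (δ * Real.log (2 / δ))) < |∑ j, F v (y j)|} ≤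
      ENNReal.ofReal ((1 / 2 : ℝ) ^ (Λ ^ 2) / 16) := by
  obtain ⟨C1, hC1, hnum⟩ := chain_num
  refine ⟨C1 + 219, by linarith, ?_⟩
  intro Y _ μ _ n N F δ b Λ hn hδ hδ1 hb hΛ hF hN
  have hn' : (1 : ℝ) ≤ n := by exact_mod_cast hn
  have hM : 1 ≤ Λ * b * n / δ := by
    rw [one_le_div hδ]
    calc δ ≤ 1 := hδ1
      _ ≤ Λ * b * n := by
        have h1 : 1 ≤ Λ * b := one_le_mul_of_one_le_of_one_le hΛ hb
        exact one_le_mul_of_one_le_of_one_le h1 hn'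
  have hM4 : 1 ≤ (Λ * b * n / δ) ^ 4 := one_le_pow₀ hM
  have hNC : C1 * (Λ * b * n / δ) ^ 4 ≤ N := by
    have : 0 ≤ 219 * (Λ * b * n / δ) ^ 4 := by linarith
    linarith
  have hN1r : (1 : ℝ) ≤ N := (one_le_mul_of_one_le_of_one_le hC1 hM4).trans hNC
  have hN1 : 1 ≤ N := by exact_mod_cast hN1r
  obtain ⟨i0, i1, hi, h1, h2, h3, h4, h5⟩ := hnum n N δ b Λ hn hδ hδ1 hb hΛ hNC
  have hnet : ∀ i : ℕ, ∃ T : Finset (En n), (T.card : ℝ) ≤ (3 * 2 ^ i) ^ n ∧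
      (∀ a ∈ T, ‖a‖ = 1) ∧ ∀ v : En n, ‖v‖ = 1 → ∃ a ∈ T, ‖v - a‖ ≤ (1 / 2 : ℝ) ^ i := by
    intro i
    obtain ⟨T, hT1, hT2, hT3⟩ := vnet n hn ((1 / 2 : ℝ) ^ i) (by positivity)
      (pow_le_one₀ (by norm_num) (by norm_num))
    refine ⟨T, ?_, hT2, hT3⟩
    have h6 : (3 : ℝ) / (1 / 2 : ℝ) ^ i = 3 * 2 ^ i := by
      rw [div_pow, one_pow, div_div_eq_mul_div, div_one]
    rwa [h6] at hT1
  choose T hTc hT1 hT2 using hnet
  set t : ℕ → ℝ := fun i => 16 * Λ * Real.sqrt N * ((1 / 2 : ℝ) ^ i * Real.sqrt (i + 2)) with ht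
  set B : ℕ → Set (Fin N → Y) := fun i => {y | ∃ a ∈ T i, ∃ c ∈ T (i + 1),
      ‖a - c‖ ≤ 2 * (1 / 2 : ℝ) ^ i ∧
      16 * Λ * Real.sqrt N * ((1 / 2 : ℝ) ^ i * Real.sqrt (i + 2)) ≤
        |∑ j, F a (y j) - ∑ j, F c (y j)|} with hB
  set B0 : Set (Fin N → Y) := {y | ∃ a ∈ T i0,
      8 * Λ * Real.sqrt (N * δ) * Real.sqrt (i0 + 2) ≤ |∑ j, F a (y j)|} with hB0
  have hsub : {y : Fin N → Y | ∃ v : En n, ‖v‖ = 1 ∧
      (C1 + 219) * Λ * Real.sqrt (N * (δ * Real.log (2 / δ))) < |∑ j, F v (y j)|} ⊆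
      (⋃ i ∈ Finset.Ico i0 i1, B i) ∪ B0 := by
    rintro y ⟨v, hv, hlt⟩
    by_contra hnot
    rw [Set.mem_union, not_or] at hnot
    obtain ⟨hn1, hn2⟩ := hnot
    have hdet := chain_det T hT1 hT2 (fun v => ∑ j, F v (y j)) i0 i1 hi
      (8 * Λ * Real.sqrt (N * δ) * Real.sqrt (i0 + 2)) (N * b) t (by positivity) ?_ ?_ ?_ v hv
    · have hr1 : 1 ≤ Real.sqrt ((i0 : ℝ) + 2) := by
        rw [Real.one_le_sqrt]
        have : (0 : ℝ) ≤ (i0 : ℝ) := Nat.cast_nonneg _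
        linarith
      have hr2 : Real.sqrt ((i0 : ℝ) + 2) ^ 2 ≤ 6 * Real.log (2 / δ) := by
        rw [Real.sq_sqrt (by positivity)]
        exact h2
      have hnum2 := ch_num N δ Λ (Real.sqrt ((i0 : ℝ) + 2)) (by positivity) hδ hδ1 hΛ hr1 hr2
      have hsum : ∑ i ∈ Finset.Ico i0 i1, t i ≤
          64 * Λ * Real.sqrt (N * δ) * Real.sqrt (i0 + 2) := by
        rw [ht, ← Finset.mul_sum]
        have hs := sum_scales i0 i1
        have hs2 : (1 / 2 : ℝ) ^ i0 * Real.sqrt (i0 + 2) ≤ Real.sqrt δ * Real.sqrt (i0 + 2) :=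
          mul_le_mul_of_nonneg_right h1 (Real.sqrt_nonneg _)
        calc 16 * Λ * Real.sqrt N * ∑ i ∈ Finset.Ico i0 i1, (1 / 2 : ℝ) ^ i * Real.sqrt (i + 2)
            ≤ 16 * Λ * Real.sqrt N * (4 * (Real.sqrt δ * Real.sqrt (i0 + 2))) := by
              apply mul_le_mul_of_nonneg_left _ (by positivity)
              linarith
          _ = 64 * Λ * Real.sqrt (N * δ) * Real.sqrt (i0 + 2) := by
              rw [Real.sqrt_mul (Nat.cast_nonneg N)]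
              ring
      have hlast : Real.sqrt (N * δ) ≤ Λ * Real.sqrt (N * δ) * Real.sqrt (i0 + 2) := by
        have h6 : 1 ≤ Λ * Real.sqrt ((i0 : ℝ) + 2) := one_le_mul_of_one_le_of_one_le hΛ hr1
        calc Real.sqrt (N * δ) = Real.sqrt (N * δ) * 1 := (mul_one _).symm
          _ ≤ Real.sqrt (N * δ) * (Λ * Real.sqrt ((i0 : ℝ) + 2)) :=
              mul_le_mul_of_nonneg_left h6 (Real.sqrt_nonneg _)
          _ = _ := by ring
      have hC : 219 * Λ * Real.sqrt (N * (δ * Real.log (2 / δ))) ≤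
          (C1 + 219) * Λ * Real.sqrt (N * (δ * Real.log (2 / δ))) := by
        gcongr
        linarith
      have hdet' : |∑ j, F v (y j)| ≤ 8 * Λ * Real.sqrt (N * δ) * Real.sqrt (i0 + 2) +
        ∑ i ∈ Finset.Ico i0 i1, t i + N * b * (1 / 2 : ℝ) ^ i1 := hdet
      linarith
    · intro a ha
      by_contra hgt
      push Not at hgt
      exact hn2 ⟨a, ha, hgt.le⟩
    · intro i hi1 hi2 a ha c hc hac
      by_contra hgt
      push Not at hgt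
      apply hn1
      rw [Set.mem_iUnion₂]
      exact ⟨i, Finset.mem_Ico.mpr ⟨hi1, hi2⟩, a, ha, c, hc, hac, hgt.le⟩
    · intro v w hv hw
      show |∑ j, F v (y j) - ∑ j, F w (y j)| ≤ N * b * ‖v - w‖
      rw [← Finset.sum_sub_distrib]
      refine (Finset.abs_sum_le_sum_abs _ _).trans ?_
      calc ∑ j : Fin N, |F v (y j) - F w (y j)| ≤ ∑ _j : Fin N, b * ‖v - w‖ :=
            Finset.sum_le_sum (fun j _ => hF.lip v w (y j) hv hw)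
        _ = N * b * ‖v - w‖ := by
            rw [Finset.sum_const, Finset.card_univ, Fintype.card_fin, nsmul_eq_mul]
            ring
  have hBi : ∀ i ∈ Finset.Ico i0 i1, (Measure.pi fun _ : Fin N => μ) (B i) ≤
      ENNReal.ofReal ((1 / 2 : ℝ) ^ (Λ ^ 2) * (1 / 2 : ℝ) ^ i / 64) := by
    intro i hi'
    rw [Finset.mem_Ico] at hi'
    exact level_bad μ hn hN1 hb hF Λ hΛ i (T i) (T (i + 1)) (hT1 i) (hT1 (i + 1)) (hTc i)
      (hTc (i + 1)) (h3 i hi'.1 hi'.2)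
  have hB0' : (Measure.pi fun _ : Fin N => μ) B0 ≤
      ENNReal.ofReal ((1 / 2 : ℝ) ^ (Λ ^ 2) / 32) :=
    top_bad μ hn hN1 hδ hb hF Λ hΛ i0 (T i0) (hT1 i0) (hTc i0) h4
  have hL : (0 : ℝ) ≤ (1 / 2 : ℝ) ^ (Λ ^ 2) := Real.rpow_nonneg (by norm_num) _
  calc (Measure.pi fun _ : Fin N => μ) {y : Fin N → Y | ∃ v : En n, ‖v‖ = 1 ∧
      (C1 + 219) * Λ * Real.sqrt (N * (δ * Real.log (2 / δ))) < |∑ j, F v (y j)|}
      ≤ (Measure.pi fun _ : Fin N => μ) ((⋃ i ∈ Finset.Ico i0 i1, B i) ∪ B0) :=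
        measure_mono hsub
    _ ≤ (Measure.pi fun _ : Fin N => μ) (⋃ i ∈ Finset.Ico i0 i1, B i) +
        (Measure.pi fun _ : Fin N => μ) B0 := measure_union_le _ _
    _ ≤ ∑ i ∈ Finset.Ico i0 i1, ENNReal.ofReal ((1 / 2 : ℝ) ^ (Λ ^ 2) * (1 / 2 : ℝ) ^ i / 64) +
        ENNReal.ofReal ((1 / 2 : ℝ) ^ (Λ ^ 2) / 32) :=
        add_le_add ((measure_biUnion_finset_le _ _).trans (Finset.sum_le_sum hBi)) hB0'
    _ = ENNReal.ofReal (∑ i ∈ Finset.Ico i0 i1,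
          ((1 / 2 : ℝ) ^ (Λ ^ 2) * (1 / 2 : ℝ) ^ i / 64) + (1 / 2 : ℝ) ^ (Λ ^ 2) / 32) := by
        rw [ENNReal.ofReal_add (Finset.sum_nonneg (fun i _ => by positivity)) (by positivity),
          ENNReal.ofReal_sum_of_nonneg (fun i _ => by positivity)]
    _ ≤ ENNReal.ofReal ((1 / 2 : ℝ) ^ (Λ ^ 2) / 16) := by
        apply ENNReal.ofReal_le_ofReal
        have h6 : ∑ i ∈ Finset.Ico i0 i1, ((1 / 2 : ℝ) ^ (Λ ^ 2) * (1 / 2 : ℝ) ^ i / 64) =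
            (1 / 2 : ℝ) ^ (Λ ^ 2) / 64 * ∑ i ∈ Finset.Ico i0 i1, (1 / 2 : ℝ) ^ i := by
          rw [Finset.mul_sum]
          apply Finset.sum_congr rfl
          intro i _
          ring
        rw [h6]
        have h7 := ch_geom i0 i1
        have h8 : (1 / 2 : ℝ) ^ (Λ ^ 2) / 64 * ∑ i ∈ Finset.Ico i0 i1, (1 / 2 : ℝ) ^ i ≤
            (1 / 2 : ℝ) ^ (Λ ^ 2) / 64 * 2 := mul_le_mul_of_nonneg_left h7 (by positivity)
        linarith

end Pool.Agent.Helper47.UB
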