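import Pool.Agent.Helper47.UB.Defs

/-!
# Deterministic chaining, and a numerical sum

`chain_det`: for unit `v` choose `π_i ∈ T i` with `‖v - π_i‖ ≤ 2^{-i}`; `‖π_i - π_{i+1}‖ ≤ 2·2^{-i}`. Telescope
from `i0` to `i1`.
`sum_scales`: `√(i0+k+2) ≤ √(i0+2) √(k+1)` and `∑_k 2^{-k} √(k+1) ≤ ∑_k 2^{-k} (k+1) ≤ 4`.
-/

open MeasureTheory Metric
open scoped RealInnerProductSpace ENNReal

namespace Pool.Agent.Helper47.UB

theorem chain_det {n : ℕ} (T : ℕ → Finset (En n)) (hT1 : ∀ i, ∀ a ∈ T i, ‖a‖ = 1)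
    (hT2 : ∀ i, ∀ v : En n, ‖v‖ = 1 → ∃ a ∈ T i, ‖v - a‖ ≤ (1 / 2 : ℝ) ^ i)
    (S : En n → ℝ) (i0 i1 : ℕ) (hi : i0 ≤ i1) (t0 L : ℝ) (t : ℕ → ℝ) (hL : 0 ≤ L)
    (h0 : ∀ a ∈ T i0, |S a| ≤ t0)
    (h1 : ∀ i, i0 ≤ i → i < i1 → ∀ a ∈ T i, ∀ c ∈ T (i + 1), ‖a - c‖ ≤ 2 * (1 / 2 : ℝ) ^ i →
      |S a - S c| ≤ t i)
    (h2 : ∀ v w : En n, ‖v‖ = 1 → ‖w‖ = 1 → |S v - S w| ≤ L * ‖v - w‖) (v : En n) (hv : ‖v‖ = 1) :
    |S v| ≤ t0 + ∑ i ∈ Finset.Ico i0 i1, t i + L * (1 / 2 : ℝ) ^ i1 := by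
  choose p hp1 hp2 using fun i => hT2 i v hv
  have key : ∀ j, i0 ≤ j → j ≤ i1 → |S (p j)| ≤ t0 + ∑ i ∈ Finset.Ico i0 j, t i := by
    intro j hj
    induction j, hj using Nat.le_induction with
    | base =>
      intro _
      simpa using h0 _ (hp1 i0)
    | succ j hj ih =>
      intro hj1
      have e1 := ih (by omega)
      rw [Finset.sum_Ico_succ_top hj]
      have e2 : ‖p j - p (j + 1)‖ ≤ 2 * (1 / 2 : ℝ) ^ j := by
        have e3 : p j - p (j + 1) = (v - p (j + 1)) - (v - p j) := by abel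
        rw [e3]
        have e4 := norm_sub_le (v - p (j + 1)) (v - p j)
        have e5 := hp2 j
        have e6 := hp2 (j + 1)
        have e7 : (1 / 2 : ℝ) ^ (j + 1) ≤ (1 / 2 : ℝ) ^ j := by
          rw [pow_succ]
          have : (0 : ℝ) < (1 / 2 : ℝ) ^ j := by positivity
          linarith
        linarith
      have e8 := h1 j hj (by omega) (p j) (hp1 j) (p (j + 1)) (hp1 (j + 1)) e2
      have e9 : |S (p (j + 1))| ≤ |S (p j)| + |S (p j) - S (p (j + 1))| := by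
        have e10 : S (p (j + 1)) = S (p j) - (S (p j) - S (p (j + 1))) := by ring
        calc |S (p (j + 1))| = |S (p j) - (S (p j) - S (p (j + 1)))| := by rw [← e10]
          _ ≤ _ := abs_sub _ _
      linarith
  have f1 := key i1 hi le_rfl
  have f2 := h2 v (p i1) hv (hT1 i1 _ (hp1 i1))
  have f3 : L * ‖v - p i1‖ ≤ L * (1 / 2 : ℝ) ^ i1 := mul_le_mul_of_nonneg_left (hp2 i1) hL
  have f4 : |S v| ≤ |S (p i1)| + |S v - S (p i1)| := by
    have f5 : S v = S (p i1) + (S v - S (p i1)) := by ring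
    calc |S v| = |S (p i1) + (S v - S (p i1))| := by rw [← f5]
      _ ≤ _ := abs_add_le _ _
  linarith

theorem sum_scales (i0 i1 : ℕ) :
    ∑ i ∈ Finset.Ico i0 i1, (1 / 2 : ℝ) ^ i * Real.sqrt (i + 2) ≤
      4 * ((1 / 2 : ℝ) ^ i0 * Real.sqrt (i0 + 2)) := by
  have hstep : ∀ i : ℕ, (1 / 2 : ℝ) ^ i * Real.sqrt (i + 2) ≤
      4 * ((1 / 2 : ℝ) ^ i * Real.sqrt (i + 2)) -
        4 * ((1 / 2 : ℝ) ^ (i + 1) * Real.sqrt ((i + 1 : ℕ) + 2)) := by
    intro i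
    have e1 : 2 * Real.sqrt ((i + 1 : ℕ) + 2) ≤ 3 * Real.sqrt (i + 2) := by
      have e2 : 2 * Real.sqrt ((i + 1 : ℕ) + 2) = Real.sqrt (4 * ((i + 1 : ℕ) + 2)) := by
        rw [Real.sqrt_mul (by norm_num)]
        have e3 : Real.sqrt 4 = 2 := by
          rw [show (4 : ℝ) = 2 ^ 2 by norm_num]
          exact Real.sqrt_sq (by norm_num)
        rw [e3]
      have e4 : 3 * Real.sqrt (i + 2) = Real.sqrt (9 * (i + 2)) := by
        rw [Real.sqrt_mul (by norm_num)]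
        have e5 : Real.sqrt 9 = 3 := by
          rw [show (9 : ℝ) = 3 ^ 2 by norm_num]
          exact Real.sqrt_sq (by norm_num)
        rw [e5]
      rw [e2, e4]
      apply Real.sqrt_le_sqrt
      have e6 : (0 : ℝ) ≤ (i : ℝ) := Nat.cast_nonneg i
      push_cast
      linarith
    have e7 : (0 : ℝ) < (1 / 2 : ℝ) ^ i := by positivity
    rw [pow_succ]
    have e8 := mul_le_mul_of_nonneg_left e1 e7.le
    nlinarith
  have hsum : ∀ j, i0 ≤ j → ∑ i ∈ Finset.Ico i0 j, (1 / 2 : ℝ) ^ i * Real.sqrt (i + 2) ≤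
      4 * ((1 / 2 : ℝ) ^ i0 * Real.sqrt (i0 + 2)) - 4 * ((1 / 2 : ℝ) ^ j * Real.sqrt (j + 2)) := by
    intro j hj
    induction j, hj using Nat.le_induction with
    | base => simp
    | succ j hj ih =>
      rw [Finset.sum_Ico_succ_top hj]
      have e1 := hstep j
      linarith
  rcases Nat.lt_or_ge i1 i0 with h | h
  · rw [Finset.Ico_eq_empty (by omega), Finset.sum_empty]
    positivity
  · have e1 := hsum i1 h
    have e2 : (0 : ℝ) ≤ (1 / 2 : ℝ) ^ i1 * Real.sqrt (i1 + 2) := by positivity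
    linarith

end Pool.Agent.Helper47.UB
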