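import Pool.Agent.Helper47.UB.Defs

/-!
# Polynomial approximation of `|x|` on `[-1,1]`

`T = 2/π + (4/π) ∑_{k=1}^m (-1)^{k+1} T_{2k}/(4k²-1)` with the Chebyshev polynomials `T_{2k}`
(`Polynomial.Chebyshev.T ℝ (2k)`), the truncated Fourier series of `|cos θ|`. Put
`R = |cos θ| - T(cos θ)` on `[0,π]`. By orthogonality of `cos (2kθ)` on `[0,π]`
(`∫ |cos θ| cos(2kθ) = 2(-1)^{k+1}/(4k²-1)`)
`∫_0^π R² dθ = π/2 - 4/π - (8/π) ∑_{k=1}^m 1/(4k²-1)²`. And
`1/(4k²-1)² = (1/4)(1/(2k-1)² + 1/(2k+1)² - 2/(4k²-1))`, so `∑_{k≥1} 1/(4k²-1)² = (π²-8)/16`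
(odd squares sum to `π²/8`, telescoping), i.e. `π/2 - 4/π = (8/π) ∑_{k≥1}`; (alternatively Parseval
for Fourier series). So `∫ R² = (8/π) ∑_{k>m} 1/(4k²-1)² ≤ C/m³`. Finally
`∫_{-1}^1 (|x| - T x)² dx = ∫_0^π R² sin θ dθ ≤ ∫_0^π R²`.
Growth: for `|x| ≥ 1`: `T_{2k}(x) = T_k(2x²-1)` and `0 ≤ T_j(y) ≤ T_{j+1}(y) ≤ 2 y T_j(y)` for
`y ≥ 1`.
-/

open MeasureTheory

namespace Pool.Agent.Helper47.UB

open Real intervalIntegral

/-! ### The sum of odd squares -/

private lemma odd_hasSum : HasSum (fun k : ℕ => 1 / ((2 * (k : ℝ) + 1)) ^ 2) (π ^ 2 / 8) := by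
  have h := hasSum_zeta_two
  have hs : Summable (fun n : ℕ => 1 / ((n : ℝ)) ^ 2) := h.summable
  have he : HasSum (fun k : ℕ => 1 / (((2 * k : ℕ) : ℝ)) ^ 2) (π ^ 2 / 24) := by
    have h2 := h.mul_left (1 / 4)
    have e1 : (fun k : ℕ => 1 / (((2 * k : ℕ) : ℝ)) ^ 2)
        = fun i : ℕ => 1 / 4 * (1 / (i : ℝ) ^ 2) := by
      funext k
      rw [Nat.cast_mul, Nat.cast_ofNat, mul_pow, one_div_mul_one_div]
      norm_num
    have e2 : π ^ 2 / 24 = 1 / 4 * (π ^ 2 / 6) := by ring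
    rw [e1, e2]
    exact h2
  have hinj : Function.Injective (fun k : ℕ => 2 * k + 1) := by
    intro a b hab
    simp only at hab
    omega
  have hos := hs.comp_injective hinj
  obtain ⟨o, ho⟩ := hos
  have ho' : HasSum (fun k : ℕ => 1 / (((2 * k + 1 : ℕ) : ℝ)) ^ 2) o := ho
  have hsum := HasSum.even_add_odd (f := fun n : ℕ => 1 / ((n : ℝ)) ^ 2) he ho'
  have hu := hsum.unique h
  have ho2 : o = π ^ 2 / 8 := by linarith
  rw [ho2] at ho'
  have e3 : (fun k : ℕ => 1 / ((2 * (k : ℝ) + 1)) ^ 2)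
      = fun k : ℕ => 1 / (((2 * k + 1 : ℕ) : ℝ)) ^ 2 := by
    funext k
    rw [Nat.cast_add, Nat.cast_mul, Nat.cast_ofNat, Nat.cast_one]
  rw [e3]
  exact ho'

private lemma odd_tail (m : ℕ) (hm : 1 ≤ m) :
    π ^ 2 / 8 ≤ ∑ k ∈ Finset.range m, 1 / ((2 * (k : ℝ) + 1)) ^ 2 + 1 / (4 * (m : ℝ)) := by
  have hstep : ∀ n : ℕ, m ≤ n →
      ∑ k ∈ Finset.range n, 1 / ((2 * (k : ℝ) + 1)) ^ 2 + 1 / (4 * (n : ℝ)) ≤
      ∑ k ∈ Finset.range m, 1 / ((2 * (k : ℝ) + 1)) ^ 2 + 1 / (4 * (m : ℝ)) := by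
    intro n hn
    induction n, hn using Nat.le_induction with
    | base => exact le_rfl
    | succ n hn ih =>
      rw [Finset.sum_range_succ]
      have hn0 : (1 : ℝ) ≤ (n : ℝ) := by exact_mod_cast le_trans hm hn
      have hkey : 1 / (2 * (n : ℝ) + 1) ^ 2 + 1 / (4 * ((n + 1 : ℕ) : ℝ)) ≤ 1 / (4 * (n : ℝ)) := by
        push_cast
        have hp1 : (0 : ℝ) < 4 * (n : ℝ) := by linarith
        have hp2 : (0 : ℝ) < 4 * ((n : ℝ) + 1) := by linarith
        have h1 : 1 / (2 * (n : ℝ) + 1) ^ 2 ≤ 1 / (4 * (n : ℝ) * ((n : ℝ) + 1)) := by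
          apply one_div_le_one_div_of_le
          · positivity
          · nlinarith
        have h2 : 1 / (4 * (n : ℝ)) - 1 / (4 * ((n : ℝ) + 1))
            = 1 / (4 * (n : ℝ) * ((n : ℝ) + 1)) := by
          field_simp
          ring
        linarith
      linarith
  have hlim := odd_hasSum.tendsto_sum_nat
  refine le_of_tendsto hlim ?_
  filter_upwards [Filter.eventually_ge_atTop m] with n hn
  have h1 := hstep n hn
  have h2 : (0 : ℝ) ≤ 1 / (4 * (n : ℝ)) := by positivity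
  linarith

/-- `∑_{k=1}^m 1/(4k²-1)²` in closed form with the odd squares. -/
private lemma sum_closed (m : ℕ) :
    ∑ k ∈ Finset.range m, 1 / (4 * ((k : ℝ) + 1) ^ 2 - 1) ^ 2 =
      1 / 4 * (2 * ∑ k ∈ Finset.range m, 1 / ((2 * (k : ℝ) + 1)) ^ 2 - 2
        + 1 / (2 * (m : ℝ) + 1) ^ 2 + 1 / (2 * (m : ℝ) + 1)) := by
  induction m with
  | zero => norm_num
  | succ m ih =>
    rw [Finset.sum_range_succ, Finset.sum_range_succ, ih]
    push_cast
    have h1 : (2 * (m : ℝ) + 1) ≠ 0 := by positivity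
    have h2 : (2 * ((m : ℝ) + 1) + 1) ≠ 0 := by positivity
    have h3 : (4 * ((m : ℝ) + 1) ^ 2 - 1) = (2 * (m : ℝ) + 1) * (2 * ((m : ℝ) + 1) + 1) := by ring
    rw [h3]
    field_simp
    ring

private lemma tail_bound (m : ℕ) (hm : 1 ≤ m) :
    π / 2 - 4 / π - 8 / π * ∑ k ∈ Finset.range m, 1 / (4 * ((k : ℝ) + 1) ^ 2 - 1) ^ 2
      ≤ 1 / (m : ℝ) ^ 3 := by
  have hm0 : (1 : ℝ) ≤ (m : ℝ) := by exact_mod_cast hm
  have ht := odd_tail m hm
  rw [sum_closed]
  set O := ∑ k ∈ Finset.range m, 1 / ((2 * (k : ℝ) + 1)) ^ 2 with hO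
  have hpi : (3 : ℝ) < π := Real.pi_gt_three
  have hpi0 : (0 : ℝ) < π := Real.pi_pos
  have hA : π / 2 - 4 / π = 8 / π * ((π ^ 2 / 8 - 1) / 2) := by
    field_simp
    ring
  rw [hA, ← mul_sub]
  have hB : (π ^ 2 / 8 - 1) / 2 - 1 / 4 * (2 * O - 2
        + 1 / (2 * (m : ℝ) + 1) ^ 2 + 1 / (2 * (m : ℝ) + 1)) ≤ 1 / (8 * (m : ℝ) ^ 3) := by
    have h1 : (π ^ 2 / 8 - 1) / 2 - 1 / 4 * (2 * O - 2
        + 1 / (2 * (m : ℝ) + 1) ^ 2 + 1 / (2 * (m : ℝ) + 1)) ≤
        1 / 4 * (2 * (1 / (4 * (m : ℝ))) - 1 / (2 * (m : ℝ) + 1) ^ 2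
          - 1 / (2 * (m : ℝ) + 1)) := by
      linarith
    have h2 : 1 / 4 * (2 * (1 / (4 * (m : ℝ))) - 1 / (2 * (m : ℝ) + 1) ^ 2
          - 1 / (2 * (m : ℝ) + 1)) = 1 / (8 * (m : ℝ) * (2 * (m : ℝ) + 1) ^ 2) := by
      have h3 : (m : ℝ) ≠ 0 := by positivity
      have h4 : (2 * (m : ℝ) + 1) ≠ 0 := by positivity
      field_simp
      ring
    have h5 : 1 / (8 * (m : ℝ) * (2 * (m : ℝ) + 1) ^ 2) ≤ 1 / (8 * (m : ℝ) ^ 3) := by
      apply one_div_le_one_div_of_le
      · positivity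
      · have : (m : ℝ) ^ 2 ≤ (2 * (m : ℝ) + 1) ^ 2 := by nlinarith
        calc 8 * (m : ℝ) ^ 3 = 8 * (m : ℝ) * (m : ℝ) ^ 2 := by ring
          _ ≤ 8 * (m : ℝ) * (2 * (m : ℝ) + 1) ^ 2 := by
            apply mul_le_mul_of_nonneg_left this
            positivity
    linarith
  have hC : 8 / π * ((π ^ 2 / 8 - 1) / 2 - 1 / 4 * (2 * O - 2
        + 1 / (2 * (m : ℝ) + 1) ^ 2 + 1 / (2 * (m : ℝ) + 1)))
      ≤ 8 / π * (1 / (8 * (m : ℝ) ^ 3)) := by
    apply mul_le_mul_of_nonneg_left hB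
    positivity
  refine le_trans hC ?_
  have hD : 8 / π * (1 / (8 * (m : ℝ) ^ 3)) = 1 / (π * (m : ℝ) ^ 3) := by
    field_simp
  rw [hD]
  apply one_div_le_one_div_of_le
  · positivity
  · have : (0 : ℝ) < (m : ℝ) ^ 3 := by positivity
    nlinarith

/-! ### Fourier integrals -/

private lemma int_cos_mul (a : ℝ) (ha : a ≠ 0) (x y : ℝ) :
    ∫ t in x..y, cos (a * t) = (sin (a * y) - sin (a * x)) / a := by
  have hd : ∀ t ∈ Set.uIcc x y, HasDerivAt (fun s => sin (a * s) / a) (cos (a * t)) t := by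
    intro t _
    have h1 : HasDerivAt (fun s : ℝ => a * s) a t := by
      simpa using (hasDerivAt_id t).const_mul a
    have h2 := (h1.sin).div_const a
    have h3 : cos (a * t) * a / a = cos (a * t) := by field_simp
    rw [h3] at h2
    exact h2
  rw [intervalIntegral.integral_eq_sub_of_hasDerivAt hd]
  · ring
  · exact (Continuous.intervalIntegrable (by fun_prop) _ _)

private lemma int_cos_nat (n : ℕ) (hn : n ≠ 0) :
    ∫ t in (0 : ℝ)..π, cos ((n : ℝ) * t) = 0 := by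
  rw [int_cos_mul (n : ℝ) (by exact_mod_cast hn)]
  simp [Real.sin_nat_mul_pi]

private lemma int_cos_cos (j k : ℕ) (hj : 1 ≤ j) (hjk : j < k) :
    ∫ t in (0 : ℝ)..π, cos (2 * (j : ℝ) * t) * cos (2 * (k : ℝ) * t) = 0 := by
  obtain ⟨d, rfl⟩ : ∃ d, k = j + d := ⟨k - j, by omega⟩
  have hd : d ≠ 0 := by omega
  have e : ∀ t : ℝ, cos (2 * (j : ℝ) * t) * cos (2 * ((j + d : ℕ) : ℝ) * t) =
      1 / 2 * (cos (((4 * j + 2 * d : ℕ) : ℝ) * t) + cos (((2 * d : ℕ) : ℝ) * t)) := by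
    intro t
    push_cast
    have h1 : (4 * (j : ℝ) + 2 * (d : ℝ)) * t
        = 2 * ((j : ℝ) + (d : ℝ)) * t + 2 * (j : ℝ) * t := by ring
    have h2 : (2 * (d : ℝ)) * t = 2 * ((j : ℝ) + (d : ℝ)) * t - 2 * (j : ℝ) * t := by ring
    rw [h1, h2, cos_add, cos_sub]
    ring
  simp_rw [e]
  rw [intervalIntegral.integral_const_mul, intervalIntegral.integral_add]
  · rw [int_cos_nat _ (by omega), int_cos_nat _ (by omega)]
    ring
  · exact (Continuous.intervalIntegrable (by fun_prop) _ _)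
  · exact (Continuous.intervalIntegrable (by fun_prop) _ _)

private lemma int_cos_sq_nat (k : ℕ) (hk : 1 ≤ k) :
    ∫ t in (0 : ℝ)..π, cos ((k : ℝ) * t) * cos ((k : ℝ) * t) = π / 2 := by
  have e : ∀ t : ℝ, cos ((k : ℝ) * t) * cos ((k : ℝ) * t) =
      1 / 2 * (cos (((2 * k : ℕ) : ℝ) * t) + 1) := by
    intro t
    push_cast
    have h1 : (2 * (k : ℝ)) * t = 2 * ((k : ℝ) * t) := by ring
    rw [h1, cos_two_mul]
    ring
  simp_rw [e]
  rw [intervalIntegral.integral_const_mul, intervalIntegral.integral_add]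
  · rw [int_cos_nat _ (by omega)]
    simp
    ring
  · exact (Continuous.intervalIntegrable (by fun_prop) _ _)
  · exact (Continuous.intervalIntegrable (by fun_prop) _ _)

private lemma int_half (k : ℕ) :
    ∫ t in (0 : ℝ)..(π / 2), cos t * cos (2 * ((k : ℝ) + 1) * t)
      = (-1) ^ k / (4 * ((k : ℝ) + 1) ^ 2 - 1) := by
  have e : ∀ t : ℝ, cos t * cos (2 * ((k : ℝ) + 1) * t) =
      1 / 2 * (cos ((2 * (k : ℝ) + 3) * t) + cos ((2 * (k : ℝ) + 1) * t)) := by
    intro t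
    have h1 : (2 * (k : ℝ) + 3) * t = 2 * ((k : ℝ) + 1) * t + t := by ring
    have h2 : (2 * (k : ℝ) + 1) * t = 2 * ((k : ℝ) + 1) * t - t := by ring
    rw [h1, h2, cos_add, cos_sub]
    ring
  simp_rw [e]
  rw [intervalIntegral.integral_const_mul, intervalIntegral.integral_add]
  · rw [int_cos_mul _ (by positivity), int_cos_mul _ (by positivity)]
    have s1 : sin ((2 * (k : ℝ) + 3) * (π / 2)) = -(-1) ^ k := by
      have : (2 * (k : ℝ) + 3) * (π / 2) = π / 2 + ((k + 1 : ℕ) : ℝ) * π := by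
        push_cast
        ring
      rw [this, Real.sin_add_nat_mul_pi]
      simp [pow_succ]
    have s2 : sin ((2 * (k : ℝ) + 1) * (π / 2)) = (-1) ^ k := by
      have : (2 * (k : ℝ) + 1) * (π / 2) = π / 2 + (k : ℝ) * π := by ring
      rw [this, Real.sin_add_nat_mul_pi]
      simp
    rw [s1, s2]
    have h3 : (4 * ((k : ℝ) + 1) ^ 2 - 1) = (2 * (k : ℝ) + 1) * (2 * (k : ℝ) + 3) := by ring
    rw [h3]
    simp only [mul_zero, sin_zero, sub_zero]
    have h4 : (2 * (k : ℝ) + 1) ≠ 0 := by positivity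
    have h5 : (2 * (k : ℝ) + 3) ≠ 0 := by positivity
    field_simp
    ring
  · exact (Continuous.intervalIntegrable (by fun_prop) _ _)
  · exact (Continuous.intervalIntegrable (by fun_prop) _ _)

private lemma int_half' (k : ℕ) :
    ∫ t in (π / 2)..π, -cos t * cos (2 * ((k : ℝ) + 1) * t)
      = (-1) ^ k / (4 * ((k : ℝ) + 1) ^ 2 - 1) := by
  have h := intervalIntegral.integral_comp_sub_left
    (a := 0) (b := π / 2) (fun t => -cos t * cos (2 * ((k : ℝ) + 1) * t)) π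
  have h1 : π - π / 2 = π / 2 := by ring
  rw [h1, sub_zero] at h
  rw [← h, ← int_half k]
  apply intervalIntegral.integral_congr
  intro t _
  simp only
  have h2 : cos (π - t) = -cos t := Real.cos_pi_sub t
  have h3 : cos (2 * ((k : ℝ) + 1) * (π - t)) = cos (2 * ((k : ℝ) + 1) * t) := by
    have : 2 * ((k : ℝ) + 1) * (π - t) = ((k + 1 : ℕ) : ℝ) * (2 * π) - 2 * ((k : ℝ) + 1) * t := by
      push_cast
      ring
    rw [this, Real.cos_nat_mul_two_pi_sub]
  rw [h2, h3]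
  ring

private lemma int_abs_cos (k : ℕ) :
    ∫ t in (0 : ℝ)..π, |cos t| * cos (2 * ((k : ℝ) + 1) * t)
      = 2 * (-1) ^ k / (4 * ((k : ℝ) + 1) ^ 2 - 1) := by
  have hpi : (0 : ℝ) < π := Real.pi_pos
  rw [← intervalIntegral.integral_add_adjacent_intervals (b := π / 2)]
  · have h1 : ∫ t in (0 : ℝ)..(π / 2), |cos t| * cos (2 * ((k : ℝ) + 1) * t)
        = ∫ t in (0 : ℝ)..(π / 2), cos t * cos (2 * ((k : ℝ) + 1) * t) := by
      apply intervalIntegral.integral_congr
      intro t ht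
      rw [Set.uIcc_of_le (by linarith)] at ht
      simp only
      rw [abs_of_nonneg]
      exact Real.cos_nonneg_of_neg_pi_div_two_le_of_le (by linarith [ht.1]) ht.2
    have h2 : ∫ t in (π / 2)..π, |cos t| * cos (2 * ((k : ℝ) + 1) * t)
        = ∫ t in (π / 2)..π, -cos t * cos (2 * ((k : ℝ) + 1) * t) := by
      apply intervalIntegral.integral_congr
      intro t ht
      rw [Set.uIcc_of_le (by linarith)] at ht
      simp only
      rw [abs_of_nonpos]
      exact Real.cos_nonpos_of_pi_div_two_le_of_le ht.1 (by linarith [ht.2])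
    rw [h1, h2, int_half, int_half']
    ring
  · exact (Continuous.intervalIntegrable (by fun_prop) _ _)
  · exact (Continuous.intervalIntegrable (by fun_prop) _ _)

private lemma int_abs_cos_one :
    ∫ t in (0 : ℝ)..π, |cos t| = 2 := by
  have hpi : (0 : ℝ) < π := Real.pi_pos
  rw [← intervalIntegral.integral_add_adjacent_intervals (b := π / 2)]
  · have h1 : ∫ t in (0 : ℝ)..(π / 2), |cos t| = ∫ t in (0 : ℝ)..(π / 2), cos t := by
      apply intervalIntegral.integral_congr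
      intro t ht
      rw [Set.uIcc_of_le (by linarith)] at ht
      simp only
      rw [abs_of_nonneg]
      exact Real.cos_nonneg_of_neg_pi_div_two_le_of_le (by linarith [ht.1]) ht.2
    have h2 : ∫ t in (π / 2)..π, |cos t| = ∫ t in (π / 2)..π, -cos t := by
      apply intervalIntegral.integral_congr
      intro t ht
      rw [Set.uIcc_of_le (by linarith)] at ht
      simp only
      rw [abs_of_nonpos]
      exact Real.cos_nonpos_of_pi_div_two_le_of_le ht.1 (by linarith [ht.2])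
    rw [h1, h2, intervalIntegral.integral_neg, integral_cos, integral_cos]
    simp
    norm_num
  · exact (Continuous.intervalIntegrable (by fun_prop) _ _)
  · exact (Continuous.intervalIntegrable (by fun_prop) _ _)

/-! ### The trigonometric polynomial -/

/-- Coefficient of `T_{2(k+1)}`. -/
private noncomputable def cf (k : ℕ) : ℝ := 4 / π * ((-1) ^ k / (4 * ((k : ℝ) + 1) ^ 2 - 1))

private noncomputable def P (m : ℕ) (t : ℝ) : ℝ :=
  2 / π + ∑ k ∈ Finset.range m, cf k * cos (2 * ((k : ℝ) + 1) * t)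

private lemma P_cont (m : ℕ) : Continuous (P m) := by
  unfold P
  fun_prop

private lemma P_orth (m n : ℕ) (h : m ≤ n) :
    ∫ t in (0 : ℝ)..π, P m t * cos (2 * ((n : ℝ) + 1) * t) = 0 := by
  induction m with
  | zero =>
    simp only [P, Finset.range_zero, Finset.sum_empty, add_zero]
    rw [intervalIntegral.integral_const_mul]
    have := int_cos_nat (2 * (n + 1)) (by omega)
    push_cast at this
    rw [this, mul_zero]
  | succ m ih =>
    have e : ∀ t : ℝ, P (m + 1) t * cos (2 * ((n : ℝ) + 1) * t) =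
        P m t * cos (2 * ((n : ℝ) + 1) * t)
          + cf m * (cos (2 * ((m : ℝ) + 1) * t) * cos (2 * ((n : ℝ) + 1) * t)) := by
      intro t
      simp only [P, Finset.sum_range_succ]
      ring
    simp_rw [e]
    rw [intervalIntegral.integral_add, ih (by omega), intervalIntegral.integral_const_mul]
    · have := int_cos_cos (m + 1) (n + 1) (by omega) (by omega)
      push_cast at this
      rw [this]
      ring
    · exact (Continuous.intervalIntegrable (by have := P_cont m; fun_prop) _ _)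
    · exact (Continuous.intervalIntegrable (by fun_prop) _ _)

private lemma R_sq (m : ℕ) :
    ∫ t in (0 : ℝ)..π, (|cos t| - P m t) ^ 2 =
      π / 2 - 4 / π - 8 / π * ∑ k ∈ Finset.range m, 1 / (4 * ((k : ℝ) + 1) ^ 2 - 1) ^ 2 := by
  have hpi : (0 : ℝ) < π := Real.pi_pos
  induction m with
  | zero =>
    simp only [P, Finset.range_zero, Finset.sum_empty, add_zero, mul_zero, sub_zero]
    have e : ∀ t : ℝ, (|cos t| - 2 / π) ^ 2 =
        (cos t * cos t - 4 / π * |cos t|) + 4 / π ^ 2 := by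
      intro t
      have : |cos t| * |cos t| = cos t * cos t := abs_mul_abs_self _
      have h2 : (|cos t| - 2 / π) ^ 2 = |cos t| * |cos t| - 4 / π * |cos t| + 4 / π ^ 2 := by
        field_simp
        ring
      rw [h2, this]
    simp_rw [e]
    rw [intervalIntegral.integral_add, intervalIntegral.integral_sub,
      intervalIntegral.integral_const_mul, int_abs_cos_one]
    · have h1 := int_cos_sq_nat 1 le_rfl
      simp only [Nat.cast_one, one_mul] at h1
      rw [h1]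
      simp
      field_simp
      ring
    · exact (Continuous.intervalIntegrable (by fun_prop) _ _)
    · exact (Continuous.intervalIntegrable (by fun_prop) _ _)
    · exact (Continuous.intervalIntegrable (by fun_prop) _ _)
    · exact (Continuous.intervalIntegrable (by fun_prop) _ _)
  | succ m ih =>
    have hPm := P_cont m
    have e : ∀ t : ℝ, (|cos t| - P (m + 1) t) ^ 2 =
        ((|cos t| - P m t) ^ 2 - 2 * cf m * (|cos t| * cos (2 * ((m : ℝ) + 1) * t)
          - P m t * cos (2 * ((m : ℝ) + 1) * t)))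
        + cf m ^ 2 * (cos (2 * ((m : ℝ) + 1) * t) * cos (2 * ((m : ℝ) + 1) * t)) := by
      intro t
      have : P (m + 1) t = P m t + cf m * cos (2 * ((m : ℝ) + 1) * t) := by
        simp only [P, Finset.sum_range_succ]
        ring
      rw [this]
      ring
    simp_rw [e]
    rw [intervalIntegral.integral_add, intervalIntegral.integral_sub,
      intervalIntegral.integral_const_mul, intervalIntegral.integral_sub,
      intervalIntegral.integral_const_mul, int_abs_cos, P_orth m m le_rfl, ih,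
      Finset.sum_range_succ]
    · have h1 := int_cos_sq_nat (2 * (m + 1)) (by omega)
      push_cast at h1
      rw [h1]
      have h3 : (4 * ((m : ℝ) + 1) ^ 2 - 1) ≠ 0 := by
        have : (4 * ((m : ℝ) + 1) ^ 2 - 1) = (2 * (m : ℝ) + 1) * (2 * (m : ℝ) + 3) := by ring
        rw [this]
        positivity
      have h4 : ((-1 : ℝ) ^ m) * ((-1 : ℝ) ^ m) = 1 := by
        rw [← pow_add, ← two_mul, pow_mul]
        simp
      have hA : 2 * cf m * (2 * (-1) ^ m / (4 * ((m : ℝ) + 1) ^ 2 - 1) - 0)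
          = 16 / π * (((-1 : ℝ) ^ m) * ((-1 : ℝ) ^ m)) * (1 / (4 * ((m : ℝ) + 1) ^ 2 - 1) ^ 2) := by
        unfold cf
        field_simp
        ring
      have hB : cf m ^ 2 * (π / 2)
          = 8 / π * (((-1 : ℝ) ^ m) * ((-1 : ℝ) ^ m)) * (1 / (4 * ((m : ℝ) + 1) ^ 2 - 1) ^ 2) := by
        unfold cf
        field_simp
        ring
      rw [hA, hB, h4]
      ring
    all_goals exact (Continuous.intervalIntegrable (by fun_prop) _ _)

/-! ### The polynomial -/

private noncomputable def TT (m : ℕ) : Polynomial ℝ :=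
  Polynomial.C (2 / π) + ∑ k ∈ Finset.range m,
    Polynomial.C (cf k) * Polynomial.Chebyshev.T ℝ (2 * ((k : ℤ) + 1))

private lemma TT_deg (m : ℕ) : (TT m).natDegree ≤ 2 * m := by
  unfold TT
  refine le_trans (Polynomial.natDegree_add_le _ _) ?_
  refine max_le ?_ ?_
  · simp
  · refine Polynomial.natDegree_sum_le_of_forall_le _ _ ?_
    intro k hk
    have hk' := Finset.mem_range.1 hk
    refine le_trans (Polynomial.natDegree_C_mul_le _ _) ?_
    rw [Polynomial.Chebyshev.natDegree_T]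
    omega

private lemma TT_cos (m : ℕ) (t : ℝ) : (TT m).eval (cos t) = P m t := by
  unfold TT P
  rw [Polynomial.eval_add, Polynomial.eval_C, Polynomial.eval_finsetSum]
  congr 1
  apply Finset.sum_congr rfl
  intro k _
  rw [Polynomial.eval_mul, Polynomial.eval_C, Polynomial.Chebyshev.T_real_cos]
  push_cast
  rfl

private lemma int_bound (m : ℕ) :
    (∫ x in (-1 : ℝ)..1, (|x| - (TT m).eval x) ^ 2) ≤
      ∫ t in (0 : ℝ)..π, (|cos t| - P m t) ^ 2 := by
  have hpi : (0 : ℝ) < π := Real.pi_pos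
  have hPm := P_cont m
  have hg : Continuous (fun x : ℝ => (|x| - (TT m).eval x) ^ 2) := by
    have := (TT m).continuous
    fun_prop
  have hsub := intervalIntegral.integral_comp_mul_deriv (a := 0) (b := π)
    (f := cos) (f' := fun x => -sin x) (g := fun x : ℝ => (|x| - (TT m).eval x) ^ 2)
    (fun x _ => Real.hasDerivAt_cos x) (by fun_prop) hg
  rw [Real.cos_zero, Real.cos_pi, intervalIntegral.integral_symm (-1) 1] at hsub
  have h1 : (∫ x in (-1 : ℝ)..1, (|x| - (TT m).eval x) ^ 2)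
      = ∫ t in (0 : ℝ)..π, (|cos t| - P m t) ^ 2 * sin t := by
    have h2 : (∫ x in (-1 : ℝ)..1, (|x| - (TT m).eval x) ^ 2)
        = -∫ x in (0 : ℝ)..π, ((fun x : ℝ => (|x| - (TT m).eval x) ^ 2) ∘ cos) x * -sin x := by
      rw [hsub]
      ring
    rw [h2, ← intervalIntegral.integral_neg]
    apply intervalIntegral.integral_congr
    intro t _
    simp only [Function.comp]
    rw [TT_cos]
    ring
  rw [h1]
  apply intervalIntegral.integral_mono_on hpi.le
  · exact (Continuous.intervalIntegrable (by fun_prop) _ _)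
  · exact (Continuous.intervalIntegrable (by fun_prop) _ _)
  · intro t _
    have h3 : sin t ≤ 1 := Real.sin_le_one t
    have h4 : 0 ≤ (|cos t| - P m t) ^ 2 := sq_nonneg _
    nlinarith

/-! ### Growth -/

private lemma T_growth (y : ℝ) (hy : 1 ≤ y) (n : ℕ) :
    0 ≤ (Polynomial.Chebyshev.T ℝ (n : ℤ)).eval y ∧
    (Polynomial.Chebyshev.T ℝ (n : ℤ)).eval y ≤
      (Polynomial.Chebyshev.T ℝ ((n : ℤ) + 1)).eval y ∧
    (Polynomial.Chebyshev.T ℝ (n : ℤ)).eval y ≤ (2 * y) ^ n ∧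
    (Polynomial.Chebyshev.T ℝ ((n : ℤ) + 1)).eval y ≤ (2 * y) ^ (n + 1) := by
  induction n with
  | zero =>
    simp
    constructor
    · linarith
    · linarith
  | succ n ih =>
    obtain ⟨h0, h1, h2, h3⟩ := ih
    push_cast
    have hrec : (Polynomial.Chebyshev.T ℝ ((n : ℤ) + 1 + 1)).eval y
        = 2 * y * (Polynomial.Chebyshev.T ℝ ((n : ℤ) + 1)).eval y
          - (Polynomial.Chebyshev.T ℝ (n : ℤ)).eval y := by
      have : (n : ℤ) + 1 + 1 = (n : ℤ) + 2 := by ring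
      rw [this, Polynomial.Chebyshev.T_add_two]
      simp
    have hn1 : 0 ≤ (Polynomial.Chebyshev.T ℝ ((n : ℤ) + 1)).eval y := le_trans h0 h1
    refine ⟨hn1, ?_, h3, ?_⟩
    · rw [hrec]
      nlinarith
    · rw [hrec]
      have h5 : 2 * y * (Polynomial.Chebyshev.T ℝ ((n : ℤ) + 1)).eval y
          ≤ 2 * y * (2 * y) ^ (n + 1) := by
        apply mul_le_mul_of_nonneg_left h3
        linarith
      have h6 : (2 * y) ^ (n + 1 + 1) = 2 * y * (2 * y) ^ (n + 1) := by ring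
      rw [h6]
      linarith

private lemma T_even (x : ℝ) (k : ℕ) :
    (Polynomial.Chebyshev.T ℝ (2 * (k : ℤ))).eval x
      = (Polynomial.Chebyshev.T ℝ (k : ℤ)).eval (2 * x ^ 2 - 1) := by
  have h : (2 * (k : ℤ)) = (k : ℤ) * 2 := by ring
  rw [h, Polynomial.Chebyshev.T_mul, Polynomial.eval_comp, Polynomial.Chebyshev.T_two]
  simp

private lemma T_even_bound (x : ℝ) (hx : 1 ≤ |x|) (k : ℕ) :
    |(Polynomial.Chebyshev.T ℝ (2 * (k : ℤ))).eval x| ≤ (2 * |x|) ^ (2 * k) := by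
  have hx2 : 1 ≤ x ^ 2 := by
    rw [← sq_abs]
    nlinarith
  have hy : 1 ≤ 2 * x ^ 2 - 1 := by linarith
  obtain ⟨h0, -, h2, -⟩ := T_growth _ hy k
  rw [T_even, abs_of_nonneg h0]
  refine le_trans h2 ?_
  rw [pow_mul]
  apply pow_le_pow_left₀
  · linarith
  · rw [mul_pow, sq_abs]
    linarith

private lemma cf_abs (k : ℕ) :
    |cf k| = 4 / π * (1 / 2 * (1 / (2 * (k : ℝ) + 1) - 1 / (2 * ((k : ℝ) + 1) + 1))) := by
  have hpi : (0 : ℝ) < π := Real.pi_pos
  unfold cf
  have h3 : (4 * ((k : ℝ) + 1) ^ 2 - 1) = (2 * (k : ℝ) + 1) * (2 * ((k : ℝ) + 1) + 1) := by ring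
  have h4 : 0 < (2 * (k : ℝ) + 1) * (2 * ((k : ℝ) + 1) + 1) := by positivity
  rw [h3, abs_mul, abs_of_pos (by positivity : 0 < 4 / π), abs_div, abs_of_pos h4]
  simp only [abs_pow, abs_neg, abs_one, one_pow]
  field_simp
  ring

private lemma cf_sum (m : ℕ) : ∑ k ∈ Finset.range m, |cf k| ≤ 2 / π := by
  have hpi : (0 : ℝ) < π := Real.pi_pos
  simp_rw [cf_abs]
  rw [← Finset.mul_sum, ← Finset.mul_sum]
  have h := Finset.sum_range_sub' (fun k : ℕ => 1 / (2 * (k : ℝ) + 1)) m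
  push_cast at h
  rw [h]
  have h2 : (0 : ℝ) ≤ 1 / (2 * (m : ℝ) + 1) := by positivity
  have h3 : 4 / π * (1 / 2 * (1 / (2 * 0 + 1) - 1 / (2 * (m : ℝ) + 1)))
      ≤ 4 / π * (1 / 2 * 1) := by
    apply mul_le_mul_of_nonneg_left _ (by positivity)
    norm_num
    linarith
  refine le_trans h3 (le_of_eq ?_)
  ring

private lemma TT_growth (m : ℕ) (x : ℝ) (hx : 1 ≤ |x|) :
    |(TT m).eval x| ≤ 2 * (2 * |x|) ^ (2 * m) := by
  have hpi : (0 : ℝ) < π := Real.pi_pos
  have hpi3 : (3 : ℝ) < π := Real.pi_gt_three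
  unfold TT
  rw [Polynomial.eval_add, Polynomial.eval_C, Polynomial.eval_finsetSum]
  have hb : (1 : ℝ) ≤ 2 * |x| := by linarith
  have hpw : (1 : ℝ) ≤ (2 * |x|) ^ (2 * m) := one_le_pow₀ hb
  have h1 : |∑ k ∈ Finset.range m,
      (Polynomial.C (cf k) * Polynomial.Chebyshev.T ℝ (2 * ((k : ℤ) + 1))).eval x|
      ≤ ∑ k ∈ Finset.range m, |cf k| * (2 * |x|) ^ (2 * m) := by
    refine le_trans (Finset.abs_sum_le_sum_abs _ _) ?_
    apply Finset.sum_le_sum
    intro k hk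
    have hk' := Finset.mem_range.1 hk
    rw [Polynomial.eval_mul, Polynomial.eval_C, abs_mul]
    apply mul_le_mul_of_nonneg_left _ (abs_nonneg _)
    have h2 := T_even_bound x hx (k + 1)
    push_cast at h2
    refine le_trans h2 ?_
    exact pow_le_pow_right₀ hb (by omega)
  rw [← Finset.sum_mul] at h1
  have h3 := cf_sum m
  have h4 : (∑ k ∈ Finset.range m, |cf k|) * (2 * |x|) ^ (2 * m)
      ≤ 2 / π * (2 * |x|) ^ (2 * m) := by
    apply mul_le_mul_of_nonneg_right h3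
    positivity
  have h5 : 2 / π ≤ 1 := by
    rw [div_le_one hpi]
    linarith
  have h6 : |2 / π| ≤ 1 := by
    rw [abs_of_pos (by positivity)]
    exact h5
  have h7 : 2 / π * (2 * |x|) ^ (2 * m) ≤ 1 * (2 * |x|) ^ (2 * m) := by
    apply mul_le_mul_of_nonneg_right h5
    positivity
  refine le_trans (abs_add_le _ _) ?_
  linarith

theorem cheb : ∃ C : ℝ, 1 ≤ C ∧ ∀ m : ℕ, 1 ≤ m → ∃ T : Polynomial ℝ, T.natDegree ≤ 2 * m ∧
    (∫ x in (-1 : ℝ)..1, (|x| - T.eval x) ^ 2) ≤ C / (m : ℝ) ^ 3 ∧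
    ∀ x : ℝ, 1 ≤ |x| → |T.eval x| ≤ C * (2 * |x|) ^ (2 * m) := by
  refine ⟨2, by norm_num, ?_⟩
  intro m hm
  refine ⟨TT m, TT_deg m, ?_, fun x hx => TT_growth m x hx⟩
  refine le_trans (int_bound m) ?_
  rw [R_sq]
  refine le_trans (tail_bound m hm) ?_
  have hm0 : (1 : ℝ) ≤ (m : ℝ) := by exact_mod_cast hm
  have : (0 : ℝ) < (m : ℝ) ^ 3 := by positivity
  rw [div_le_div_iff_of_pos_right this]
  norm_num

end Pool.Agent.Helper47.UB
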