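import Mathlib

/-!
# Upper bound beyond `n/ε²` in the super-polynomial range: definitions

`sg n` = normalised surface measure of the unit sphere of `ℝⁿ`. `OB n D b`: `b` is an orthonormal
system of continuous functions on the sphere spanning all polynomials of degree `≤ D` (only what is
needed is recorded). `res b v` = the part of `|⟨v, ·⟩|` orthogonal to the system.
-/

open MeasureTheory Metric
open scoped RealInnerProductSpace ENNReal

namespace Pool.Agent.Helper47.UB

abbrev En (n : ℕ) := EuclideanSpace ℝ (Fin n)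

abbrev Sph (n : ℕ) := Metric.sphere (0 : En n) 1

/-- The normalised surface measure. -/
noncomputable def sg (n : ℕ) : Measure (Sph n) :=
  ((volume : Measure (En n)).toSphere Set.univ)⁻¹ • (volume : Measure (En n)).toSphere

/-- A linear isometry acting on the sphere. -/
noncomputable def rot {n : ℕ} (ρ : En n ≃ₗᵢ[ℝ] En n) (y : Sph n) : Sph n :=
  ⟨ρ y, by simp⟩

/-- Orthonormal system of continuous functions on the sphere spanning the polynomials of degree
`≤ D`. -/
structure OB (n D : ℕ) {h : ℕ} (b : Fin h → C(Sph n, ℝ)) : Prop where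
  pos : 1 ≤ h
  card : (h : ℝ) ≤ ((n : ℝ) + 1) ^ D
  orth : ∀ i j, ∫ y, b i y * b j y ∂(sg n) = if i = j then 1 else 0
  kern : ∀ y, ∑ i, b i y ^ 2 = (h : ℝ)
  ridge : ∀ (v : En n) (p : Polynomial ℝ), p.natDegree ≤ D →
    ∃ α : Fin h → ℝ, ∀ y : Sph n, p.eval ⟪v, (y : En n)⟫ = ∑ i, α i * b i y

/-- The residual of `|⟨v, ·⟩|`. -/
noncomputable def res {n h : ℕ} (b : Fin h → C(Sph n, ℝ)) (v : En n) (y : Sph n) : ℝ :=
  |⟪v, (y : En n)⟫| - ∑ i, (∫ z : Sph n, |⟪v, (z : En n)⟫| * b i z ∂(sg n)) * b i y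

end Pool.Agent.Helper47.UB
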