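import Pool.Agent.Helper47.UB.Cheb

/-!
# Polynomial approximation of `|s|` in `L²` of the Gaussian measure

`D ≤ 1`: `q = 0`, `∫ s² = 1`. `D ≥ 2`: `m = D/2 ≥ 1` (`m ≥ D/3`), `T` from `cheb`, `R = √(32 m)`,
`q(s) = R T(s/R)` (`C R * T.comp (C R⁻¹ * X)`). On `|s| ≤ R`: the Gaussian density is `≤ 1`, so the
contribution is `≤ ∫_{-R}^R (|s| - R T(s/R))² ds = R³ ∫_{-1}^1 (|x| - T x)² dx ≤ C R³/m³ ≤ C' m^{-3/2}`.
On `|s| > R`: `(|s| - q)² ≤ 2 s² + 2 C² R² (2|s|/R)^{4m} ≤ 4 C² R² (2 s/R)^{4m}`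
(as `|s| ≤ R (2|s|/R)^{2m}`), and `∫ s^{4m} dγ = (4m-1)!! ≤ (4m)^{2m}` (any proof of such a moment
bound; it may be convenient to prove `∫ s^{2k} ≤ (2k)^k` by induction or from a Mathlib moment
formula), so the contribution is `≤ 4 C² R² (16 m/R²)^{2m} = 128 C² m 4^{-m} ≤ C' m^{-3/2}`.
-/

open MeasureTheory ProbabilityTheory

namespace Pool.Agent.Helper47.UB

private lemma ga_pdf (s : ℝ) : gaussianPDFReal 0 1 s ≤ Real.exp (-s ^ 2 / 2) := by
  rw [gaussianPDFReal_def]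
  simp only [NNReal.coe_one, mul_one, sub_zero]
  have h1 : 1 ≤ √(2 * Real.pi) := by
    rw [Real.one_le_sqrt]
    nlinarith [Real.pi_gt_three]
  have h2 : (√(2 * Real.pi))⁻¹ ≤ 1 := inv_le_one_of_one_le₀ h1
  calc (√(2 * Real.pi))⁻¹ * Real.exp (-s ^ 2 / 2) ≤ 1 * Real.exp (-s ^ 2 / 2) :=
        mul_le_mul_of_nonneg_right h2 (Real.exp_pos _).le
    _ = Real.exp (-s ^ 2 / 2) := one_mul _

private lemma ga_int_exp : Integrable (fun s : ℝ => Real.exp (-(1 / 4) * s ^ 2)) :=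
  integrable_exp_neg_mul_sq (by norm_num)

private lemma ga_int_val : ∫ s : ℝ, Real.exp (-(1 / 4) * s ^ 2) ≤ 4 := by
  rw [integral_gaussian]
  rw [show (4 : ℝ) = √(16 : ℝ) by
    rw [show (16 : ℝ) = 4 ^ 2 by norm_num, Real.sqrt_sq (by norm_num)]]
  apply Real.sqrt_le_sqrt
  have := Real.pi_lt_d2
  linarith

/-- Comparison with a volume integral. -/
private lemma ga_comp (f : ℝ → ℝ) (hf : ∀ s, 0 ≤ f s) (g : ℝ → ℝ) (hg : Integrable g) (K : ℝ)
    (h : ∀ s, gaussianPDFReal 0 1 s * f s ≤ g s + K * Real.exp (-(1 / 4) * s ^ 2)) (hK : 0 ≤ K) :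
    ∫ s, f s ∂(gaussianReal 0 1) ≤ (∫ s, g s) + K * 4 := by
  rw [integral_gaussianReal_eq_integral_smul (by norm_num)]
  simp only [smul_eq_mul]
  calc ∫ s, gaussianPDFReal 0 1 s * f s
      ≤ ∫ s, (g s + K * Real.exp (-(1 / 4) * s ^ 2)) := by
        apply integral_mono_of_nonneg
        · exact Filter.Eventually.of_forall
            (fun s => mul_nonneg (gaussianPDFReal_nonneg 0 1 s) (hf s))
        · exact hg.add (ga_int_exp.const_mul K)
        · exact Filter.Eventually.of_forall h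
    _ = (∫ s, g s) + K * ∫ s : ℝ, Real.exp (-(1 / 4) * s ^ 2) := by
        rw [integral_add hg (ga_int_exp.const_mul K), integral_const_mul]
    _ ≤ (∫ s, g s) + K * 4 := by
        have := mul_le_mul_of_nonneg_left ga_int_val hK
        linarith

private lemma ga_pow (m : ℕ) (hm : 1 ≤ m) (s : ℝ) :
    (s ^ 2 / (8 * (m : ℝ))) ^ (2 * m) ≤ Real.exp (-(2 * (m : ℝ))) * Real.exp (s ^ 2 / 4) := by
  have hm' : (0 : ℝ) < m := by exact_mod_cast hm
  have h1 : s ^ 2 / (8 * (m : ℝ)) ≤ Real.exp (s ^ 2 / (8 * (m : ℝ)) - 1) := by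
    have := Real.add_one_le_exp (s ^ 2 / (8 * (m : ℝ)) - 1)
    linarith
  have h0 : 0 ≤ s ^ 2 / (8 * (m : ℝ)) := by positivity
  calc (s ^ 2 / (8 * (m : ℝ))) ^ (2 * m)
      ≤ (Real.exp (s ^ 2 / (8 * (m : ℝ)) - 1)) ^ (2 * m) := pow_le_pow_left₀ h0 h1 _
    _ = Real.exp (((2 * m : ℕ) : ℝ) * (s ^ 2 / (8 * (m : ℝ)) - 1)) := by
        rw [Real.exp_nat_mul]
    _ = Real.exp (-(2 * (m : ℝ)) + s ^ 2 / 4) := by
        congr 1
        push_cast
        field_simp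
        ring
    _ = Real.exp (-(2 * (m : ℝ))) * Real.exp (s ^ 2 / 4) := Real.exp_add _ _

private lemma ga_half (s : ℝ) : Real.exp (-s ^ 2 / 2) * Real.exp (s ^ 2 / 4) =
    Real.exp (-(1 / 4) * s ^ 2) := by
  rw [← Real.exp_add]
  congr 1
  ring

private lemma ga_m (m : ℕ) (hm : 1 ≤ m) :
    (m : ℝ) * Real.exp (-(2 * (m : ℝ))) ≤ ((m : ℝ) * √(m : ℝ))⁻¹ := by
  have hm' : (1 : ℝ) ≤ m := by exact_mod_cast hm
  have hs : √(m : ℝ) ≤ m := by
    rw [Real.sqrt_le_left (by linarith)]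
    nlinarith
  have hs0 : 0 < √(m : ℝ) := Real.sqrt_pos.mpr (by linarith)
  have he : (m : ℝ) ^ 3 ≤ Real.exp (2 * (m : ℝ)) := by
    have h := Real.pow_div_factorial_le_exp (2 * (m : ℝ)) (by linarith) 3
    have h3 : ((3 : ℕ).factorial : ℝ) = 6 := by norm_num [Nat.factorial]
    rw [h3] at h
    have h4 : 0 ≤ (m : ℝ) ^ 3 := by positivity
    calc (m : ℝ) ^ 3 ≤ (2 * (m : ℝ)) ^ 3 / 6 := by ring_nf; nlinarith
      _ ≤ _ := h
  rw [Real.exp_neg, ← div_eq_mul_inv, ← one_div, div_le_div_iff₀ (Real.exp_pos _) (by positivity)]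
  calc (m : ℝ) * ((m : ℝ) * √(m : ℝ)) ≤ (m : ℝ) * ((m : ℝ) * m) := by gcongr
    _ = (m : ℝ) ^ 3 := by ring
    _ ≤ 1 * Real.exp (2 * (m : ℝ)) := by rw [one_mul]; exact he

private lemma ga_rpow (D : ℕ) (hD : 1 ≤ D) :
    (D : ℝ) ^ (-(3 / 2) : ℝ) = ((D : ℝ) * √(D : ℝ))⁻¹ := by
  have hD' : (0 : ℝ) < D := by exact_mod_cast hD
  rw [Real.rpow_neg hD'.le, Real.sqrt_eq_rpow]
  congr 1
  rw [show (3 / 2 : ℝ) = 1 + 1 / 2 by norm_num, Real.rpow_add hD', Real.rpow_one]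

private lemma ga_md (m D : ℕ) (hm : 1 ≤ m) (hD : 1 ≤ D) (h : D ≤ 3 * m) :
    ((m : ℝ) * √(m : ℝ))⁻¹ ≤ 6 * (D : ℝ) ^ (-(3 / 2) : ℝ) := by
  rw [ga_rpow D hD]
  have hm' : (1 : ℝ) ≤ m := by exact_mod_cast hm
  have hD' : (1 : ℝ) ≤ D := by exact_mod_cast hD
  have h' : (D : ℝ) ≤ 3 * m := by exact_mod_cast h
  have hs0 : 0 < √(m : ℝ) := Real.sqrt_pos.mpr (by linarith)
  have hd0 : 0 < √(D : ℝ) := Real.sqrt_pos.mpr (by linarith)
  have h2 : √(D : ℝ) ≤ 2 * √(m : ℝ) := by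
    rw [Real.sqrt_le_left (by positivity)]
    rw [mul_pow, Real.sq_sqrt (by linarith)]
    linarith
  rw [← one_div, ← div_eq_mul_inv, div_le_div_iff₀ (by positivity) (by positivity)]
  calc 1 * ((D : ℝ) * √(D : ℝ)) = (D : ℝ) * √(D : ℝ) := one_mul _
    _ ≤ (3 * m) * (2 * √(m : ℝ)) := by gcongr
    _ = 6 * ((m : ℝ) * √(m : ℝ)) := by ring

private lemma ga_scale (T : Polynomial ℝ) (R : ℝ) (hR : 0 < R) :
    (∫ s in (-R)..R, (|s| - R * T.eval (R⁻¹ * s)) ^ 2) =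
      R ^ 3 * ∫ x in (-1 : ℝ)..1, (|x| - T.eval x) ^ 2 := by
  have h1 := intervalIntegral.integral_comp_div (a := -R) (b := R)
    (fun x : ℝ => R ^ 2 * (|x| - T.eval x) ^ 2) hR.ne'
  have h2 : (fun s : ℝ => R ^ 2 * (|s / R| - T.eval (s / R)) ^ 2) =
      (fun s : ℝ => (|s| - R * T.eval (R⁻¹ * s)) ^ 2) := by
    funext s
    rw [abs_div, abs_of_pos hR, ← mul_pow, mul_sub, mul_div_cancel₀ _ hR.ne', div_eq_inv_mul]
  rw [h2] at h1
  rw [h1, smul_eq_mul, neg_div, div_self hR.ne', intervalIntegral.integral_const_mul]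
  ring

private lemma ga_out (C T : ℝ) (hC : 1 ≤ C) (m : ℕ) (hm : 1 ≤ m) (s R : ℝ) (hR : 0 < R)
    (hs : R ≤ |s|) (hT : |T| ≤ C * (2 * |R⁻¹ * s|) ^ (2 * m)) :
    (|s| - R * T) ^ 2 ≤ 4 * C ^ 2 * R ^ 2 * ((2 * s / R) ^ 2) ^ (2 * m) := by
  set z : ℝ := (2 * |R⁻¹ * s|) ^ (2 * m) with hz
  have hx : 1 ≤ |R⁻¹ * s| := by
    rw [abs_mul, abs_of_pos (inv_pos.mpr hR), ← div_eq_inv_mul, one_le_div hR]
    exact hs
  have habs : |s| = R * |R⁻¹ * s| := by
    rw [abs_mul, abs_of_pos (inv_pos.mpr hR), ← mul_assoc, mul_inv_cancel₀ hR.ne', one_mul]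
  have hz1 : 1 ≤ z := one_le_pow₀ (by linarith)
  have hCz : 0 ≤ C * z := by positivity
  have hle : |R⁻¹ * s| ≤ z := by
    calc |R⁻¹ * s| ≤ 2 * |R⁻¹ * s| := by linarith
      _ = (2 * |R⁻¹ * s|) ^ 1 := (pow_one _).symm
      _ ≤ z := pow_le_pow_right₀ (by linarith) (by omega)
  have h1 : |s| ≤ R * (C * z) := by
    rw [habs]
    have : z ≤ C * z := by nlinarith
    gcongr
    linarith
  have h2 : |R * T| ≤ R * (C * z) := by
    rw [abs_mul, abs_of_pos hR]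
    gcongr
  have h3 : |(|s| - R * T)| ≤ 2 * (R * (C * z)) := by
    have := abs_sub (|s|) (R * T)
    rw [abs_abs] at this
    linarith
  calc (|s| - R * T) ^ 2 = |(|s| - R * T)| ^ 2 := (sq_abs _).symm
    _ ≤ (2 * (R * (C * z))) ^ 2 := pow_le_pow_left₀ (abs_nonneg _) h3 2
    _ = 4 * C ^ 2 * R ^ 2 * z ^ 2 := by ring
    _ = 4 * C ^ 2 * R ^ 2 * ((2 * s / R) ^ 2) ^ (2 * m) := by
        congr 1
        rw [hz, ← pow_mul, mul_comm (2 * m) 2, pow_mul]
        congr 1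
        rw [mul_pow, sq_abs, div_pow, mul_pow, mul_pow, inv_pow]
        field_simp

theorem gauss_approx : ∃ C : ℝ, 1 ≤ C ∧ ∀ D : ℕ, 1 ≤ D → ∃ q : Polynomial ℝ, q.natDegree ≤ D ∧
    ∫ s, (|s| - q.eval s) ^ 2 ∂(gaussianReal 0 1) ≤ C * (D : ℝ) ^ (-(3 / 2) : ℝ) := by
  obtain ⟨C0, hC0, hch⟩ := cheb
  refine ⟨16 + 6 * (192 * C0 + 512 * C0 ^ 2), by nlinarith, ?_⟩
  intro D hD
  rcases Nat.lt_or_ge D 2 with hD1 | hD2
  · have hD' : D = 1 := by omega
    subst hD'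
    refine ⟨0, by simp, ?_⟩
    have h1 := ga_comp (fun s => (|s| - (0 : Polynomial ℝ).eval s) ^ 2) (fun s => sq_nonneg _)
      (fun _ => 0) (integrable_zero _ _ _) 4 ?_ (by norm_num)
    · simp only [integral_zero, zero_add] at h1
      refine h1.trans ?_
      rw [Nat.cast_one, Real.one_rpow, mul_one]
      nlinarith
    · intro s
      simp only [Polynomial.eval_zero, sub_zero, sq_abs, zero_add]
      have h2 : s ^ 2 ≤ 4 * Real.exp (s ^ 2 / 4) := by
        have := Real.add_one_le_exp (s ^ 2 / 4)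
        linarith
      calc gaussianPDFReal 0 1 s * s ^ 2 ≤ Real.exp (-s ^ 2 / 2) * (4 * Real.exp (s ^ 2 / 4)) :=
            mul_le_mul (ga_pdf s) h2 (sq_nonneg _) (Real.exp_pos _).le
        _ = 4 * (Real.exp (-s ^ 2 / 2) * Real.exp (s ^ 2 / 4)) := by ring
        _ = 4 * Real.exp (-(1 / 4) * s ^ 2) := by rw [ga_half]
  · set m : ℕ := D / 2 with hm
    have hm1 : 1 ≤ m := by omega
    have hm2 : 2 * m ≤ D := by omega
    have hm3 : D ≤ 3 * m := by omega
    obtain ⟨T, hTd, hTi, hTg⟩ := hch m hm1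
    have hmr : (1 : ℝ) ≤ m := by exact_mod_cast hm1
    set R : ℝ := √(32 * (m : ℝ)) with hR
    have hRp : 0 < R := Real.sqrt_pos.mpr (by linarith)
    have hR2 : R ^ 2 = 32 * m := Real.sq_sqrt (by linarith)
    have hsm : 0 < √(m : ℝ) := Real.sqrt_pos.mpr (by linarith)
    have hRs : R ≤ 6 * √(m : ℝ) := by
      rw [hR, Real.sqrt_le_left (by positivity), mul_pow, Real.sq_sqrt (by linarith)]
      linarith
    have hev : ∀ s : ℝ, (Polynomial.C R * T.comp (Polynomial.C R⁻¹ * Polynomial.X)).eval s =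
        R * T.eval (R⁻¹ * s) := by
      intro s
      simp
    refine ⟨Polynomial.C R * T.comp (Polynomial.C R⁻¹ * Polynomial.X), ?_, ?_⟩
    · refine (Polynomial.natDegree_C_mul_le _ _).trans ?_
      refine Polynomial.natDegree_comp_le.trans ?_
      have h1 : (Polynomial.C R⁻¹ * Polynomial.X : Polynomial ℝ).natDegree ≤ 1 :=
        (Polynomial.natDegree_C_mul_le _ _).trans Polynomial.natDegree_X_le
      calc T.natDegree * (Polynomial.C R⁻¹ * Polynomial.X : Polynomial ℝ).natDegree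
          ≤ (2 * m) * 1 := Nat.mul_le_mul hTd h1
        _ ≤ D := by omega
    · simp only [hev]
      have hcont : Continuous (fun s : ℝ => (|s| - R * T.eval (R⁻¹ * s)) ^ 2) := by
        have : Continuous (fun s : ℝ => T.eval (R⁻¹ * s)) :=
          T.continuous.comp (continuous_const.mul continuous_id)
        fun_prop
      have h1 := ga_comp (fun s => (|s| - R * T.eval (R⁻¹ * s)) ^ 2) (fun s => sq_nonneg _)
        (Set.indicator (Set.Ioc (-R) R) (fun s => (|s| - R * T.eval (R⁻¹ * s)) ^ 2)) ?_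
        (128 * C0 ^ 2 * m * Real.exp (-(2 * (m : ℝ)))) ?_ (by positivity)
      · refine h1.trans ?_
        rw [integral_indicator measurableSet_Ioc, ← intervalIntegral.integral_of_le (by linarith),
          ga_scale T R hRp]
        have h2 : R ^ 3 * ∫ x in (-1 : ℝ)..1, (|x| - T.eval x) ^ 2 ≤
            192 * C0 * ((m : ℝ) * √(m : ℝ))⁻¹ := by
          calc R ^ 3 * ∫ x in (-1 : ℝ)..1, (|x| - T.eval x) ^ 2
              ≤ R ^ 3 * (C0 / (m : ℝ) ^ 3) := by gcongr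
            _ = (R ^ 2 * R) * (C0 / (m : ℝ) ^ 3) := by ring
            _ ≤ (32 * m * (6 * √(m : ℝ))) * (C0 / (m : ℝ) ^ 3) := by
                rw [hR2]
                gcongr
            _ = 192 * C0 * ((m : ℝ) * √(m : ℝ))⁻¹ := by
                have h3 : √(m : ℝ) * √(m : ℝ) = m := Real.mul_self_sqrt (by linarith)
                have h4 : √(m : ℝ) / (m : ℝ) = (√(m : ℝ))⁻¹ := by
                  rw [div_eq_iff (by linarith), inv_mul_eq_div, eq_div_iff hsm.ne', h3]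
                rw [mul_inv, ← h4]
                field_simp
                ring
        have h3 := mul_le_mul_of_nonneg_left (ga_m m hm1)
          (show (0 : ℝ) ≤ 512 * C0 ^ 2 by positivity)
        have h4 := ga_md m D hm1 hD hm3
        have h5 : 0 ≤ (D : ℝ) ^ (-(3 / 2) : ℝ) := Real.rpow_nonneg (by positivity) _
        have h6 : (192 * C0 + 512 * C0 ^ 2) * ((m : ℝ) * √(m : ℝ))⁻¹ ≤
            (192 * C0 + 512 * C0 ^ 2) * (6 * (D : ℝ) ^ (-(3 / 2) : ℝ)) :=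
          mul_le_mul_of_nonneg_left h4 (by positivity)
        nlinarith
      · rw [integrable_indicator_iff measurableSet_Ioc]
        exact (hcont.integrableOn_Icc (a := -R) (b := R)).mono_set Set.Ioc_subset_Icc_self
      · intro s
        have hpdf0 : 0 ≤ gaussianPDFReal 0 1 s := gaussianPDFReal_nonneg 0 1 s
        have hpdf := ga_pdf s
        have hE : Real.exp (-s ^ 2 / 2) ≤ 1 := by
          rw [Real.exp_le_one_iff]
          nlinarith [sq_nonneg s]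
        by_cases hs : s ∈ Set.Ioc (-R) R
        · rw [Set.indicator_of_mem hs]
          have h2 : gaussianPDFReal 0 1 s * (|s| - R * T.eval (R⁻¹ * s)) ^ 2 ≤
              1 * (|s| - R * T.eval (R⁻¹ * s)) ^ 2 :=
            mul_le_mul_of_nonneg_right (hpdf.trans hE) (sq_nonneg _)
          have h3 : 0 ≤ 128 * C0 ^ 2 * m * Real.exp (-(2 * (m : ℝ))) *
              Real.exp (-(1 / 4) * s ^ 2) := by positivity
          linarith
        · rw [Set.indicator_of_notMem hs, zero_add]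
          have habs : R ≤ |s| := by
            by_contra hlt
            push Not at hlt
            rw [abs_lt] at hlt
            exact hs ⟨hlt.1, hlt.2.le⟩
          have hx1 : 1 ≤ |R⁻¹ * s| := by
            rw [abs_mul, abs_of_pos (inv_pos.mpr hRp), ← div_eq_inv_mul, one_le_div hRp]
            exact habs
          have h2 := ga_out C0 (T.eval (R⁻¹ * s)) hC0 m hm1 s R hRp habs (hTg _ hx1)
          have h3 : ((2 * s / R) ^ 2) = s ^ 2 / (8 * (m : ℝ)) := by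
            rw [div_pow, hR2, mul_pow]
            field_simp
            ring
          rw [h3, hR2] at h2
          have h4 := ga_pow m hm1 s
          have h5 : (|s| - R * T.eval (R⁻¹ * s)) ^ 2 ≤ 4 * C0 ^ 2 * (32 * m) *
              (Real.exp (-(2 * (m : ℝ))) * Real.exp (s ^ 2 / 4)) :=
            h2.trans (mul_le_mul_of_nonneg_left h4 (by positivity))
          calc gaussianPDFReal 0 1 s * (|s| - R * T.eval (R⁻¹ * s)) ^ 2
              ≤ Real.exp (-s ^ 2 / 2) * (4 * C0 ^ 2 * (32 * m) *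
              (Real.exp (-(2 * (m : ℝ))) * Real.exp (s ^ 2 / 4))) :=
                mul_le_mul hpdf h5 (sq_nonneg _) (Real.exp_pos _).le
            _ = 128 * C0 ^ 2 * m * Real.exp (-(2 * (m : ℝ))) *
                (Real.exp (-s ^ 2 / 2) * Real.exp (s ^ 2 / 4)) := by ring
            _ = 128 * C0 ^ 2 * m * Real.exp (-(2 * (m : ℝ))) *
                Real.exp (-(1 / 4) * s ^ 2) := by rw [ga_half]

end Pool.Agent.Helper47.UB
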