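import Pool.Agent.Helper47.UB.Quad
import Pool.Agent.Helper47.UB.Basis
import Pool.Agent.Helper47.UB.Gauss

/-!
# Zonotopes from the quadrature rule

`b` from `basis n D`, `h ≤ (n+1)^D`. `q` from `gauss_approx D`, `p` from `sg_dist`; `res_sq`:
`∫ res² ≤ C₁ D^{-3/2}/n`, and (with `p = 0`, `sg_sq`) `∫ res² ≤ 1/n`. So `δ = min 1 (C₁ D^{-3/2})` works in `quad`;
`1/δ ≤ D^{3/2}`, `(h² n/δ)^4 ≤ (n+1)^{8D} n^4 D^6`. `δ log(2/δ) ≤ C₂ D^{-3/2} log(2D)`: if `δ = C₁ D^{-3/2}`,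
`log(2/δ) ≤ log(2 D^{3/2}) ≤ 2 log(2D)`; if `δ = 1`, then `C₁ D^{-3/2} ≥ 1`. Take
`x_j = (w_j/s0) y_j`, `s0` from `sg_abs` (`∫ |⟨v,z⟩| = s0 ‖v‖`, `1/s0 ≤ 2√n`):
`|∑ |⟨v, x_j⟩| - 1| ≤ 2√n C √(δ log(2/δ)/N)` for unit `v`; homogeneity for general `v`.
-/

open MeasureTheory Metric
open scoped RealInnerProductSpace ENNReal

namespace Pool.Agent.Helper47.UB

/-- Numerical part: the choice of `δ`. -/
private theorem delta_choice (C₁ : ℝ) (hC₁ : 1 ≤ C₁) (D : ℕ) (hD : 1 ≤ D) :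
    ∃ δ : ℝ, 0 < δ ∧ δ ≤ 1 ∧ (δ = 1 ∨ δ = C₁ * (D : ℝ) ^ (-(3 / 2) : ℝ)) ∧
      1 / δ ^ 4 ≤ (D : ℝ) ^ 6 ∧
      δ * Real.log (2 / δ) ≤ 4 * C₁ * ((D : ℝ) ^ (-(3 / 2) : ℝ) * Real.log (2 * D)) := by
  have hD1 : (1 : ℝ) ≤ (D : ℝ) := by exact_mod_cast hD
  have hD0 : (0 : ℝ) < (D : ℝ) := by linarith
  set r : ℝ := (D : ℝ) ^ (-(3 / 2) : ℝ) with hr
  have hr0 : 0 < r := Real.rpow_pos_of_pos hD0 _
  have hr4 : 1 / r ^ 4 = (D : ℝ) ^ 6 := by
    rw [hr, ← Real.rpow_natCast, ← Real.rpow_mul hD0.le, one_div, ← Real.rpow_neg hD0.le,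
      ← Real.rpow_natCast]
    norm_num
  have hlog2 : 1 / 2 ≤ Real.log 2 := by
    have := Real.log_two_gt_d9
    linarith
  have hlog2' : Real.log 2 ≤ 1 := by
    have := Real.log_two_lt_d9
    linarith
  have hlogD : 0 ≤ Real.log (D : ℝ) := Real.log_nonneg hD1
  have hlog2D : Real.log (2 * (D : ℝ)) = Real.log 2 + Real.log D :=
    Real.log_mul (by norm_num) hD0.ne'
  rcases le_or_gt 1 (C₁ * r) with h | h
  · refine ⟨1, one_pos, le_rfl, Or.inl rfl, ?_, ?_⟩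
    · have : (1 : ℝ) ≤ (D : ℝ) ^ 6 := one_le_pow₀ hD1
      simpa using this
    · have h1 : 1 / 2 ≤ Real.log (2 * (D : ℝ)) := by rw [hlog2D]; linarith
      have h2 : (2 : ℝ) / 1 = 2 := by norm_num
      rw [h2, one_mul]
      have h3 : 1 * (1 / 2) ≤ (C₁ * r) * Real.log (2 * (D : ℝ)) :=
        mul_le_mul h h1 (by norm_num) (by linarith)
      nlinarith
  · refine ⟨C₁ * r, by positivity, h.le, Or.inr rfl, ?_, ?_⟩
    · rw [← hr4]
      refine one_div_le_one_div_of_le (by positivity) ?_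
      refine pow_le_pow_left₀ hr0.le ?_ 4
      nlinarith
    · have h1 : Real.log (2 / (C₁ * r)) ≤ 2 * Real.log (2 * (D : ℝ)) := by
        have h2 : 2 / (C₁ * r) ≤ 2 / r := by
          refine div_le_div_of_nonneg_left (by norm_num) hr0 ?_
          nlinarith
        have h3 : Real.log (2 / r) = Real.log 2 + 3 / 2 * Real.log D := by
          rw [Real.log_div (by norm_num) hr0.ne', hr, Real.log_rpow hD0]
          ring
        calc Real.log (2 / (C₁ * r)) ≤ Real.log (2 / r) :=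
              Real.log_le_log (by positivity) h2
          _ = Real.log 2 + 3 / 2 * Real.log D := h3
          _ ≤ 2 * Real.log (2 * (D : ℝ)) := by rw [hlog2D]; linarith
      have h5 : 0 ≤ Real.log (2 * (D : ℝ)) := by rw [hlog2D]; linarith
      calc C₁ * r * Real.log (2 / (C₁ * r)) ≤ C₁ * r * (2 * Real.log (2 * (D : ℝ))) :=
            mul_le_mul_of_nonneg_left h1 (by positivity)
        _ ≤ 4 * C₁ * (r * Real.log (2 * D)) := by
            have : 0 ≤ C₁ * r * Real.log (2 * (D : ℝ)) := by positivity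
            nlinarith

theorem design : ∃ C : ℝ, 1 ≤ C ∧ ∀ n D N : ℕ, 1 ≤ n → 1 ≤ D →
    C * (((n : ℝ) + 1) ^ (8 * D) * (n : ℝ) ^ 4 * (D : ℝ) ^ 6) ≤ N →
    ∃ x : Fin N → En n, ∀ v : En n,
      |∑ j, |⟪v, x j⟫| - ‖v‖| ≤
        C * Real.sqrt (n * ((D : ℝ) ^ (-(3 / 2) : ℝ) * Real.log (2 * D)) / N) * ‖v‖ := by
  obtain ⟨C₀, hC₀, hquad⟩ := quad
  obtain ⟨C₁, hC₁, hgauss⟩ := gauss_approx
  refine ⟨4 * C₀ * C₁, by nlinarith, ?_⟩
  intro n D N hn hD hN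
  have hn1 : (1 : ℝ) ≤ (n : ℝ) := by exact_mod_cast hn
  have hn0 : (0 : ℝ) < (n : ℝ) := by linarith
  have hD1 : (1 : ℝ) ≤ (D : ℝ) := by exact_mod_cast hD
  have hD0 : (0 : ℝ) < (D : ℝ) := by linarith
  haveI := sg_prob n hn
  obtain ⟨h, b, hb⟩ := basis n D hn
  obtain ⟨q, hqD, hq⟩ := hgauss D hD
  obtain ⟨δ, hδ0, hδ1, hδor, hδ4, hδlog⟩ := delta_choice C₁ hC₁ D hD
  obtain ⟨s0, hs0, habs⟩ := sg_abs n hn
  have hsqn : 0 < Real.sqrt (n : ℝ) := Real.sqrt_pos.2 hn0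
  have hs0pos : 0 < s0 := lt_of_lt_of_le (by positivity) hs0
  -- the variance bound
  have hres : ∀ v : En n, ‖v‖ = 1 → ∫ y, res b v y ^ 2 ∂(sg n) ≤ δ / n := by
    intro v hv
    rcases hδor with h1 | h1
    · have h2 := res_sq hn hb v 0 (by simp)
      have h3 := sg_sq n hn v
      rw [hv] at h3
      have h4 : ∫ y : Sph n, (|⟪v, (y : En n)⟫| - (0 : Polynomial ℝ).eval ⟪v, (y : En n)⟫) ^ 2
          ∂(sg n) = ∫ y : Sph n, ⟪v, (y : En n)⟫ ^ 2 ∂(sg n) := by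
        congr 1
        ext y
        simp
      rw [h4, h3] at h2
      rw [h1]
      simpa using h2
    · obtain ⟨p, hp, hpi⟩ := sg_dist n hn v hv q _ hq
      rw [h1]
      exact (res_sq hn hb v p (hp.trans hqD)).trans hpi
  -- the condition
  have hcond : C₀ * ((h : ℝ) ^ 2 * n / δ) ^ 4 ≤ N := by
    have h1 : (h : ℝ) ^ 8 ≤ ((n : ℝ) + 1) ^ (8 * D) := by
      calc (h : ℝ) ^ 8 ≤ (((n : ℝ) + 1) ^ D) ^ 8 :=
            pow_le_pow_left₀ (Nat.cast_nonneg _) hb.card 8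
        _ = ((n : ℝ) + 1) ^ (8 * D) := by rw [← pow_mul]; congr 1; ring
    have h2 : ((h : ℝ) ^ 2 * n / δ) ^ 4 = (h : ℝ) ^ 8 * (n : ℝ) ^ 4 * (1 / δ ^ 4) := by
      field_simp
    rw [h2]
    refine le_trans ?_ hN
    have h3 : (h : ℝ) ^ 8 * (n : ℝ) ^ 4 * (1 / δ ^ 4) ≤
        ((n : ℝ) + 1) ^ (8 * D) * (n : ℝ) ^ 4 * (D : ℝ) ^ 6 :=
      mul_le_mul (mul_le_mul_of_nonneg_right h1 (by positivity)) hδ4 (by positivity)
        (by positivity)
    have h4 : C₀ ≤ 4 * C₀ * C₁ := by nlinarith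
    exact mul_le_mul h4 h3 (by positivity) (by positivity)
  obtain ⟨y, w, hw, herr⟩ := hquad n D h N b δ hn hb hδ0 hδ1 hres hcond
  have hNpos : (0 : ℝ) < N := by
    refine lt_of_lt_of_le ?_ hN
    positivity
  -- bound of the error
  have hE : C₀ * Real.sqrt (δ * Real.log (2 / δ) / N) / s0 ≤ 4 * C₀ * C₁ *
      Real.sqrt (n * ((D : ℝ) ^ (-(3 / 2) : ℝ) * Real.log (2 * D)) / N) := by
    set B : ℝ := (D : ℝ) ^ (-(3 / 2) : ℝ) * Real.log (2 * D) with hB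
    have hlogD : 0 ≤ Real.log (2 * (D : ℝ)) := Real.log_nonneg (by linarith)
    have hB0 : 0 ≤ B := mul_nonneg (Real.rpow_nonneg hD0.le _) hlogD
    have h1 : 1 / s0 ≤ 2 * Real.sqrt n := by
      rw [div_le_iff₀ hs0pos]
      rw [div_le_iff₀ (by positivity)] at hs0
      linarith
    have h2 : Real.sqrt (δ * Real.log (2 / δ) / N) ≤ 2 * C₁ * Real.sqrt (B / N) := by
      have h3 : δ * Real.log (2 / δ) / N ≤ (2 * C₁) ^ 2 * (B / N) := by
        rw [← mul_div_assoc]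
        refine div_le_div_of_nonneg_right (hδlog.trans ?_) hNpos.le
        have : 4 * C₁ ≤ (2 * C₁) ^ 2 := by nlinarith
        exact mul_le_mul_of_nonneg_right this hB0
      calc Real.sqrt (δ * Real.log (2 / δ) / N) ≤ Real.sqrt ((2 * C₁) ^ 2 * (B / N)) :=
            Real.sqrt_le_sqrt h3
        _ = 2 * C₁ * Real.sqrt (B / N) := by
            rw [Real.sqrt_mul (by positivity), Real.sqrt_sq (by positivity)]
    have h4 : Real.sqrt (n * B / N) = Real.sqrt n * Real.sqrt (B / N) := by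
      rw [mul_div_assoc, Real.sqrt_mul hn0.le]
    rw [h4]
    calc C₀ * Real.sqrt (δ * Real.log (2 / δ) / N) / s0
        = C₀ * Real.sqrt (δ * Real.log (2 / δ) / N) * (1 / s0) := by ring
      _ ≤ C₀ * (2 * C₁ * Real.sqrt (B / N)) * (2 * Real.sqrt n) :=
          mul_le_mul (mul_le_mul_of_nonneg_left h2 (by linarith)) h1 (by positivity)
            (by positivity)
      _ = 4 * C₀ * C₁ * (Real.sqrt n * Real.sqrt (B / N)) := by ring
  refine ⟨fun j => (w j / s0) • (y j : En n), ?_⟩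
  -- unit vectors
  have hunit : ∀ v : En n, ‖v‖ = 1 → |∑ j, |⟪v, (w j / s0) • (y j : En n)⟫| - 1| ≤
      C₀ * Real.sqrt (δ * Real.log (2 / δ) / N) / s0 := by
    intro v hv
    have h1 : ∀ j, |⟪v, (w j / s0) • (y j : En n)⟫| = w j * |⟪v, (y j : En n)⟫| / s0 := by
      intro j
      rw [real_inner_smul_right, abs_mul, abs_of_nonneg (div_nonneg (hw j) hs0pos.le)]
      ring
    have h2 := herr v hv
    rw [habs v, hv, mul_one] at h2
    have h3 : ∑ j, |⟪v, (w j / s0) • (y j : En n)⟫| - 1 =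
        (∑ j, w j * |⟪v, (y j : En n)⟫| - s0) / s0 := by
      simp_rw [h1]
      rw [← Finset.sum_div, sub_div, div_self hs0pos.ne']
    rw [h3, abs_div, abs_of_pos hs0pos]
    exact div_le_div_of_nonneg_right h2 hs0pos.le
  intro v
  rcases eq_or_ne v 0 with hv | hv
  · subst hv
    simp
  have hv0 : 0 < ‖v‖ := norm_pos_iff.2 hv
  set u : En n := ‖v‖⁻¹ • v with hu
  have hu1 : ‖u‖ = 1 := by
    rw [hu, norm_smul, norm_inv, norm_norm, inv_mul_cancel₀ hv0.ne']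
  have hvu : v = ‖v‖ • u := by
    rw [hu, smul_smul, mul_inv_cancel₀ hv0.ne', one_smul]
  have h1 : ∀ j, |⟪v, (w j / s0) • (y j : En n)⟫| = ‖v‖ * |⟪u, (w j / s0) • (y j : En n)⟫| := by
    intro j
    conv_lhs => rw [hvu]
    rw [real_inner_smul_left, abs_mul, abs_norm]
  have h2 : ∑ j, |⟪v, (w j / s0) • (y j : En n)⟫| - ‖v‖ =
      ‖v‖ * (∑ j, |⟪u, (w j / s0) • (y j : En n)⟫| - 1) := by
    simp_rw [h1]
    rw [← Finset.mul_sum]
    ring
  rw [h2, abs_mul, abs_norm, mul_comm]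
  exact mul_le_mul_of_nonneg_right ((hunit u hu1).trans hE) hv0.le

end Pool.Agent.Helper47.UB
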