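import Mathlib

/-!
# Second moments

`sum_sq`: independence: `E (∑_j (f(y_j) - E f))² = N Var f ≤ N ∫ f²` (e.g. `variance` of a sum of independent
variables, or expand the square and use `Measure.pi` marginals). `moment1`: `f = b_i`, `∫ b_i² = 1`, sum over
`i`: `E ≤ N h`, Markov. `moment2`: `f = b_i b_k`, `∑_{i,k} ∫ b_i² b_k² = ∫ (∑ b_i²)² = h²`.
-/

open MeasureTheory

namespace Pool.Agent.Helper47.UB

private theorem bdd_int' {Y : Type*} [MeasurableSpace Y] (μ : Measure Y) [IsFiniteMeasure μ]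
    (g : Y → ℝ) (hg : Measurable g) (B : ℝ) (hB : ∀ y, |g y| ≤ B) : Integrable g μ :=
  Integrable.of_bound hg.aestronglyMeasurable B (Filter.Eventually.of_forall fun y => by
    rw [Real.norm_eq_abs]; exact hB y)

private theorem cross {Y : Type} [MeasurableSpace Y] (μ : Measure Y) [IsProbabilityMeasure μ]
    (N : ℕ) (g : Y → ℝ) (hmean : ∫ y, g y ∂μ = 0) (j k : Fin N) (hjk : j ≠ k) :
    ∫ y, g (y j) * g (y k) ∂(Measure.pi fun _ : Fin N => μ) = 0 := by
  classical
  have h1 : ∀ y : Fin N → Y, g (y j) * g (y k) =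
      ∏ i, (if i = j then g (y i) else if i = k then g (y i) else 1) := by
    intro y
    rw [← Finset.mul_prod_erase Finset.univ _ (Finset.mem_univ j), if_pos rfl,
      ← Finset.mul_prod_erase (Finset.univ.erase j) _
        (Finset.mem_erase.2 ⟨hjk.symm, Finset.mem_univ k⟩), if_neg hjk.symm, if_pos rfl,
      Finset.prod_eq_one, mul_one]
    intro i hi
    have h2 := Finset.mem_erase.1 hi
    have h3 := Finset.mem_erase.1 h2.2
    rw [if_neg h3.1, if_neg h2.1]
  simp_rw [h1]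
  have h4 := integral_fintype_prod_eq_prod (μ := fun _ : Fin N => μ)
    (fun i : Fin N => fun z : Y => if i = j then g z else if i = k then g z else (1 : ℝ))
  rw [h4]
  refine Finset.prod_eq_zero (Finset.mem_univ j) ?_
  simp [hmean]

private theorem diag {Y : Type} [MeasurableSpace Y] (μ : Measure Y) [IsProbabilityMeasure μ]
    (N : ℕ) (g : Y → ℝ) (j : Fin N) :
    ∫ y, g (y j) ∂(Measure.pi fun _ : Fin N => μ) = ∫ z, g z ∂μ := by
  classical
  have h1 : ∀ y : Fin N → Y, g (y j) = ∏ i, (if i = j then g (y i) else 1) := by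
    intro y
    rw [← Finset.mul_prod_erase Finset.univ _ (Finset.mem_univ j), if_pos rfl,
      Finset.prod_eq_one, mul_one]
    intro i hi
    rw [if_neg (Finset.mem_erase.1 hi).1]
  simp_rw [h1]
  have h4 := integral_fintype_prod_eq_prod (μ := fun _ : Fin N => μ)
    (fun i : Fin N => fun z : Y => if i = j then g z else (1 : ℝ))
  rw [h4, ← Finset.mul_prod_erase Finset.univ _ (Finset.mem_univ j), Finset.prod_eq_one, mul_one]
  · simp
  · intro i hi
    simp [(Finset.mem_erase.1 hi).1]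

theorem sum_sq {Y : Type} [MeasurableSpace Y] (μ : Measure Y) [IsProbabilityMeasure μ] (N : ℕ)
    (f : Y → ℝ) (hf : Measurable f) (B : ℝ) (hB : ∀ y, |f y| ≤ B) :
    ∫ y, (∑ j, (f (y j) - ∫ z, f z ∂μ)) ^ 2 ∂(Measure.pi fun _ : Fin N => μ) ≤
      N * ∫ z, f z ^ 2 ∂μ := by
  set m : ℝ := ∫ z, f z ∂μ with hm
  set g : Y → ℝ := fun z => f z - m with hg
  have hfi : Integrable f μ := bdd_int' μ f hf B hB
  have hf2 : Integrable (fun z => f z ^ 2) μ := bdd_int' μ _ (hf.pow_const 2) (B ^ 2) fun y => by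
    rw [abs_pow]; exact pow_le_pow_left₀ (abs_nonneg _) (hB y) 2
  have hgm : ∫ z, g z ∂μ = 0 := by
    rw [hg]
    simp only []
    rw [integral_sub hfi (integrable_const _)]
    simp [hm]
  have hgmeas : Measurable g := hf.sub_const m
  have hgB : ∀ y, |g y| ≤ B + |m| := fun y => (abs_sub _ _).trans (add_le_add (hB y) le_rfl)
  have hg2 : ∫ z, g z * g z ∂μ ≤ ∫ z, f z ^ 2 ∂μ := by
    have h1 : ∀ z, g z * g z = f z ^ 2 - (2 * m) * f z + m ^ 2 := fun z => by
      simp only [hg]; ring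
    simp_rw [h1]
    have e1 : ∫ z, (f z ^ 2 - (2 * m) * f z + m ^ 2) ∂μ =
        (∫ z, (f z ^ 2 - (2 * m) * f z) ∂μ) + ∫ _z : Y, m ^ 2 ∂μ :=
      integral_add (hf2.sub (hfi.const_mul _)) (integrable_const _)
    have e2 : ∫ z, (f z ^ 2 - (2 * m) * f z) ∂μ =
        (∫ z, f z ^ 2 ∂μ) - ∫ z, (2 * m) * f z ∂μ := integral_sub hf2 (hfi.const_mul _)
    rw [e1, e2, integral_const_mul, ← hm]
    simp only [integral_const, probReal_univ, smul_eq_mul, one_mul]
    nlinarith [sq_nonneg m]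
  have hexp : ∀ y : Fin N → Y, (∑ j, (f (y j) - m)) ^ 2 = ∑ j, ∑ k, g (y j) * g (y k) := by
    intro y
    rw [sq, Finset.sum_mul_sum]
  have hBm : ∀ y : Fin N → Y, ∀ j k, |g (y j) * g (y k)| ≤ (B + |m|) * (B + |m|) := by
    intro y j k
    rw [abs_mul]
    exact mul_le_mul (hgB _) (hgB _) (abs_nonneg _) ((abs_nonneg _).trans (hgB (y j)))
  have hint : ∀ j k, Integrable (fun y : Fin N → Y => g (y j) * g (y k))
      (Measure.pi fun _ : Fin N => μ) := fun j k =>
    bdd_int' _ _ ((hgmeas.comp (measurable_pi_apply j)).mul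
      (hgmeas.comp (measurable_pi_apply k))) _ fun y => hBm y j k
  simp_rw [hexp]
  rw [integral_finsetSum _ fun j _ => integrable_finsetSum _ fun k _ => hint j k]
  simp_rw [integral_finsetSum _ fun k _ => hint _ k]
  calc ∑ j, ∑ k, ∫ y, g (y j) * g (y k) ∂(Measure.pi fun _ : Fin N => μ)
      = ∑ _j : Fin N, ∫ z, g z * g z ∂μ := by
        refine Finset.sum_congr rfl fun j _ => ?_
        rw [Finset.sum_eq_single j]
        · exact diag μ N (fun z => g z * g z) j
        · intro k _ hk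
          exact cross μ N g hgm j k hk.symm
        · intro h; exact absurd (Finset.mem_univ j) h
    _ = N * ∫ z, g z * g z ∂μ := by simp
    _ ≤ _ := mul_le_mul_of_nonneg_left hg2 (Nat.cast_nonneg N)

private theorem markov {Ω : Type*} [MeasurableSpace Ω] (P : Measure Ω) [IsProbabilityMeasure P]
    (X : Ω → ℝ) (hX : ∀ ω, 0 ≤ X ω) (hXi : Integrable X P) (a : ℝ) (ha : 0 < a)
    (h : ∫ ω, X ω ∂P ≤ a / 8) : P {ω | a ≤ X ω} ≤ ENNReal.ofReal (1 / 8) := by
  have h1 := mul_meas_ge_le_integral_of_nonneg (μ := P) (Filter.Eventually.of_forall hX) hXi a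
  have h2 : P.real {ω | a ≤ X ω} ≤ 1 / 8 := by
    have h3 : a * P.real {ω | a ≤ X ω} ≤ a / 8 := h1.trans h
    nlinarith
  calc P {ω | a ≤ X ω} = ENNReal.ofReal (P.real {ω | a ≤ X ω}) := by
        rw [Measure.real, ENNReal.ofReal_toReal (measure_ne_top _ _)]
    _ ≤ _ := ENNReal.ofReal_le_ofReal h2

private theorem abs_b_le {Y : Type} (h : ℕ) (b : Fin h → Y → ℝ)
    (hk : ∀ y, ∑ i, b i y ^ 2 = (h : ℝ)) (i : Fin h) (y : Y) : |b i y| ≤ Real.sqrt h := by
  refine Real.abs_le_sqrt ?_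
  rw [← hk y]
  exact Finset.single_le_sum (f := fun i => b i y ^ 2) (fun j _ => sq_nonneg _)
    (Finset.mem_univ i)

private theorem sum_int {Y : Type} [MeasurableSpace Y] (μ : Measure Y) [IsProbabilityMeasure μ]
    (N : ℕ) (f : Y → ℝ) (hf : Measurable f) (B : ℝ) (hB : ∀ y, |f y| ≤ B) (m : ℝ) :
    Integrable (fun y : Fin N → Y => (∑ j, (f (y j) - m)) ^ 2) (Measure.pi fun _ : Fin N => μ) := by
  refine bdd_int' _ _ ?_ ((N * (B + |m|)) ^ 2) fun y => ?_
  · exact (Finset.measurable_sum _ fun j _ =>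
      (hf.comp (measurable_pi_apply j)).sub_const m).pow_const 2
  · rw [abs_pow]
    refine pow_le_pow_left₀ (abs_nonneg _) ?_ 2
    calc |∑ j, (f (y j) - m)| ≤ ∑ j, |f (y j) - m| := Finset.abs_sum_le_sum_abs _ _
      _ ≤ ∑ _j : Fin N, (B + |m|) :=
          Finset.sum_le_sum fun j _ => (abs_sub _ _).trans (add_le_add (hB _) le_rfl)
      _ = N * (B + |m|) := by
          rw [Finset.sum_const, Finset.card_univ, Fintype.card_fin, nsmul_eq_mul]

theorem moment1 {Y : Type} [MeasurableSpace Y] (μ : Measure Y) [IsProbabilityMeasure μ]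
    (N h : ℕ) (hN : 1 ≤ N) (hh : 1 ≤ h) (b : Fin h → Y → ℝ) (hb : ∀ i, Measurable (b i))
    (horth : ∀ i j, ∫ y, b i y * b j y ∂μ = if i = j then 1 else 0)
    (hk : ∀ y, ∑ i, b i y ^ 2 = (h : ℝ)) :
    (Measure.pi fun _ : Fin N => μ) {y | 8 * (h : ℝ) * N ≤
      ∑ i, (∑ j, (b i (y j) - ∫ z, b i z ∂μ)) ^ 2} ≤ ENNReal.ofReal (1 / 8) := by
  have hN0 : (0 : ℝ) < N := by exact_mod_cast hN
  have hh0 : (0 : ℝ) < h := by exact_mod_cast hh
  have hbb := abs_b_le h b hk
  have hint : ∀ i : Fin h, Integrable (fun y : Fin N → Y =>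
      (∑ j, (b i (y j) - ∫ z, b i z ∂μ)) ^ 2) (Measure.pi fun _ : Fin N => μ) := fun i =>
    sum_int μ N (b i) (hb i) _ (hbb i) _
  refine markov _ _ (fun y => Finset.sum_nonneg fun i _ => sq_nonneg _)
    (integrable_finsetSum _ fun i _ => hint i) _ (by positivity) ?_
  rw [integral_finsetSum _ fun i _ => hint i]
  calc ∑ i, ∫ y, (∑ j, (b i (y j) - ∫ z, b i z ∂μ)) ^ 2 ∂(Measure.pi fun _ : Fin N => μ)
      ≤ ∑ i, N * ∫ z, b i z ^ 2 ∂μ :=
        Finset.sum_le_sum fun i _ => sum_sq μ N (b i) (hb i) _ (hbb i)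
    _ = ∑ _i : Fin h, (N : ℝ) := by
        refine Finset.sum_congr rfl fun i _ => ?_
        have h1 := horth i i
        rw [if_pos rfl] at h1
        have h2 : ∫ z, b i z ^ 2 ∂μ = 1 := by
          rw [← h1]; congr 1; ext z; ring
        rw [h2, mul_one]
    _ = 8 * (h : ℝ) * N / 8 := by
        rw [Finset.sum_const, Finset.card_univ, Fintype.card_fin, nsmul_eq_mul]; ring

theorem moment2 {Y : Type} [MeasurableSpace Y] (μ : Measure Y) [IsProbabilityMeasure μ]
    (N h : ℕ) (hN : 1 ≤ N) (hh : 1 ≤ h) (b : Fin h → Y → ℝ) (hb : ∀ i, Measurable (b i))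
    (horth : ∀ i j, ∫ y, b i y * b j y ∂μ = if i = j then 1 else 0)
    (hk : ∀ y, ∑ i, b i y ^ 2 = (h : ℝ)) :
    (Measure.pi fun _ : Fin N => μ) {y | 8 * (h : ℝ) ^ 2 * N ≤
      ∑ i, ∑ k, (∑ j, (b i (y j) * b k (y j) - (if i = k then 1 else 0))) ^ 2} ≤
      ENNReal.ofReal (1 / 8) := by
  have hN0 : (0 : ℝ) < N := by exact_mod_cast hN
  have hh0 : (0 : ℝ) < h := by exact_mod_cast hh
  have hbb := abs_b_le h b hk
  have hbk : ∀ i k : Fin h, Measurable fun y => b i y * b k y := fun i k => (hb i).mul (hb k)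
  have hbkB : ∀ i k : Fin h, ∀ y, |b i y * b k y| ≤ Real.sqrt h * Real.sqrt h := fun i k y => by
    rw [abs_mul]
    exact mul_le_mul (hbb i y) (hbb k y) (abs_nonneg _) (Real.sqrt_nonneg _)
  have hint : ∀ i k : Fin h, Integrable (fun y : Fin N → Y =>
      (∑ j, (b i (y j) * b k (y j) - (if i = k then 1 else 0))) ^ 2)
      (Measure.pi fun _ : Fin N => μ) := fun i k =>
    sum_int μ N (fun y => b i y * b k y) (hbk i k) _ (hbkB i k) _
  refine markov _ _ (fun y => Finset.sum_nonneg fun i _ => Finset.sum_nonneg fun k _ => sq_nonneg _)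
    (integrable_finsetSum _ fun i _ => integrable_finsetSum _ fun k _ => hint i k) _
    (by positivity) ?_
  rw [integral_finsetSum _ fun i _ => integrable_finsetSum _ fun k _ => hint i k]
  simp_rw [integral_finsetSum _ fun k _ => hint _ k]
  have hi2 : ∀ i k : Fin h, Integrable (fun z => (b i z * b k z) ^ 2) μ := fun i k =>
    bdd_int' μ _ ((hbk i k).pow_const 2) ((Real.sqrt h * Real.sqrt h) ^ 2) fun y => by
      rw [abs_pow]; exact pow_le_pow_left₀ (abs_nonneg _) (hbkB i k y) 2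
  calc ∑ i, ∑ k, ∫ y, (∑ j, (b i (y j) * b k (y j) - (if i = k then 1 else 0))) ^ 2
        ∂(Measure.pi fun _ : Fin N => μ)
      ≤ ∑ i, ∑ k, N * ∫ z, (b i z * b k z) ^ 2 ∂μ := by
        refine Finset.sum_le_sum fun i _ => Finset.sum_le_sum fun k _ => ?_
        have := sum_sq μ N (fun y => b i y * b k y) (hbk i k) _ (hbkB i k)
        rw [horth i k] at this
        exact this
    _ = N * ∫ z, ∑ i, ∑ k, (b i z * b k z) ^ 2 ∂μ := by
        rw [integral_finsetSum _ fun i _ => integrable_finsetSum _ fun k _ => hi2 i k]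
        simp_rw [integral_finsetSum _ fun k _ => hi2 _ k, Finset.mul_sum]
    _ = N * (h : ℝ) ^ 2 := by
        have h3 : ∀ z, ∑ i, ∑ k, (b i z * b k z) ^ 2 = (h : ℝ) ^ 2 := by
          intro z
          have h4 : ∀ i k : Fin h, (b i z * b k z) ^ 2 = b i z ^ 2 * b k z ^ 2 := fun i k => by ring
          simp_rw [h4]
          rw [← Finset.sum_mul_sum, hk z]
          ring
        simp_rw [h3]
        simp
    _ = 8 * (h : ℝ) ^ 2 * N / 8 := by ring

end Pool.Agent.Helper47.UB
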