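import Pool.Agent.Helper47.UB.Fam
import Pool.Agent.Helper47.UB.Chain
import Pool.Agent.Helper47.UB.Moment

/-!
# A good sample exists

`μ = sg n` (`sg_prob`). Bad events: (0) `chain` for `F = res b` (`ChainHyp` from `Fam`, `b`-constant `1 + √h ≤ 2√h`,
all for unit vectors; measurability from continuity), `Λ = 1`: measure `≤ 1/32`. (i) for each `i`
`F v y = res b v y · b_i(y)/√h` (`|b_i| ≤ √h` by `kern`, mean zero by `res_orth`), `Λ = √h + 1`, `Λ² ≥ h`: measure
`≤ 2^{-h}/16`, sum over `i` `≤ h 2^{-h}/16 ≤ 1/32`. (1), (2) `moment1`, `moment2`: `≤ 1/8` each. The total is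
`< 1`, so some sample avoids all. The condition `C (Λ b n/δ)^4 ≤ N` holds as
`Λ b ≤ (√h+1)(1+√h) ≤ 4 h`.
-/

open MeasureTheory Metric
open scoped RealInnerProductSpace ENNReal

namespace Pool.Agent.Helper47.UB

variable {n D h : ℕ} {b : Fin h → C(Sph n, ℝ)}

private theorem ev_int (hn : 1 ≤ n) {f : Sph n → ℝ} (hf : Continuous f) :
    Integrable f (sg n) := by
  have := sg_prob n hn
  exact hf.integrable_of_hasCompactSupport (HasCompactSupport.of_compactSpace f)

/-- `|b_i| ≤ √h` -/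
private theorem ev_bi (hb : OB n D b) (i : Fin h) (y : Sph n) : |b i y| ≤ Real.sqrt h := by
  apply Real.abs_le_sqrt
  rw [← hb.kern y]
  exact Finset.single_le_sum (f := fun j => b j y ^ 2) (fun j _ => sq_nonneg (b j y))
    (Finset.mem_univ i)

/-- the residuals times a continuous function of modulus at most `1` and mean zero products -/
private theorem ev_hyp (hn : 1 ≤ n) (hb : OB n D b) {δ : ℝ}
    (hsq : ∀ v : En n, ‖v‖ = 1 → ∫ y, res b v y ^ 2 ∂(sg n) ≤ δ / n)
    (g : Sph n → ℝ) (hg : Continuous g) (hg1 : ∀ y, |g y| ≤ 1)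
    (hg0 : ∀ v, ∫ y, res b v y * g y ∂(sg n) = 0) :
    ChainHyp (sg n) n (fun v y => res b v y * g y) δ (1 + Real.sqrt h) where
  meas := fun v => ((res_cont b v).mul hg).measurable
  mean := fun v _ => hg0 v
  sq := fun v hv => by
    refine le_trans ?_ (hsq v hv)
    refine integral_mono (ev_int hn (((res_cont b v).mul hg).pow 2))
      (ev_int hn ((res_cont b v).pow 2)) fun y => ?_
    have h1 : |res b v y * g y| ≤ |res b v y| := by
      rw [abs_mul]
      exact mul_le_of_le_one_right (abs_nonneg _) (hg1 y)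
    exact sq_le_sq.2 h1
  diff := fun v w _ _ => by
    refine le_trans ?_ (res_diff hn hb v w)
    refine integral_mono
      (ev_int hn ((((res_cont b v).mul hg).sub ((res_cont b w).mul hg)).pow 2))
      (ev_int hn (((res_cont b v).sub (res_cont b w)).pow 2)) fun y => ?_
    have h1 : |res b v y * g y - res b w y * g y| ≤ |res b v y - res b w y| := by
      rw [← sub_mul, abs_mul]
      exact mul_le_of_le_one_right (abs_nonneg _) (hg1 y)
    exact sq_le_sq.2 h1
  lip := fun v w y _ _ => by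
    have h1 : |res b v y * g y - res b w y * g y| ≤ |res b v y - res b w y| := by
      rw [← sub_mul, abs_mul]
      exact mul_le_of_le_one_right (abs_nonneg _) (hg1 y)
    exact h1.trans (res_lip hn hb v w y)
  bd := fun v y hv => by
    have h1 : |res b v y * g y| ≤ |res b v y| := by
      rw [abs_mul]
      exact mul_le_of_le_one_right (abs_nonneg _) (hg1 y)
    refine h1.trans ?_
    have h2 := res_bound hn hb v y
    rwa [hv, mul_one] at h2

theorem good_sample : ∃ C : ℝ, 1 ≤ C ∧ ∀ (n D h N : ℕ) (b : Fin h → C(Sph n, ℝ)) (δ : ℝ), 1 ≤ n →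
    OB n D b → 0 < δ → δ ≤ 1 → (∀ v : En n, ‖v‖ = 1 → ∫ y, res b v y ^ 2 ∂(sg n) ≤ δ / n) →
    C * ((h : ℝ) ^ 2 * n / δ) ^ 4 ≤ N → ∃ y : Fin N → Sph n,
      (∀ v : En n, ‖v‖ = 1 →
        |∑ j, res b v (y j)| ≤ C * Real.sqrt (N * (δ * Real.log (2 / δ)))) ∧
      (∀ i, ∀ v : En n, ‖v‖ = 1 →
        |∑ j, b i (y j) * res b v (y j)| ≤ C * h * Real.sqrt (N * (δ * Real.log (2 / δ)))) ∧
      (∑ i, (∑ j, (b i (y j) - ∫ z, b i z ∂(sg n))) ^ 2 ≤ 8 * h * N) ∧
      (∑ i, ∑ k, (∑ j, (b i (y j) * b k (y j) - (if i = k then 1 else 0))) ^ 2 ≤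
        8 * (h : ℝ) ^ 2 * N) := by
  obtain ⟨C0, hC0, hch⟩ := chain
  refine ⟨256 * C0, by linarith, ?_⟩
  intro n D h N b δ hn hb hδ hδ1 hsq hN
  have hprob := sg_prob n hn
  have hh : 1 ≤ h := hb.pos
  have hhR : (1 : ℝ) ≤ h := by exact_mod_cast hh
  have hnR : (1 : ℝ) ≤ n := by exact_mod_cast hn
  have hs1 : 1 ≤ Real.sqrt h := Real.one_le_sqrt.mpr hhR
  have hss : Real.sqrt h * Real.sqrt h = h := Real.mul_self_sqrt (by linarith)
  have hsh : Real.sqrt h ≤ h := by
    have h1 : Real.sqrt h * 1 ≤ Real.sqrt h * Real.sqrt h :=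
      mul_le_mul_of_nonneg_left hs1 (by linarith)
    linarith
  have hhh : (h : ℝ) ≤ (h : ℝ) ^ 2 := by nlinarith
  have hnδ : 1 ≤ (n : ℝ) / δ := by
    rw [le_div_iff₀ hδ]
    linarith
  have hnδ0 : 0 < (n : ℝ) / δ := by linarith
  -- the size conditions
  have hcond : ∀ Λ : ℝ, 1 ≤ Λ → Λ ≤ Real.sqrt h + 1 →
      C0 * (Λ * (1 + Real.sqrt h) * n / δ) ^ 4 ≤ N := by
    intro Λ h1 h2
    refine le_trans ?_ hN
    have h3 : Λ * (1 + Real.sqrt h) ≤ 4 * (h : ℝ) ^ 2 := by
      have h4 : Λ * (1 + Real.sqrt h) ≤ (Real.sqrt h + 1) * (1 + Real.sqrt h) :=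
        mul_le_mul_of_nonneg_right h2 (by linarith)
      have h5 : (Real.sqrt h + 1) * (1 + Real.sqrt h) =
          Real.sqrt h * Real.sqrt h + 2 * Real.sqrt h + 1 := by ring
      rw [hss] at h5
      linarith
    have h4 : Λ * (1 + Real.sqrt h) * n / δ ≤ 4 * ((h : ℝ) ^ 2 * n / δ) := by
      have h5 : Λ * (1 + Real.sqrt h) * n / δ = Λ * (1 + Real.sqrt h) * (n / δ) := by ring
      have h6 : 4 * ((h : ℝ) ^ 2 * n / δ) = 4 * (h : ℝ) ^ 2 * (n / δ) := by ring
      rw [h5, h6]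
      exact mul_le_mul_of_nonneg_right h3 hnδ0.le
    have h5 : (Λ * (1 + Real.sqrt h) * n / δ) ^ 4 ≤ (4 * ((h : ℝ) ^ 2 * n / δ)) ^ 4 := by
      refine pow_le_pow_left₀ ?_ h4 4
      positivity
    have h6 : (4 * ((h : ℝ) ^ 2 * n / δ)) ^ 4 = 256 * ((h : ℝ) ^ 2 * n / δ) ^ 4 := by ring
    rw [h6] at h5
    have h7 := mul_le_mul_of_nonneg_left h5 (by linarith : (0 : ℝ) ≤ C0)
    linarith
  have hN1 : 1 ≤ N := by
    have h1 : (1 : ℝ) ≤ N := by
      refine le_trans ?_ hN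
      have h2 : 1 ≤ (h : ℝ) ^ 2 * n / δ := by
        have h3 : (h : ℝ) ^ 2 * n / δ = (h : ℝ) ^ 2 * (n / δ) := by ring
        rw [h3]
        have h4 : 1 * 1 ≤ (h : ℝ) ^ 2 * (n / δ) :=
          mul_le_mul (by linarith) hnδ (by norm_num) (by positivity)
        linarith
      have h3 : 1 ≤ ((h : ℝ) ^ 2 * n / δ) ^ 4 := one_le_pow₀ h2
      have h4 : 1 * 1 ≤ 256 * C0 * ((h : ℝ) ^ 2 * n / δ) ^ 4 :=
        mul_le_mul (by linarith) h3 (by norm_num) (by linarith)
      linarith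
    exact_mod_cast h1
  -- event 0
  have hyp0 : ChainHyp (sg n) n (fun v y => res b v y * (fun _ : Sph n => (1 : ℝ)) y) δ
      (1 + Real.sqrt h) := by
    refine ev_hyp hn hb hsq (fun _ => 1) continuous_const (fun _ => by simp) ?_
    intro v
    simpa using res_mean hn hb v
  have ev0 := hch (sg n) n N _ δ (1 + Real.sqrt h) 1 hn hδ hδ1 (by linarith) le_rfl hyp0
    (hcond 1 le_rfl (by linarith))
  -- events i
  have hypi : ∀ i : Fin h, ChainHyp (sg n) n
      (fun v y => res b v y * (fun y : Sph n => b i y / Real.sqrt h) y) δ (1 + Real.sqrt h) := by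
    intro i
    refine ev_hyp hn hb hsq (fun y => b i y / Real.sqrt h) ((b i).continuous.div_const _) ?_ ?_
    · intro y
      rw [abs_div, abs_of_pos (show 0 < Real.sqrt h by linarith), div_le_one (by linarith)]
      exact ev_bi hb i y
    · intro v
      have h1 : ∀ y, res b v y * (b i y / Real.sqrt h) = res b v y * b i y / Real.sqrt h :=
        fun y => by ring
      simp only [h1]
      rw [integral_div, res_orth hn hb v i, zero_div]
  have evi : ∀ i : Fin h, _ := fun i => hch (sg n) n N _ δ (1 + Real.sqrt h) (Real.sqrt h + 1) hn hδ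
    hδ1 (by linarith) (by linarith) (hypi i) (hcond _ (by linarith) le_rfl)
  have m1 := moment1 (sg n) N h hN1 hh (fun i => ⇑(b i)) (fun i => (b i).continuous.measurable)
    hb.orth hb.kern
  have m2 := moment2 (sg n) N h hN1 hh (fun i => ⇑(b i)) (fun i => (b i).continuous.measurable)
    hb.orth hb.kern
  set P := (Measure.pi fun _ : Fin N => sg n) with hP
  set A0 : Set (Fin N → Sph n) := {y | ∃ v : En n, ‖v‖ = 1 ∧
      C0 * 1 * Real.sqrt (N * (δ * Real.log (2 / δ))) <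
        |∑ j, (fun v y => res b v y * (fun _ : Sph n => (1 : ℝ)) y) v (y j)|} with hA0
  set A1 : Fin h → Set (Fin N → Sph n) := fun i => {y | ∃ v : En n, ‖v‖ = 1 ∧
      C0 * (Real.sqrt h + 1) * Real.sqrt (N * (δ * Real.log (2 / δ))) <
        |∑ j, (fun v y => res b v y * (fun y : Sph n => b i y / Real.sqrt h) y) v (y j)|} with hA1
  set A2 : Set (Fin N → Sph n) := {y | 8 * (h : ℝ) * N ≤
      ∑ i, (∑ j, (b i (y j) - ∫ z, b i z ∂(sg n))) ^ 2} with hA2
  set A3 : Set (Fin N → Sph n) := {y | 8 * (h : ℝ) ^ 2 * N ≤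
      ∑ i, ∑ k, (∑ j, (b i (y j) * b k (y j) - (if i = k then 1 else 0))) ^ 2} with hA3
  have q0 : P A0 ≤ ENNReal.ofReal (1 / 32) := by
    refine le_trans ev0 (ENNReal.ofReal_le_ofReal ?_)
    norm_num
  have q1 : ∀ i, P (A1 i) ≤ ENNReal.ofReal ((1 / 2 : ℝ) ^ (h + 1) / 16) := by
    intro i
    refine le_trans (evi i) (ENNReal.ofReal_le_ofReal ?_)
    have h1 : ((1 / 2 : ℝ)) ^ ((Real.sqrt h + 1) ^ 2 : ℝ) ≤ (1 / 2 : ℝ) ^ (((h + 1 : ℕ) : ℝ)) := by
      refine Real.rpow_le_rpow_of_exponent_ge (by norm_num) (by norm_num) ?_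
      push_cast
      have h2 : (Real.sqrt h + 1) ^ 2 = Real.sqrt h * Real.sqrt h + 2 * Real.sqrt h + 1 := by ring
      rw [h2, hss]
      linarith
    rw [Real.rpow_natCast] at h1
    linarith
  have q1' : P (⋃ i, A1 i) ≤ ENNReal.ofReal (1 / 32) := by
    refine le_trans (measure_iUnion_fintype_le _ _) ?_
    refine le_trans (Finset.sum_le_sum fun i _ => q1 i) ?_
    rw [Finset.sum_const, Finset.card_univ, Fintype.card_fin, nsmul_eq_mul,
      ← ENNReal.ofReal_natCast h, ← ENNReal.ofReal_mul (Nat.cast_nonneg h)]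
    apply ENNReal.ofReal_le_ofReal
    have h1 : (h : ℝ) ≤ 2 ^ h := by
      exact_mod_cast (Nat.lt_two_pow_self (n := h)).le
    have h2 : (h : ℝ) * (1 / 2 : ℝ) ^ h ≤ 1 := by
      have h3 : (2 : ℝ) ^ h * (1 / 2 : ℝ) ^ h = 1 := by
        rw [← mul_pow]
        norm_num
      have h4 : (h : ℝ) * (1 / 2 : ℝ) ^ h ≤ 2 ^ h * (1 / 2 : ℝ) ^ h :=
        mul_le_mul_of_nonneg_right h1 (by positivity)
      linarith
    rw [pow_succ]
    linarith
  have htot : P (A0 ∪ (⋃ i, A1 i) ∪ A2 ∪ A3) < 1 := by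
    have h1 : P (A0 ∪ (⋃ i, A1 i) ∪ A2 ∪ A3) ≤ ENNReal.ofReal (1 / 32) +
        ENNReal.ofReal (1 / 32) + ENNReal.ofReal (1 / 8) + ENNReal.ofReal (1 / 8) := by
      refine le_trans (measure_union_le _ _) (add_le_add ?_ m2)
      refine le_trans (measure_union_le _ _) (add_le_add ?_ m1)
      exact le_trans (measure_union_le _ _) (add_le_add q0 q1')
    refine lt_of_le_of_lt h1 ?_
    rw [← ENNReal.ofReal_add (by norm_num) (by norm_num),
      ← ENNReal.ofReal_add (by norm_num) (by norm_num),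
      ← ENNReal.ofReal_add (by norm_num) (by norm_num), ENNReal.ofReal_lt_one]
    norm_num
  obtain ⟨y, hy⟩ : ∃ y, y ∉ A0 ∪ (⋃ i, A1 i) ∪ A2 ∪ A3 := by
    by_contra hcon
    push Not at hcon
    have h1 : A0 ∪ (⋃ i, A1 i) ∪ A2 ∪ A3 = Set.univ := Set.eq_univ_of_forall hcon
    rw [h1, measure_univ] at htot
    exact lt_irrefl _ htot
  simp only [Set.mem_union, not_or, Set.mem_iUnion, not_exists] at hy
  obtain ⟨⟨⟨y0, y1⟩, y2⟩, y3⟩ := hy
  set R := Real.sqrt (N * (δ * Real.log (2 / δ))) with hR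
  have hR0 : 0 ≤ R := Real.sqrt_nonneg _
  have hCR : 0 ≤ C0 * R := mul_nonneg (by linarith) hR0
  refine ⟨y, ?_, ?_, ?_, ?_⟩
  · intro v hv
    have h1 : ¬ (C0 * 1 * R < |∑ j, res b v (y j)|) := by
      intro h2
      apply y0
      rw [hA0]
      refine ⟨v, hv, ?_⟩
      simpa using h2
    push Not at h1
    linarith
  · intro i v hv
    have h1 : ¬ (C0 * (Real.sqrt h + 1) * R < |∑ j, res b v (y j) * (b i (y j) / Real.sqrt h)|) := by
      intro h2
      exact y1 i ⟨v, hv, h2⟩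
    push Not at h1
    have h2 : ∑ j, b i (y j) * res b v (y j) =
        Real.sqrt h * ∑ j, res b v (y j) * (b i (y j) / Real.sqrt h) := by
      rw [Finset.mul_sum]
      refine Finset.sum_congr rfl fun j _ => ?_
      have : Real.sqrt h ≠ 0 := by linarith
      field_simp
    rw [h2, abs_mul, abs_of_nonneg (show 0 ≤ Real.sqrt h by linarith)]
    have h3 := mul_le_mul_of_nonneg_left h1 (show 0 ≤ Real.sqrt h by linarith)
    have h4 : Real.sqrt h * (C0 * (Real.sqrt h + 1) * R) =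
        (Real.sqrt h * Real.sqrt h + Real.sqrt h) * (C0 * R) := by ring
    rw [h4, hss] at h3
    have h5 : ((h : ℝ) + Real.sqrt h) * (C0 * R) ≤ (2 * h) * (C0 * R) :=
      mul_le_mul_of_nonneg_right (by linarith) hCR
    have h6 : 0 ≤ (h : ℝ) * (C0 * R) := mul_nonneg (by linarith) hCR
    have h7 : 256 * C0 * h * R = 256 * ((h : ℝ) * (C0 * R)) := by ring
    rw [h7]
    linarith
  · rw [hA2, Set.mem_ofPred_eq, not_le] at y2
    exact y2.le
  · rw [hA3, Set.mem_ofPred_eq, not_le] at y3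
    exact y3.le

end Pool.Agent.Helper47.UB
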