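import Pool.Agent.Helper47.UB.Marg

/-!
# The residuals

All functions are continuous on a compact space. For continuous `g` put `Π g = ∑ (∫ g b_i) b_i`. Then
`∫ (g - Πg) b_i = 0` (`orth`), Bessel `∑ (∫ g b_i)² ≤ ∫ g²`, `∫ (g - Πg)² = ∫ g² - ∑ (∫ g b_i)² ≤ ∫ (g - p)²` for
every `p = ∑ α_i b_i`, `|Πg(y)| ≤ (∑ (∫ g b_i)²)^{1/2} (∑ b_i(y)²)^{1/2} ≤ √h (∫ g²)^{1/2}` (`kern`).
`res b v - res b w = g - Πg` with `g = |⟨v,·⟩| - |⟨w,·⟩|`, `|g| ≤ |⟨v-w,·⟩| ≤ ‖v-w‖`, `∫ g² ≤ ‖v-w‖²/n` (`sg_sq`).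
`res_mean`: the constant `1` is a combination of the `b_i` (`ridge` with `p = 1`).
`res_expand`: definition and linearity; `∫ Π = ∑ α_i ∫ b_i`.
-/

open MeasureTheory Metric
open scoped RealInnerProductSpace ENNReal

namespace Pool.Agent.Helper47.UB

variable {n D h : ℕ} {b : Fin h → C(Sph n, ℝ)}

private theorem fam_g_cont (v : En n) : Continuous (fun y : Sph n => |⟪v, (y : En n)⟫|) :=
  (continuous_const.inner continuous_subtype_val).abs

private theorem fam_int (hn : 1 ≤ n) {f : Sph n → ℝ} (hf : Continuous f) :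
    Integrable f (sg n) := by
  have := sg_prob n hn
  exact hf.integrable_of_hasCompactSupport (HasCompactSupport.of_compactSpace f)

private theorem fam_mul (hn : 1 ≤ n) {f g : Sph n → ℝ} (hf : Continuous f) (hg : Continuous g) :
    Integrable (fun y => f y * g y) (sg n) := fam_int hn (hf.mul hg)

/-- the projection to the span -/
private noncomputable def pr (b : Fin h → C(Sph n, ℝ)) (g : Sph n → ℝ) (y : Sph n) : ℝ :=
  ∑ i, (∫ z : Sph n, g z * b i z ∂(sg n)) * b i y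

private theorem comb_cont (b : Fin h → C(Sph n, ℝ)) (α : Fin h → ℝ) :
    Continuous (fun y => ∑ i, α i * b i y) :=
  continuous_finsetSum _ fun i _ => continuous_const.mul (b i).continuous

private theorem pr_cont (b : Fin h → C(Sph n, ℝ)) (g : Sph n → ℝ) : Continuous (pr b g) :=
  comb_cont b _

private theorem comb_int (hn : 1 ≤ n) (hb : OB n D b) (α : Fin h → ℝ) (j : Fin h) :
    ∫ y, (∑ i, α i * b i y) * b j y ∂(sg n) = α j := by
  have h1 : ∀ y, (∑ i, α i * b i y) * b j y = ∑ i, α i * (b i y * b j y) := by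
    intro y
    rw [Finset.sum_mul]
    exact Finset.sum_congr rfl fun i _ => by ring
  simp only [h1]
  rw [integral_finsetSum _ fun i _ =>
    (fam_mul hn (b i).continuous (b j).continuous).const_mul (α i)]
  have h2 : ∀ i, ∫ y, α i * (b i y * b j y) ∂(sg n) = α i * (if i = j then 1 else 0) := by
    intro i
    rw [integral_const_mul, hb.orth i j]
  simp only [h2]
  simp

private theorem fam_orth (hn : 1 ≤ n) (hb : OB n D b) {g : Sph n → ℝ} (hg : Continuous g)
    (i : Fin h) : ∫ y, (g y - pr b g y) * b i y ∂(sg n) = 0 := by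
  have h1 : ∀ y, (g y - pr b g y) * b i y = g y * b i y - pr b g y * b i y := fun y => by ring
  simp only [h1]
  rw [integral_sub (fam_mul hn hg (b i).continuous) (fam_mul hn (pr_cont b g) (b i).continuous)]
  have h2 := comb_int hn hb (fun i => ∫ z : Sph n, g z * b i z ∂(sg n)) i
  have h3 : ∫ y, pr b g y * b i y ∂(sg n) = ∫ z : Sph n, g z * b i z ∂(sg n) := h2
  rw [h3, sub_self]

private theorem fam_pyth (hn : 1 ≤ n) (hb : OB n D b) {g : Sph n → ℝ} (hg : Continuous g)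
    (α : Fin h → ℝ) : ∫ y, (g y - ∑ i, α i * b i y) ^ 2 ∂(sg n) =
      ∫ y, (g y - pr b g y) ^ 2 ∂(sg n) +
        ∑ i, ((∫ z : Sph n, g z * b i z ∂(sg n)) - α i) ^ 2 := by
  obtain ⟨β, hβ⟩ : ∃ β : Fin h → ℝ, ∀ i, β i = (∫ z : Sph n, g z * b i z ∂(sg n)) - α i :=
    ⟨_, fun _ => rfl⟩
  simp only [← hβ]
  have hR : Continuous (fun y => g y - pr b g y) := hg.sub (pr_cont b g)
  have hC := comb_cont b β
  have e1 : ∀ y, (g y - ∑ i, α i * b i y) ^ 2 = (g y - pr b g y) ^ 2 +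
      ((∑ i, (2 * β i) * ((g y - pr b g y) * b i y)) +
        ∑ i, β i * ((∑ j, β j * b j y) * b i y)) := by
    intro y
    have e2 : ∑ i, α i * b i y = pr b g y - ∑ i, β i * b i y := by
      unfold pr
      rw [← Finset.sum_sub_distrib]
      refine Finset.sum_congr rfl fun i _ => ?_
      rw [hβ]
      ring
    have e3 : ∑ i, (2 * β i) * ((g y - pr b g y) * b i y) =
        2 * (g y - pr b g y) * ∑ i, β i * b i y := by
      rw [Finset.mul_sum]
      exact Finset.sum_congr rfl fun i _ => by ring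
    have e4 : ∑ i, β i * ((∑ j, β j * b j y) * b i y) =
        (∑ j, β j * b j y) * ∑ i, β i * b i y := by
      rw [Finset.mul_sum]
      exact Finset.sum_congr rfl fun i _ => by ring
    rw [e2, e3, e4]
    ring
  simp only [e1]
  have i1 : Integrable (fun y => (g y - pr b g y) ^ 2) (sg n) := fam_int hn (hR.pow 2)
  have i2 : ∀ i : Fin h, Integrable (fun y => (2 * β i) * ((g y - pr b g y) * b i y)) (sg n) :=
    fun i => (fam_mul hn hR (b i).continuous).const_mul _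
  have i3 : ∀ i : Fin h, Integrable (fun y => β i * ((∑ j, β j * b j y) * b i y)) (sg n) :=
    fun i => (fam_mul hn hC (b i).continuous).const_mul _
  have i4 : Integrable (fun y => ∑ i, (2 * β i) * ((g y - pr b g y) * b i y)) (sg n) :=
    integrable_finsetSum _ fun i _ => i2 i
  have i5 : Integrable (fun y => ∑ i, β i * ((∑ j, β j * b j y) * b i y)) (sg n) :=
    integrable_finsetSum _ fun i _ => i3 i
  have i6 : Integrable (fun y => (∑ i, (2 * β i) * ((g y - pr b g y) * b i y)) +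
      ∑ i, β i * ((∑ j, β j * b j y) * b i y)) (sg n) := i4.add i5
  rw [integral_add i1 i6, integral_add i4 i5,
    integral_finsetSum _ (fun i _ => i2 i), integral_finsetSum _ (fun i _ => i3 i)]
  have k1 : ∀ i : Fin h, ∫ y, (2 * β i) * ((g y - pr b g y) * b i y) ∂(sg n) = 0 := by
    intro i
    rw [integral_const_mul, fam_orth hn hb hg i, mul_zero]
  have k2 : ∀ i : Fin h, ∫ y, β i * ((∑ j, β j * b j y) * b i y) ∂(sg n) = β i ^ 2 := by
    intro i
    rw [integral_const_mul, comb_int hn hb β i]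
    ring
  simp only [k1, k2, Finset.sum_const_zero, zero_add]

private theorem fam_bessel (hn : 1 ≤ n) (hb : OB n D b) {g : Sph n → ℝ} (hg : Continuous g) :
    ∫ y, g y ^ 2 ∂(sg n) = ∫ y, (g y - pr b g y) ^ 2 ∂(sg n) +
        ∑ i, (∫ z : Sph n, g z * b i z ∂(sg n)) ^ 2 := by
  have h1 := fam_pyth hn hb hg (fun _ => 0)
  simpa using h1

private theorem fam_kern (hn : 1 ≤ n) (hb : OB n D b) {g : Sph n → ℝ} (hg : Continuous g)
    (y : Sph n) : |pr b g y| ≤ Real.sqrt h * Real.sqrt (∫ y, g y ^ 2 ∂(sg n)) := by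
  rw [← Real.sqrt_mul (Nat.cast_nonneg h)]
  apply Real.abs_le_sqrt
  have h1 := Finset.sum_mul_sq_le_sq_mul_sq Finset.univ
    (fun i => ∫ z : Sph n, g z * b i z ∂(sg n)) (fun i => b i y)
  have h2 := fam_bessel hn hb hg
  have h3 : 0 ≤ ∫ y, (g y - pr b g y) ^ 2 ∂(sg n) := integral_nonneg fun _ => sq_nonneg _
  rw [hb.kern y] at h1
  calc pr b g y ^ 2 ≤ (∑ i, (∫ z : Sph n, g z * b i z ∂(sg n)) ^ 2) * h := h1
    _ ≤ (∫ y, g y ^ 2 ∂(sg n)) * h :=
        mul_le_mul_of_nonneg_right (by linarith) (Nat.cast_nonneg h)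
    _ = h * ∫ y, g y ^ 2 ∂(sg n) := mul_comm _ _

private theorem res_eq (v : En n) (y : Sph n) :
    res b v y = |⟪v, (y : En n)⟫| - pr b (fun z => |⟪v, (z : En n)⟫|) y := rfl

private theorem res_sub (hn : 1 ≤ n) (v w : En n) (y : Sph n) :
    res b v y - res b w y = (|⟪v, (y : En n)⟫| - |⟪w, (y : En n)⟫|) -
      pr b (fun z => |⟪v, (z : En n)⟫| - |⟪w, (z : En n)⟫|) y := by
  have h1 : pr b (fun z => |⟪v, (z : En n)⟫| - |⟪w, (z : En n)⟫|) y =
      pr b (fun z => |⟪v, (z : En n)⟫|) y - pr b (fun z => |⟪w, (z : En n)⟫|) y := by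
    unfold pr
    rw [← Finset.sum_sub_distrib]
    refine Finset.sum_congr rfl fun i _ => ?_
    rw [← sub_mul, ← integral_sub (fam_mul hn (fam_g_cont v) (b i).continuous)
      (fam_mul hn (fam_g_cont w) (b i).continuous)]
    congr 2
    funext z
    ring
  rw [res_eq, res_eq, h1]
  ring

private theorem g_diff (v w : En n) (y : Sph n) :
    |(|⟪v, (y : En n)⟫| - |⟪w, (y : En n)⟫|)| ≤ |⟪v - w, (y : En n)⟫| := by
  rw [inner_sub_left]
  exact abs_abs_sub_abs_le _ _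

private theorem g_diff' (v w : En n) (y : Sph n) :
    |(|⟪v, (y : En n)⟫| - |⟪w, (y : En n)⟫|)| ≤ ‖v - w‖ := by
  refine (g_diff v w y).trans ((abs_real_inner_le_norm _ _).trans ?_)
  have : ‖(y : En n)‖ = 1 := by
    simp
  rw [this, mul_one]

private theorem g_sq (hn : 1 ≤ n) (v w : En n) :
    ∫ y : Sph n, (|⟪v, (y : En n)⟫| - |⟪w, (y : En n)⟫|) ^ 2 ∂(sg n) ≤ ‖v - w‖ ^ 2 / n := by
  rw [← sg_sq n hn (v - w)]
  refine integral_mono (fam_int hn (((fam_g_cont v).sub (fam_g_cont w)).pow 2))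
    (fam_int hn ((continuous_const.inner continuous_subtype_val).pow 2)) fun y => ?_
  exact sq_le_sq.2 (g_diff v w y)

theorem res_cont (b : Fin h → C(Sph n, ℝ)) (v : En n) : Continuous (res b v) :=
  (fam_g_cont v).sub (pr_cont b _)

theorem res_orth (hn : 1 ≤ n) (hb : OB n D b) (v : En n) (i : Fin h) :
    ∫ y, res b v y * b i y ∂(sg n) = 0 :=
  fam_orth hn hb (fam_g_cont v) i

theorem res_mean (hn : 1 ≤ n) (hb : OB n D b) (v : En n) : ∫ y, res b v y ∂(sg n) = 0 := by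
  obtain ⟨α, hα⟩ := hb.ridge 0 1 (by simp)
  have h1 : ∀ y, res b v y = ∑ i, α i * (res b v y * b i y) := by
    intro y
    have h2 := hα y
    rw [Polynomial.eval_one] at h2
    calc res b v y = res b v y * 1 := (mul_one _).symm
      _ = res b v y * ∑ i, α i * b i y := by rw [h2]
      _ = ∑ i, α i * (res b v y * b i y) := by
        rw [Finset.mul_sum]
        exact Finset.sum_congr rfl fun i _ => by ring
  rw [integral_congr_ae (Filter.Eventually.of_forall h1), integral_finsetSum _ fun i _ =>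
    (fam_mul hn (res_cont b v) (b i).continuous).const_mul (α i)]
  refine Finset.sum_eq_zero fun i _ => ?_
  rw [integral_const_mul, res_orth hn hb v i, mul_zero]

theorem res_diff (hn : 1 ≤ n) (hb : OB n D b) (v w : En n) :
    ∫ y, (res b v y - res b w y) ^ 2 ∂(sg n) ≤ ‖v - w‖ ^ 2 / n := by
  simp only [res_sub hn v w]
  have h1 := fam_bessel hn hb (g := fun y : Sph n => |⟪v, (y : En n)⟫| - |⟪w, (y : En n)⟫|)
    ((fam_g_cont v).sub (fam_g_cont w))
  have h2 : 0 ≤ ∑ i, (∫ z : Sph n, (|⟪v, (z : En n)⟫| - |⟪w, (z : En n)⟫|) * b i z ∂(sg n)) ^ 2 :=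
    Finset.sum_nonneg fun _ _ => sq_nonneg _
  have h3 := g_sq hn v w
  linarith

theorem res_lip (hn : 1 ≤ n) (hb : OB n D b) (v w : En n) (y : Sph n) :
    |res b v y - res b w y| ≤ (1 + Real.sqrt h) * ‖v - w‖ := by
  rw [res_sub hn v w]
  have h1 := fam_kern hn hb ((fam_g_cont v).sub (fam_g_cont w)) y
  have h2 : Real.sqrt (∫ y : Sph n, (|⟪v, (y : En n)⟫| - |⟪w, (y : En n)⟫|) ^ 2 ∂(sg n)) ≤
      ‖v - w‖ := by
    rw [Real.sqrt_le_left (norm_nonneg _)]
    refine (g_sq hn v w).trans ?_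
    exact div_le_self (sq_nonneg _) (by exact_mod_cast hn)
  have h3 := g_diff' v w y
  have h4 := abs_sub (|⟪v, (y : En n)⟫| - |⟪w, (y : En n)⟫|)
    (pr b (fun z => |⟪v, (z : En n)⟫| - |⟪w, (z : En n)⟫|) y)
  have h5 : Real.sqrt h * Real.sqrt (∫ y : Sph n,
      (|⟪v, (y : En n)⟫| - |⟪w, (y : En n)⟫|) ^ 2 ∂(sg n)) ≤ Real.sqrt h * ‖v - w‖ :=
    mul_le_mul_of_nonneg_left h2 (Real.sqrt_nonneg _)
  have h6 : |pr b (fun z => |⟪v, (z : En n)⟫| - |⟪w, (z : En n)⟫|) y| ≤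
      Real.sqrt h * Real.sqrt (∫ y : Sph n,
        (|⟪v, (y : En n)⟫| - |⟪w, (y : En n)⟫|) ^ 2 ∂(sg n)) := h1
  linarith

theorem res_bound (hn : 1 ≤ n) (hb : OB n D b) (v : En n) (y : Sph n) :
    |res b v y| ≤ (1 + Real.sqrt h) * ‖v‖ := by
  have h1 := res_lip hn hb v 0 y
  have h2 : res b 0 y = 0 := by
    rw [res_eq]
    unfold pr
    simp
  rwa [h2, sub_zero, sub_zero] at h1

theorem res_sq (hn : 1 ≤ n) (hb : OB n D b) (v : En n) (p : Polynomial ℝ) (hp : p.natDegree ≤ D) :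
    ∫ y, res b v y ^ 2 ∂(sg n) ≤
      ∫ y : Sph n, (|⟪v, (y : En n)⟫| - p.eval ⟪v, (y : En n)⟫) ^ 2 ∂(sg n) := by
  obtain ⟨α, hα⟩ := hb.ridge v p hp
  simp only [hα]
  rw [fam_pyth hn hb (fam_g_cont v) α]
  have h2 : 0 ≤ ∑ i, ((∫ z : Sph n, |⟪v, (z : En n)⟫| * b i z ∂(sg n)) - α i) ^ 2 :=
    Finset.sum_nonneg fun _ _ => sq_nonneg _
  have h3 : ∫ y, res b v y ^ 2 ∂(sg n) = ∫ y : Sph n, (|⟪v, (y : En n)⟫| -
    pr b (fun z => |⟪v, (z : En n)⟫|) y) ^ 2 ∂(sg n) := rfl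
  rw [h3]
  linarith

/-- Exactness of a rule on the system leaves only the residual. -/
theorem res_expand (hn : 1 ≤ n) (hb : OB n D b) {N : ℕ} (y : Fin N → Sph n) (w : Fin N → ℝ)
    (hw : ∀ i, ∑ j, w j * b i (y j) = ∫ z, b i z ∂(sg n)) (v : En n) :
    ∑ j, w j * |⟪v, (y j : En n)⟫| - ∫ z : Sph n, |⟪v, (z : En n)⟫| ∂(sg n)
      = ∑ j, w j * res b v (y j) := by
  obtain ⟨c, hc⟩ : ∃ c : Fin h → ℝ, ∀ i, c i = ∫ z : Sph n, |⟪v, (z : En n)⟫| * b i z ∂(sg n) :=
    ⟨_, fun _ => rfl⟩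
  have h0 : ∀ z, res b v z = |⟪v, (z : En n)⟫| - ∑ i, c i * b i z := by
    intro z
    unfold res
    simp only [hc]
  have h1 := res_mean hn hb v
  simp only [h0] at h1 ⊢
  rw [integral_sub (fam_int hn (fam_g_cont v)) (fam_int hn (comb_cont b c)),
    integral_finsetSum _ fun i _ => (fam_int hn (b i).continuous).const_mul (c i)] at h1
  simp only [integral_const_mul] at h1
  have h2 : ∑ j, w j * (|⟪v, (y j : En n)⟫| - ∑ i, c i * b i (y j)) =
      ∑ j, w j * |⟪v, (y j : En n)⟫| - ∑ i, c i * ∑ j, w j * b i (y j) := by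
    simp only [mul_sub, Finset.sum_sub_distrib, Finset.mul_sum]
    rw [Finset.sum_comm (s := Finset.univ) (t := Finset.univ)
      (f := fun j i => w j * (c i * b i (y j)))]
    congr 1
    exact Finset.sum_congr rfl fun i _ => Finset.sum_congr rfl fun j _ => by ring
  rw [h2]
  simp only [hw]
  linarith

end Pool.Agent.Helper47.UB
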