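import Pool.Agent.Helper47.UB.Design

/-!
# The upper bound in the super-polynomial range

`C` from `design`. `n ≥ 2`, `κ = log(1/ε)/log n ≥ A`, so `ε = n^{-κ}`. `D = ⌊κ/24⌋₊` (`≥ 1`, `≥ κ/48`, `≤ κ/24`),
`N = ⌈C² n (D^{-3/2} log(2D))/ε²⌉₊`, so that `C √(n D^{-3/2} log(2D)/N) ≤ ε`, and
`N ≤ 2 C² n D^{-3/2} log(2D) ε^{-2} ≤ C' (n/ε²) (log κ/κ^{3/2})` (the ceiling is harmless as
`n D^{-3/2} log(2D)/ε² ≥ 1`). The condition of `design`: `(n+1)^{8D} ≤ n^{16D}` (`n + 1 ≤ n²`),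
`D^8 ≤ 2^{8D} ≤ n^{8D}`, so `C (n+1)^{8D} n^4 D^6 ≤ C n^{24D+4}/D²`, and `N ≥ C² n D^{-3/2} log 2 · n^{2κ}`;
`2κ ≥ 48 D ≥ 24 D + 24 D`, and `24 D ≥ κ/2 ≥ 4 + c` where `n^c ≥ 2^c ≥ C/log 2` for `A` large.
-/

open MeasureTheory Metric
open scoped RealInnerProductSpace ENNReal

namespace Pool.Agent.Helper47.UB

theorem upper_superpoly : ∃ A C : ℝ, 3 ≤ A ∧ 0 < C ∧ ∀ (n : ℕ) (ε : ℝ), 2 ≤ n → 0 < ε →
    ε ≤ (n : ℝ) ^ (-A) → ∃ (N : ℕ) (x : Fin N → En n),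
      (∀ v : En n, (1 - ε) * ‖v‖ ≤ ∑ j, |⟪v, x j⟫| ∧ ∑ j, |⟪v, x j⟫| ≤ (1 + ε) * ‖v‖) ∧
      (N : ℝ) ≤ C * (n / ε ^ 2) * (Real.log (Real.log (1 / ε) / Real.log n) /
        (Real.log (1 / ε) / Real.log n) ^ (3 / 2 : ℝ)) := by
  obtain ⟨C, hC1, hdes⟩ := design
  refine ⟨24, 2 * C ^ 2 * 48 ^ (3 / 2 : ℝ), by norm_num, by positivity, ?_⟩
  intro n ε hn hε0 hεA
  have hn2 : (2 : ℝ) ≤ (n : ℝ) := by exact_mod_cast hn
  have hn0 : (0 : ℝ) < (n : ℝ) := by linarith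
  have hn1 : (1 : ℝ) ≤ (n : ℝ) := by linarith
  have hlogn : 0 < Real.log (n : ℝ) := Real.log_pos (by linarith)
  set κ : ℝ := Real.log (1 / ε) / Real.log n with hκ
  have hκlog : κ * Real.log n = Real.log (1 / ε) := by
    rw [hκ]; field_simp
  have hεκ : 1 / ε = (n : ℝ) ^ κ := by
    rw [Real.rpow_def_of_pos hn0, mul_comm, hκlog, Real.exp_log (by positivity)]
  have hκ24 : 24 ≤ κ := by
    have h1 : (n : ℝ) ^ (24 : ℝ) ≤ (n : ℝ) ^ κ := by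
      rw [← hεκ]
      rw [le_div_iff₀ hε0]
      calc (n : ℝ) ^ (24 : ℝ) * ε ≤ (n : ℝ) ^ (24 : ℝ) * (n : ℝ) ^ (-(24 : ℝ)) :=
            mul_le_mul_of_nonneg_left hεA (by positivity)
        _ = 1 := by rw [← Real.rpow_add hn0]; norm_num
    exact (Real.rpow_le_rpow_left_iff (by linarith)).1 h1
  have hκ0 : 0 < κ := by linarith
  -- the degree
  set D : ℕ := ⌊κ / 24⌋₊ with hD
  have hDle : (D : ℝ) ≤ κ / 24 := Nat.floor_le (by positivity)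
  have hD1 : 1 ≤ D := by
    rw [hD, Nat.one_le_floor_iff]
    linarith
  have hD1' : (1 : ℝ) ≤ (D : ℝ) := by exact_mod_cast hD1
  have hDge : κ / 48 ≤ (D : ℝ) := by
    have h1 : κ / 24 < (D : ℝ) + 1 := Nat.lt_floor_add_one _
    linarith
  have hD0 : (0 : ℝ) < (D : ℝ) := by linarith
  -- the quantity
  set B : ℝ := (D : ℝ) ^ (-(3 / 2) : ℝ) * Real.log (2 * D) with hB
  have hlog2D : 1 / 2 ≤ Real.log (2 * (D : ℝ)) := by
    have h1 : Real.log 2 ≤ Real.log (2 * (D : ℝ)) :=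
      Real.log_le_log (by norm_num) (by linarith)
    have h2 := Real.log_two_gt_d9
    linarith
  have hDr : 0 < (D : ℝ) ^ (-(3 / 2) : ℝ) := Real.rpow_pos_of_pos hD0 _
  have hB0 : 0 < B := mul_pos hDr (by linarith)
  have hε2 : 1 / ε ^ 2 = (n : ℝ) ^ (2 * κ) := by
    have h1 : 1 / ε ^ 2 = (1 / ε) ^ 2 := by field_simp
    rw [h1, hεκ, ← Real.rpow_natCast, ← Real.rpow_mul hn0.le]
    congr 1
    push_cast
    ring
  have hε20 : 0 < 1 / ε ^ 2 := by positivity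
  -- lower bound of C² n B / ε²
  have hDpow : (D : ℝ) ^ (2 : ℕ) ≤ (n : ℝ) ^ D * (n : ℝ) ^ D := by
    have h1 : (D : ℝ) ≤ (n : ℝ) ^ D := by
      have h2 : D < 2 ^ D := Nat.lt_two_pow_self
      have h3 : (D : ℝ) ≤ 2 ^ D := by exact_mod_cast h2.le
      exact h3.trans (pow_le_pow_left₀ (by norm_num) hn2 _)
    nlinarith
  have hcond : C * (((n : ℝ) + 1) ^ (8 * D) * (n : ℝ) ^ 4 * (D : ℝ) ^ 6)
      ≤ C ^ 2 * n * B / ε ^ 2 := by
    have h1 : ((n : ℝ) + 1) ^ (8 * D) ≤ (n : ℝ) ^ (16 * D) := by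
      have h2 : (n : ℝ) + 1 ≤ (n : ℝ) ^ 2 := by nlinarith
      calc ((n : ℝ) + 1) ^ (8 * D) ≤ ((n : ℝ) ^ 2) ^ (8 * D) :=
            pow_le_pow_left₀ (by linarith) h2 _
        _ = (n : ℝ) ^ (16 * D) := by rw [← pow_mul]; congr 1; ring
    have h3 : (D : ℝ) ^ 8 ≤ (n : ℝ) ^ (8 * D) := by
      have h4 : (D : ℝ) ≤ (n : ℝ) ^ D := by
        have h2 : D < 2 ^ D := Nat.lt_two_pow_self
        have h3 : (D : ℝ) ≤ 2 ^ D := by exact_mod_cast h2.le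
        exact h3.trans (pow_le_pow_left₀ (by norm_num) hn2 _)
      calc (D : ℝ) ^ 8 ≤ ((n : ℝ) ^ D) ^ 8 := pow_le_pow_left₀ hD0.le h4 _
        _ = (n : ℝ) ^ (8 * D) := by rw [← pow_mul]; congr 1; ring
    -- main comparison in real powers
    have h5 : (n : ℝ) ^ (24 * D + 4) ≤ (n : ℝ) ^ (2 * κ) := by
      rw [← Real.rpow_natCast]
      refine Real.rpow_le_rpow_of_exponent_le hn1 ?_
      push_cast
      nlinarith
    have h6 : (D : ℝ) ^ (-(2 : ℝ)) ≤ (D : ℝ) ^ (-(3 / 2) : ℝ) :=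
      Real.rpow_le_rpow_of_exponent_le hD1' (by norm_num)
    have h7 : (D : ℝ) ^ 6 = (D : ℝ) ^ 8 * (D : ℝ) ^ (-(2 : ℝ)) := by
      rw [← Real.rpow_natCast (D : ℝ) 8, ← Real.rpow_add hD0, ← Real.rpow_natCast (D : ℝ) 6]
      norm_num
    have h8 : ((n : ℝ) + 1) ^ (8 * D) * (n : ℝ) ^ 4 * (D : ℝ) ^ 6
        ≤ (n : ℝ) ^ (24 * D + 4) * (D : ℝ) ^ (-(3 / 2) : ℝ) := by
      rw [h7]
      calc ((n : ℝ) + 1) ^ (8 * D) * (n : ℝ) ^ 4 * ((D : ℝ) ^ 8 * (D : ℝ) ^ (-(2 : ℝ)))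
          ≤ (n : ℝ) ^ (16 * D) * (n : ℝ) ^ 4 * ((n : ℝ) ^ (8 * D) * (D : ℝ) ^ (-(3 / 2) : ℝ)) := by
            refine mul_le_mul (mul_le_mul_of_nonneg_right h1 (by positivity))
              (mul_le_mul h3 h6 (by positivity) (by positivity)) (by positivity) (by positivity)
        _ = (n : ℝ) ^ (24 * D + 4) * (D : ℝ) ^ (-(3 / 2) : ℝ) := by
            rw [show 24 * D + 4 = 16 * D + 4 + 8 * D by ring, pow_add, pow_add]
            ring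
    have h9 : C ^ 2 * n * B / ε ^ 2 = C ^ 2 * n * B * (n : ℝ) ^ (2 * κ) := by
      rw [← hε2]; ring
    rw [h9]
    have h10 : C ≤ C ^ 2 := by nlinarith
    calc C * (((n : ℝ) + 1) ^ (8 * D) * (n : ℝ) ^ 4 * (D : ℝ) ^ 6)
        ≤ C ^ 2 * ((n : ℝ) ^ (2 * κ) * (D : ℝ) ^ (-(3 / 2) : ℝ)) := by
          refine mul_le_mul h10 (h8.trans (mul_le_mul_of_nonneg_right h5 hDr.le)) (by positivity)
            (by positivity)
      _ = C ^ 2 * 1 * ((D : ℝ) ^ (-(3 / 2) : ℝ) * 1) * (n : ℝ) ^ (2 * κ) := by ring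
      _ ≤ C ^ 2 * n * B * (n : ℝ) ^ (2 * κ) := by
          refine mul_le_mul_of_nonneg_right ?_ (by positivity)
          rw [hB]
          have h11 : (1 : ℝ) ≤ n * Real.log (2 * D) := by nlinarith
          have h12 : C ^ 2 * 1 * ((D : ℝ) ^ (-(3 / 2) : ℝ) * 1)
              = C ^ 2 * (D : ℝ) ^ (-(3 / 2) : ℝ) * 1 := by ring
          have h13 : C ^ 2 * n * ((D : ℝ) ^ (-(3 / 2) : ℝ) * Real.log (2 * D))
              = C ^ 2 * (D : ℝ) ^ (-(3 / 2) : ℝ) * (n * Real.log (2 * D)) := by ring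
          rw [h12, h13]
          exact mul_le_mul_of_nonneg_left h11 (by positivity)
  set M : ℝ := C ^ 2 * n * B / ε ^ 2 with hM
  have hM1 : 1 ≤ M := by
    refine le_trans ?_ hcond
    have e1 : (1 : ℝ) ≤ ((n : ℝ) + 1) ^ (8 * D) := one_le_pow₀ (by linarith)
    have e2 : (1 : ℝ) ≤ (n : ℝ) ^ 4 := one_le_pow₀ hn1
    have e3 : (1 : ℝ) ≤ (D : ℝ) ^ 6 := one_le_pow₀ hD1'
    have e4 : (1 : ℝ) ≤ ((n : ℝ) + 1) ^ (8 * D) * (n : ℝ) ^ 4 := one_le_mul_of_one_le_of_one_le e1 e2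
    have e5 := one_le_mul_of_one_le_of_one_le e4 e3
    exact one_le_mul_of_one_le_of_one_le hC1 e5
  set N : ℕ := ⌈M⌉₊ with hN
  have hMN : M ≤ N := Nat.le_ceil _
  have hNM : (N : ℝ) ≤ 2 * M := by
    have := Nat.ceil_lt_add_one (show 0 ≤ M by linarith)
    linarith
  obtain ⟨x, hx⟩ := hdes n D N (by omega) hD1 (hcond.trans hMN)
  refine ⟨N, x, ?_, ?_⟩
  · have hN0 : (0 : ℝ) < (N : ℝ) := by linarith
    have herr : C * Real.sqrt (n * B / N) ≤ ε := by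
      have h1 : n * B / N ≤ (ε / C) ^ 2 := by
        rw [div_le_iff₀ hN0]
        have h2 : (ε / C) ^ 2 * M = n * B := by
          rw [hM]; field_simp
        rw [← h2]
        exact mul_le_mul_of_nonneg_left hMN (by positivity)
      calc C * Real.sqrt (n * B / N) ≤ C * Real.sqrt ((ε / C) ^ 2) :=
            mul_le_mul_of_nonneg_left (Real.sqrt_le_sqrt h1) (by linarith)
        _ = C * (ε / C) := by rw [Real.sqrt_sq (by positivity)]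
        _ = ε := by field_simp
    intro v
    have h1 := hx v
    have h2 : C * Real.sqrt (n * ((D : ℝ) ^ (-(3 / 2) : ℝ) * Real.log (2 * D)) / N) * ‖v‖
        ≤ ε * ‖v‖ := mul_le_mul_of_nonneg_right herr (norm_nonneg v)
    have h3 := abs_le.1 (h1.trans h2)
    constructor
    · linarith [h3.1]
    · linarith [h3.2]
  · refine hNM.trans ?_
    have h1 : B ≤ 48 ^ (3 / 2 : ℝ) * (Real.log κ / κ ^ (3 / 2 : ℝ)) := by
      have h2 : (D : ℝ) ^ (-(3 / 2) : ℝ) ≤ (κ / 48) ^ (-(3 / 2) : ℝ) :=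
        Real.rpow_le_rpow_of_nonpos (by positivity) hDge (by norm_num)
      have h3 : (κ / 48) ^ (-(3 / 2) : ℝ) = 48 ^ (3 / 2 : ℝ) / κ ^ (3 / 2 : ℝ) := by
        rw [Real.div_rpow hκ0.le (by norm_num), Real.rpow_neg hκ0.le, Real.rpow_neg (by norm_num)]
        field_simp
      have h4 : Real.log (2 * (D : ℝ)) ≤ Real.log κ :=
        Real.log_le_log (by positivity) (by linarith)
      calc B ≤ (κ / 48) ^ (-(3 / 2) : ℝ) * Real.log κ :=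
            mul_le_mul h2 h4 (by linarith) (by positivity)
        _ = 48 ^ (3 / 2 : ℝ) * (Real.log κ / κ ^ (3 / 2 : ℝ)) := by rw [h3]; ring
    calc 2 * M = 2 * C ^ 2 * (n / ε ^ 2) * B := by rw [hM]; ring
      _ ≤ 2 * C ^ 2 * (n / ε ^ 2) * (48 ^ (3 / 2 : ℝ) * (Real.log κ / κ ^ (3 / 2 : ℝ))) :=
          mul_le_mul_of_nonneg_left h1 (by positivity)
      _ = _ := by ring

end Pool.Agent.Helper47.UB
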