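import Pool.Agent.Helper47.UB.Polar

/-!
# One-dimensional marginals of the surface measure

All from `polar`. `sg_sq`: `F = ofReal (s²)` gives `1 = n ∫ ⟨v,y⟩²` for unit `v`; scale.
`sg_abs`: `F = ofReal |s|`: `√(2/π) = (∫ r dτ) ∫ |⟨v,y⟩|`, the same value for all unit `v`, and
`∫ r dτ ≤ (∫ r² dτ)^{1/2} = √n`; `√(2/π) ≥ 1/2`.
`sg_dist`: `∫ (|s| - q s)² dγ₁ = ∫_r r² g(r) dτ`, `g r = ∫_y (|t| - q(r t)/r)²`, `t = ⟨v,y⟩`. If
`g r > δ/n` for all `r > 0` then the right hand side is `> (δ/n) n = δ` (here `δ ≥ 0`). So some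
`r > 0` has `g r ≤ δ/n`; `p = r⁻¹ • q.comp (C r * X)`.
-/

open MeasureTheory Metric ProbabilityTheory
open scoped RealInnerProductSpace ENNReal

namespace Pool.Agent.Helper47.UB

private theorem gint_pow (k : ℕ) : Integrable (fun s : ℝ => s ^ k) (gaussianReal 0 1) := by
  rcases Nat.eq_zero_or_pos k with rfl | hk
  · simp
  · have h := (memLp_id_gaussianReal' (μ := 0) (v := 1) (k : ℝ≥0∞)
      (ENNReal.natCast_ne_top k)).integrable_norm_pow hk.ne'
    refine h.mono' (measurable_id.pow_const k).aestronglyMeasurable ?_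
    refine Filter.Eventually.of_forall (fun s => ?_)
    rw [norm_pow]
    exact le_of_eq rfl

private theorem gint_poly (P : Polynomial ℝ) :
    Integrable (fun s : ℝ => P.eval s) (gaussianReal 0 1) := by
  have h : (fun s : ℝ => P.eval s) =
      fun s => ∑ i ∈ Finset.range (P.natDegree + 1), P.coeff i * s ^ i := by
    funext s
    exact Polynomial.eval_eq_sum_range s
  rw [h]
  exact integrable_finset_sum _ (fun i _ => (gint_pow i).const_mul _)

private theorem gauss_sq : ∫ s, s ^ 2 ∂(gaussianReal 0 1) = 1 := by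
  have h := variance_fun_id_gaussianReal (μ := 0) (v := 1)
  rw [variance_eq_integral measurable_id'.aemeasurable] at h
  simp only [integral_id_gaussianReal, sub_zero] at h
  rw [h]
  norm_num

private theorem gauss_abs : 1 / 2 ≤ ∫ s, |s| ∂(gaussianReal 0 1) := by
  rw [integral_gaussianReal_eq_integral_smul (one_ne_zero)]
  have e : ∀ x : ℝ, gaussianPDFReal 0 1 x • |x| =
      (fun y : ℝ => (Real.sqrt (2 * Real.pi))⁻¹ * (y ^ (1 : ℝ) * Real.exp (-(1 / 2) * y ^ (2 : ℝ))))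
        |x| := by
    intro x
    simp only [gaussianPDFReal_def, smul_eq_mul, sub_zero, NNReal.coe_one, mul_one,
      Real.rpow_one, Real.rpow_two, sq_abs]
    rw [show -x ^ 2 / 2 = -(1 / 2) * x ^ 2 by ring]
    ring
  have hca := integral_comp_abs (f := fun y : ℝ =>
    (Real.sqrt (2 * Real.pi))⁻¹ * (y ^ (1 : ℝ) * Real.exp (-(1 / 2) * y ^ (2 : ℝ))))
  rw [integral_congr_ae (Filter.Eventually.of_forall e)]
  refine le_trans ?_ (le_of_eq hca.symm)
  rw [integral_const_mul,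
    integral_rpow_mul_exp_neg_mul_rpow (by norm_num) (by norm_num) (by norm_num)]
  have e1 : ((1 : ℝ) + 1) / 2 = 1 := by norm_num
  have e2 : (-((1 : ℝ) + 1) / 2) = -1 := by norm_num
  rw [e1, e2, Real.Gamma_one, Real.rpow_neg_one]
  have hpi : Real.sqrt (2 * Real.pi) ≤ 3 := by
    rw [Real.sqrt_le_left (by norm_num)]
    have := Real.pi_lt_four
    nlinarith
  have hpos : 0 < Real.sqrt (2 * Real.pi) := Real.sqrt_pos.mpr (by positivity)
  have h3 : (1 : ℝ) / 3 ≤ (Real.sqrt (2 * Real.pi))⁻¹ := by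
    rw [one_div]
    exact inv_anti₀ hpos hpi
  nlinarith

private theorem sq_unit (n : ℕ) (hn : 1 ≤ n) (v : En n) (hv : ‖v‖ = 1) :
    ∫ y : Sph n, ⟪v, (y : En n)⟫ ^ 2 ∂(sg n) = 1 / n := by
  have hn0 : (0 : ℝ) < n := by exact_mod_cast hn
  haveI := sg_prob n hn
  obtain ⟨τ, hτ, hpos, hr2, hpol⟩ := polar n hn
  have hcm : Measurable (fun r : ℝ => ENNReal.ofReal (r ^ 2)) :=
    (measurable_id.pow_const 2).ennreal_ofReal
  have h1 := hpol v hv _ hcm
  rw [← ofReal_integral_eq_lintegral_ofReal (gint_pow 2)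
    (Filter.Eventually.of_forall (fun s => sq_nonneg _)), gauss_sq, ENNReal.ofReal_one] at h1
  have hcont : Continuous (fun y : Sph n => ⟪v, (y : En n)⟫) :=
    Continuous.inner continuous_const continuous_subtype_val
  have hym : Measurable (fun y : Sph n => ENNReal.ofReal (⟪v, (y : En n)⟫ ^ 2)) :=
    (hcont.pow 2).measurable.ennreal_ofReal
  set K := ∫⁻ y : Sph n, ENNReal.ofReal (⟪v, (y : En n)⟫ ^ 2) ∂(sg n) with hK
  have h2 : ∀ r : ℝ, ∫⁻ y : Sph n, ENNReal.ofReal ((r * ⟪v, (y : En n)⟫) ^ 2) ∂(sg n) =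
      ENNReal.ofReal (r ^ 2) * K := by
    intro r
    rw [hK, ← lintegral_const_mul _ hym]
    apply lintegral_congr
    intro y
    rw [mul_pow, ENNReal.ofReal_mul (sq_nonneg _)]
  simp only [h2] at h1
  rw [lintegral_mul_const _ hcm, hr2] at h1
  have hKv : K = (n : ℝ≥0∞)⁻¹ := by
    apply ENNReal.eq_inv_of_mul_eq_one_left
    rw [mul_comm]
    exact h1.symm
  rw [integral_eq_lintegral_of_nonneg_ae (Filter.Eventually.of_forall (fun y => sq_nonneg _))
    (hcont.pow 2).aestronglyMeasurable]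
  have : (∫⁻ y : Sph n, ENNReal.ofReal (⟪v, (y : En n)⟫ ^ 2) ∂(sg n)) = (n : ℝ≥0∞)⁻¹ := hKv
  rw [this, ENNReal.toReal_inv, ENNReal.toReal_natCast, one_div]

private theorem abs_unit (n : ℕ) (hn : 1 ≤ n) : ∃ s0 : ℝ, 1 / (2 * Real.sqrt n) ≤ s0 ∧
    ∀ v : En n, ‖v‖ = 1 → ∫ y : Sph n, |⟪v, (y : En n)⟫| ∂(sg n) = s0 := by
  have hn0 : (0 : ℝ) < n := by exact_mod_cast hn
  have hsq : 0 < Real.sqrt n := Real.sqrt_pos.mpr hn0
  haveI := sg_prob n hn
  obtain ⟨τ, hτ, hpos, hr2, hpol⟩ := polar n hn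
  have ham : Measurable (fun r : ℝ => ENNReal.ofReal |r|) := measurable_id.abs.ennreal_ofReal
  have hcm : Measurable (fun r : ℝ => ENNReal.ofReal (r ^ 2)) :=
    (measurable_id.pow_const 2).ennreal_ofReal
  have hgi : Integrable (fun s : ℝ => |s|) (gaussianReal 0 1) := by
    have := (gint_pow 1).abs
    simpa using this
  set A : ℝ≥0∞ := ENNReal.ofReal (∫ s, |s| ∂(gaussianReal 0 1)) with hA
  set ρ : ℝ≥0∞ := ∫⁻ r, ENNReal.ofReal |r| ∂τ with hρ
  have hA1 : ENNReal.ofReal (1 / 2) ≤ A := ENNReal.ofReal_le_ofReal gauss_abs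
  have hAtop : A ≠ ⊤ := ENNReal.ofReal_ne_top
  have hA0 : A ≠ 0 := by
    intro h
    rw [h] at hA1
    have : (0 : ℝ≥0∞) < ENNReal.ofReal (1 / 2) := ENNReal.ofReal_pos.mpr (by norm_num)
    exact absurd hA1 (not_le.mpr this)
  have hmul : ∀ v : En n, ‖v‖ = 1 →
      A = ρ * ∫⁻ y : Sph n, ENNReal.ofReal |⟪v, (y : En n)⟫| ∂(sg n) := by
    intro v hv
    have h1 := hpol v hv _ ham
    rw [← ofReal_integral_eq_lintegral_ofReal hgi
      (Filter.Eventually.of_forall (fun s => abs_nonneg _))] at h1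
    have hcont : Continuous (fun y : Sph n => ⟪v, (y : En n)⟫) :=
      Continuous.inner continuous_const continuous_subtype_val
    have hym : Measurable (fun y : Sph n => ENNReal.ofReal |⟪v, (y : En n)⟫|) :=
      hcont.abs.measurable.ennreal_ofReal
    have h2 : ∀ r : ℝ, ∫⁻ y : Sph n, ENNReal.ofReal |r * ⟪v, (y : En n)⟫| ∂(sg n) =
        ENNReal.ofReal |r| * ∫⁻ y : Sph n, ENNReal.ofReal |⟪v, (y : En n)⟫| ∂(sg n) := by
      intro r
      rw [← lintegral_const_mul _ hym]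
      apply lintegral_congr
      intro y
      rw [abs_mul, ENNReal.ofReal_mul (abs_nonneg _)]
    simp only [h2] at h1
    rw [lintegral_mul_const _ ham] at h1
    exact h1
  have hρle : ρ ≤ ENNReal.ofReal (Real.sqrt n) := by
    have e : ∀ r : ℝ, ENNReal.ofReal |r| ≤
        ENNReal.ofReal (1 / (2 * Real.sqrt n)) * ENNReal.ofReal (r ^ 2) +
          ENNReal.ofReal (Real.sqrt n / 2) := by
      intro r
      rw [← ENNReal.ofReal_mul (by positivity), ← ENNReal.ofReal_add (by positivity)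
        (by positivity)]
      apply ENNReal.ofReal_le_ofReal
      have h0 : 0 ≤ (|r| - Real.sqrt n) ^ 2 / (2 * Real.sqrt n) := by positivity
      have h1 : (|r| - Real.sqrt n) ^ 2 / (2 * Real.sqrt n) =
          1 / (2 * Real.sqrt n) * r ^ 2 - |r| + Real.sqrt n / 2 := by
        have h2 : |r| ^ 2 = r ^ 2 := sq_abs r
        rw [sub_sq, h2]
        field_simp
      linarith
    calc ρ ≤ ∫⁻ r, (ENNReal.ofReal (1 / (2 * Real.sqrt n)) * ENNReal.ofReal (r ^ 2) +
          ENNReal.ofReal (Real.sqrt n / 2)) ∂τ := lintegral_mono e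
      _ = ENNReal.ofReal (1 / (2 * Real.sqrt n)) * n + ENNReal.ofReal (Real.sqrt n / 2) := by
        rw [lintegral_add_right _ measurable_const, lintegral_const_mul _ hcm, hr2,
          lintegral_const, measure_univ, mul_one]
      _ = ENNReal.ofReal (Real.sqrt n) := by
        have e2 : ((n : ℕ) : ℝ≥0∞) = ENNReal.ofReal (n : ℝ) := (ENNReal.ofReal_natCast n).symm
        rw [e2, ← ENNReal.ofReal_mul (by positivity), ← ENNReal.ofReal_add (by positivity)
          (by positivity)]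
        congr 1
        have h3 : Real.sqrt n * Real.sqrt n = n := Real.mul_self_sqrt hn0.le
        field_simp
        nlinarith
  have hρtop : ρ ≠ ⊤ := ne_top_of_le_ne_top ENNReal.ofReal_ne_top hρle
  obtain ⟨v0, hv0⟩ : ∃ v : En n, ‖v‖ = 1 := by
    refine ⟨EuclideanSpace.single ⟨0, hn⟩ (1 : ℝ), ?_⟩
    simp
  have hρ0 : ρ ≠ 0 := by
    intro h
    have := hmul v0 hv0
    rw [h, zero_mul] at this
    exact hA0 this
  have hK : ∀ v : En n, ‖v‖ = 1 →
      ∫⁻ y : Sph n, ENNReal.ofReal |⟪v, (y : En n)⟫| ∂(sg n) = ρ⁻¹ * A := by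
    intro v hv
    rw [hmul v hv, ← mul_assoc, ENNReal.inv_mul_cancel hρ0 hρtop, one_mul]
  refine ⟨(ρ⁻¹ * A).toReal, ?_, ?_⟩
  · have h1 : (ENNReal.ofReal (Real.sqrt n))⁻¹ * ENNReal.ofReal (1 / 2) ≤ ρ⁻¹ * A :=
      mul_le_mul' (ENNReal.inv_le_inv.mpr hρle) hA1
    have h2 : ρ⁻¹ * A ≠ ⊤ := ENNReal.mul_ne_top (ENNReal.inv_ne_top.mpr hρ0) hAtop
    have h3 := ENNReal.toReal_mono h2 h1
    rw [ENNReal.toReal_mul, ENNReal.toReal_inv, ENNReal.toReal_ofReal hsq.le,
      ENNReal.toReal_ofReal (by norm_num)] at h3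
    refine le_trans (le_of_eq ?_) h3
    field_simp
  · intro v hv
    have hcont : Continuous (fun y : Sph n => ⟪v, (y : En n)⟫) :=
      Continuous.inner continuous_const continuous_subtype_val
    rw [integral_eq_lintegral_of_nonneg_ae
      (Filter.Eventually.of_forall (fun y => abs_nonneg _)) hcont.abs.aestronglyMeasurable, hK v hv]

theorem sg_sq (n : ℕ) (hn : 1 ≤ n) (v : En n) :
    ∫ y : Sph n, ⟪v, (y : En n)⟫ ^ 2 ∂(sg n) = ‖v‖ ^ 2 / n := by
  have hn0 : (0 : ℝ) < n := by exact_mod_cast hn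
  rcases eq_or_ne v 0 with rfl | hv
  · simp
  · have hv0 : ‖v‖ ≠ 0 := norm_ne_zero_iff.mpr hv
    have hu : ‖(‖v‖⁻¹ • v)‖ = 1 := norm_smul_inv_norm hv
    have h1 := sq_unit n hn (‖v‖⁻¹ • v) hu
    have h2 : ∀ y : Sph n, ⟪v, (y : En n)⟫ ^ 2 = ‖v‖ ^ 2 * ⟪‖v‖⁻¹ • v, (y : En n)⟫ ^ 2 := by
      intro y
      rw [real_inner_smul_left]
      field_simp
    rw [integral_congr_ae (Filter.Eventually.of_forall h2), integral_const_mul, h1]
    ring

theorem sg_abs (n : ℕ) (hn : 1 ≤ n) : ∃ s0 : ℝ, 1 / (2 * Real.sqrt n) ≤ s0 ∧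
    ∀ v : En n, ∫ y : Sph n, |⟪v, (y : En n)⟫| ∂(sg n) = s0 * ‖v‖ := by
  obtain ⟨s0, hs0, h⟩ := abs_unit n hn
  refine ⟨s0, hs0, fun v => ?_⟩
  rcases eq_or_ne v 0 with rfl | hv
  · simp
  · have hv0 : ‖v‖ ≠ 0 := norm_ne_zero_iff.mpr hv
    have hu : ‖(‖v‖⁻¹ • v)‖ = 1 := norm_smul_inv_norm hv
    have h1 := h (‖v‖⁻¹ • v) hu
    have h2 : ∀ y : Sph n, |⟪v, (y : En n)⟫| = ‖v‖ * |⟪‖v‖⁻¹ • v, (y : En n)⟫| := by
      intro y
      rw [real_inner_smul_left, abs_mul, abs_of_nonneg (inv_nonneg.mpr (norm_nonneg v)),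
        ← mul_assoc, mul_inv_cancel₀ hv0, one_mul]
    rw [integral_congr_ae (Filter.Eventually.of_forall h2), integral_const_mul, h1]
    ring

theorem sg_dist (n : ℕ) (hn : 1 ≤ n) (v : En n) (hv : ‖v‖ = 1) (q : Polynomial ℝ) (δ : ℝ)
    (hq : ∫ s, (|s| - q.eval s) ^ 2 ∂(gaussianReal 0 1) ≤ δ) :
    ∃ p : Polynomial ℝ, p.natDegree ≤ q.natDegree ∧
      ∫ y : Sph n, (|⟪v, (y : En n)⟫| - p.eval ⟪v, (y : En n)⟫) ^ 2 ∂(sg n) ≤ δ / n := by
  have hn0 : (0 : ℝ) < n := by exact_mod_cast hn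
  haveI := sg_prob n hn
  obtain ⟨τ, hτ, hpos, hr2, hpol⟩ := polar n hn
  have hδ : 0 ≤ δ := (integral_nonneg (fun s => sq_nonneg _)).trans hq
  have hFm : Measurable (fun s : ℝ => ENNReal.ofReal ((|s| - q.eval s) ^ 2)) :=
    ((measurable_id.abs.sub q.continuous.measurable).pow_const 2).ennreal_ofReal
  have h1 := hpol v hv _ hFm
  have hint : Integrable (fun s : ℝ => (|s| - q.eval s) ^ 2) (gaussianReal 0 1) := by
    have hb : Integrable (fun s : ℝ => ((2 : Polynomial ℝ) * Polynomial.X ^ 2 + 2 * q ^ 2).eval s)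
        (gaussianReal 0 1) := gint_poly _
    refine hb.mono' ((measurable_id.abs.sub q.continuous.measurable).pow_const 2).aestronglyMeasurable ?_
    refine Filter.Eventually.of_forall (fun s => ?_)
    rw [Real.norm_of_nonneg (sq_nonneg _)]
    simp only [Polynomial.eval_add, Polynomial.eval_mul, Polynomial.eval_pow, Polynomial.eval_X,
      Polynomial.eval_ofNat]
    nlinarith [sq_nonneg (|s| + q.eval s), sq_abs s]
  have hL : ∫⁻ s, ENNReal.ofReal ((|s| - q.eval s) ^ 2) ∂(gaussianReal 0 1) ≤ ENNReal.ofReal δ := by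
    rw [← ofReal_integral_eq_lintegral_ofReal hint
      (Filter.Eventually.of_forall (fun s => sq_nonneg _))]
    exact ENNReal.ofReal_le_ofReal hq
  rw [h1] at hL
  set G : ℝ → ℝ≥0∞ := fun r => ∫⁻ y : Sph n,
    ENNReal.ofReal ((|r * ⟪v, (y : En n)⟫| - q.eval (r * ⟪v, (y : En n)⟫)) ^ 2) ∂(sg n) with hG
  have hGm : Measurable G := by
    apply Measurable.lintegral_prod_right'
      (f := fun z : ℝ × Sph n => ENNReal.ofReal ((|z.1 * ⟪v, (z.2 : En n)⟫| -
        q.eval (z.1 * ⟪v, (z.2 : En n)⟫)) ^ 2))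
    refine hFm.comp ?_
    have hc : Continuous (fun z : ℝ × Sph n => z.1 * ⟪v, (z.2 : En n)⟫) :=
      continuous_fst.mul (Continuous.inner continuous_const
        (continuous_subtype_val.comp continuous_snd))
    exact hc.measurable
  have hex : ∃ r : ℝ, 0 < r ∧ G r ≤ ENNReal.ofReal (δ / n * r ^ 2) := by
    by_contra hne
    push Not at hne
    have hcm : Measurable (fun r : ℝ => ENNReal.ofReal (r ^ 2)) :=
      (measurable_id.pow_const 2).ennreal_ofReal
    have hval : ∫⁻ r, ENNReal.ofReal (δ / n * r ^ 2) ∂τ = ENNReal.ofReal δ := by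
      have e : ∀ r : ℝ, ENNReal.ofReal (δ / n * r ^ 2) =
          ENNReal.ofReal (δ / n) * ENNReal.ofReal (r ^ 2) := fun r =>
        ENNReal.ofReal_mul (by positivity)
      simp only [e]
      rw [lintegral_const_mul _ hcm, hr2]
      have e2 : ((n : ℕ) : ℝ≥0∞) = ENNReal.ofReal (n : ℝ) := (ENNReal.ofReal_natCast n).symm
      rw [e2, ← ENNReal.ofReal_mul (by positivity)]
      congr 1
      field_simp
    have hlt : ∫⁻ r, ENNReal.ofReal (δ / n * r ^ 2) ∂τ < ∫⁻ r, G r ∂τ := by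
      apply lintegral_strict_mono (IsProbabilityMeasure.ne_zero τ) hGm.aemeasurable
      · rw [hval]
        exact ENNReal.ofReal_ne_top
      · filter_upwards [hpos] with r hr
        exact hne r hr
    rw [hval] at hlt
    exact absurd hL (not_le.mpr hlt)
  obtain ⟨r, hr, hGr⟩ := hex
  refine ⟨Polynomial.C r⁻¹ * q.comp (Polynomial.C r * Polynomial.X), ?_, ?_⟩
  · refine (Polynomial.natDegree_C_mul_le _ _).trans ?_
    refine (Polynomial.natDegree_comp_le).trans ?_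
    have : (Polynomial.C r * Polynomial.X : Polynomial ℝ).natDegree ≤ 1 :=
      (Polynomial.natDegree_C_mul_le _ _).trans (by rw [Polynomial.natDegree_X])
    calc q.natDegree * (Polynomial.C r * Polynomial.X : Polynomial ℝ).natDegree
        ≤ q.natDegree * 1 := Nat.mul_le_mul_left _ this
      _ = q.natDegree := mul_one _
  · have e1 : ∀ y : Sph n, (|⟪v, (y : En n)⟫| -
        (Polynomial.C r⁻¹ * q.comp (Polynomial.C r * Polynomial.X)).eval ⟪v, (y : En n)⟫) ^ 2 =
        (r⁻¹) ^ 2 * (|r * ⟪v, (y : En n)⟫| - q.eval (r * ⟪v, (y : En n)⟫)) ^ 2 := by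
      intro y
      rw [Polynomial.eval_mul, Polynomial.eval_C, Polynomial.eval_comp, Polynomial.eval_mul,
        Polynomial.eval_C, Polynomial.eval_X, abs_mul, abs_of_pos hr, ← mul_pow, mul_sub,
        ← mul_assoc, inv_mul_cancel₀ hr.ne', one_mul]
    rw [integral_congr_ae (Filter.Eventually.of_forall e1), integral_const_mul]
    have hc : Continuous (fun y : Sph n => (|r * ⟪v, (y : En n)⟫| -
        q.eval (r * ⟪v, (y : En n)⟫)) ^ 2) := by
      have h0 : Continuous (fun y : Sph n => r * ⟪v, (y : En n)⟫) :=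
        continuous_const.mul (Continuous.inner continuous_const continuous_subtype_val)
      exact ((h0.abs).sub (q.continuous.comp h0)).pow 2
    have e2 : ∫ y : Sph n, (|r * ⟪v, (y : En n)⟫| - q.eval (r * ⟪v, (y : En n)⟫)) ^ 2 ∂(sg n) =
        (G r).toReal := by
      rw [integral_eq_lintegral_of_nonneg_ae (Filter.Eventually.of_forall (fun y => sq_nonneg _))
        hc.aestronglyMeasurable]
    rw [e2]
    have e3 : (G r).toReal ≤ δ / n * r ^ 2 :=
      ENNReal.toReal_le_of_le_ofReal (by positivity) hGr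
    calc (r⁻¹) ^ 2 * (G r).toReal ≤ (r⁻¹) ^ 2 * (δ / n * r ^ 2) :=
          mul_le_mul_of_nonneg_left e3 (sq_nonneg _)
      _ = δ / n := by field_simp

end Pool.Agent.Helper47.UB
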