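import Pool.Agent.Helper47.UB.Sphere

/-!
# Polar decomposition of the standard Gaussian measure

`γ = stdGaussian (En n)` has density `(2π)^{-n/2} exp(-‖x‖²/2)` with respect to the volume: both
measures have characteristic function `exp(-‖t‖²/2)` (`charFun_stdGaussian`,
`GaussianFourier.integral_cexp_neg_mul_sq_norm_add`), use `Measure.ext_of_charFun`. Polar
coordinates: `measurePreserving_homeomorphUnitSphereProd` (Mathlib, HaarToSphere): so
`∫⁻ G dγ = ∫⁻_r ∫⁻_y G (r y) dσ(y) dτ(r)` where `τ` has density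
`c r^{n-1} exp(-r²/2)` on `(0,∞)`, and `τ` is a probability measure (take `G = 1`). Marginals:
the law of `⟨v, x⟩` under `γ` is `gaussianReal 0 1` for unit `v` (e.g. by characteristic functions).
`∫ r² dτ = ∫ ‖x‖² dγ = n`.
-/

open MeasureTheory Metric ProbabilityTheory
open scoped RealInnerProductSpace ENNReal

namespace Pool.Agent.Helper47.UB

/-- the radial density -/
private noncomputable def gd (n : ℕ) (r : ℝ) : ℝ :=
  (2 * Real.pi) ^ (-((n : ℝ) / 2)) * Real.exp (-(r ^ 2) / 2)

private theorem gd_nn (n : ℕ) (r : ℝ) : 0 ≤ gd n r := by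
  unfold gd
  positivity

private theorem gd_meas (n : ℕ) : Measurable (gd n) := by
  unfold gd
  fun_prop

private theorem gd_cexp (n : ℕ) (x t : En n) :
    (gd n ‖x‖ : ℂ) * Complex.exp (⟪x, t⟫ * Complex.I) =
      (((2 * Real.pi) ^ (-((n : ℝ) / 2)) : ℝ) : ℂ) *
        Complex.exp (-(1 / 2 : ℂ) * (‖x‖ : ℂ) ^ 2 + Complex.I * ⟪t, x⟫) := by
  unfold gd
  rw [Complex.ofReal_mul, mul_assoc, Complex.ofReal_exp, ← Complex.exp_add, real_inner_comm t x]
  congr 2
  push_cast
  ring

private theorem gd_int (n : ℕ) : Integrable (fun x : En n => gd n ‖x‖) volume := by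
  have h := GaussianFourier.integrable_cexp_neg_mul_sq_norm_add (V := En n) (b := (1 / 2 : ℂ))
    (by norm_num) 0 0
  have h2 := h.norm.const_mul ((2 * Real.pi) ^ (-((n : ℝ) / 2)))
  refine h2.congr (Filter.Eventually.of_forall fun x => ?_)
  simp only [gd]
  rw [Complex.norm_exp]
  congr 2
  simp [← Complex.ofReal_pow]
  ring

private theorem gauss_density (n : ℕ) : stdGaussian (En n) =
    (volume : Measure (En n)).withDensity (fun x => ENNReal.ofReal (gd n ‖x‖)) := by
  have : IsFiniteMeasure ((volume : Measure (En n)).withDensity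
      (fun x => ENNReal.ofReal (gd n ‖x‖))) :=
    isFiniteMeasure_withDensity_ofReal (gd_int n).2
  apply Measure.ext_of_charFun
  ext t
  rw [charFun_stdGaussian, charFun_apply]
  have h1 : ∫ x : En n, Complex.exp (⟪x, t⟫ * Complex.I)
      ∂((volume : Measure (En n)).withDensity (fun x => ENNReal.ofReal (gd n ‖x‖))) =
      ∫ x : En n, (gd n ‖x‖ : ℂ) * Complex.exp (⟪x, t⟫ * Complex.I) := by
    rw [integral_withDensity_eq_integral_toReal_smul]
    · apply integral_congr_ae
      refine Filter.Eventually.of_forall fun x => ?_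
      simp only
      rw [ENNReal.toReal_ofReal (gd_nn n _), Complex.real_smul]
    · exact ((gd_meas n).comp measurable_norm).ennreal_ofReal
    · exact Filter.Eventually.of_forall fun x => ENNReal.ofReal_lt_top
  rw [h1]
  simp_rw [gd_cexp]
  rw [integral_const_mul, GaussianFourier.integral_cexp_neg_mul_sq_norm_add (by norm_num)]
  have h2 : (Real.pi / (1 / 2 : ℂ)) = ((2 * Real.pi : ℝ) : ℂ) := by
    push_cast; ring
  rw [h2]
  have h3 : ((2 * Real.pi : ℝ) : ℂ) ^ ((Module.finrank ℝ (En n) : ℂ) / 2) =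
      (((2 * Real.pi) ^ ((n : ℝ) / 2) : ℝ) : ℂ) := by
    rw [Complex.ofReal_cpow (by positivity)]
    simp
  rw [h3, ← mul_assoc, ← Complex.ofReal_mul, ← Real.rpow_add (by positivity)]
  simp only [neg_add_cancel, Real.rpow_zero, Complex.ofReal_one, one_mul, Complex.I_sq]
  congr 1
  ring

private theorem polar_vol (n : ℕ) (hn : 1 ≤ n) (G : En n → ℝ≥0∞) (hG : Measurable G) :
    ∫⁻ x, G x ∂(volume : Measure (En n)) =
      ∫⁻ r : Set.Ioi (0 : ℝ), ∫⁻ y : Sph n, G ((r : ℝ) • (y : En n))
        ∂((volume : Measure (En n)).toSphere) ∂(Measure.volumeIoiPow (n - 1)) := by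
  have hfr : Module.finrank ℝ (En n) = n := by simp
  have : Nontrivial (En n) := by
    rw [← Module.finrank_pos_iff (R := ℝ), hfr]
    exact hn
  have h1 : ∫⁻ x, G x ∂(volume : Measure (En n)) =
      ∫⁻ x : ({(0 : En n)}ᶜ : Set (En n)), G x ∂((volume : Measure (En n)).comap (↑)) := by
    rw [lintegral_subtype_comap (measurableSet_singleton _).compl (fun x => G x),
      restrict_compl_singleton]
  have h2 := ((volume : Measure (En n)).measurePreserving_homeomorphUnitSphereProd).lintegral_comp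
    (f := fun p : Sph n × Set.Ioi (0 : ℝ) => G ((p.2 : ℝ) • (p.1 : En n)))
    (hG.comp (by fun_prop))
  have h3 : ∀ x : ({(0 : En n)}ᶜ : Set (En n)),
      G (((homeomorphUnitSphereProd (En n) x).2 : ℝ) •
        ((homeomorphUnitSphereProd (En n) x).1 : En n)) = G x := by
    intro x
    have hx : ‖(x : En n)‖ ≠ 0 := norm_ne_zero_iff.2 x.2
    congr 1
    simp [smul_smul, hx]
  simp only [h3] at h2
  rw [h1, h2, lintegral_prod_symm, hfr]
  exact (hG.comp (by fun_prop)).aemeasurable

private theorem polarG (n : ℕ) (hn : 1 ≤ n) : ∃ τ : Measure ℝ, (∀ᵐ r ∂τ, 0 < r) ∧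
    ∀ G : En n → ℝ≥0∞, Measurable G → ∫⁻ x, G x ∂(stdGaussian (En n)) =
      ∫⁻ r, ∫⁻ y : Sph n, G (r • (y : En n)) ∂(sg n) ∂τ := by
  have hfr : Module.finrank ℝ (En n) = n := by simp
  have hnt : Nontrivial (En n) := by
    rw [← Module.finrank_pos_iff (R := ℝ), hfr]
    exact hn
  set A : ℝ≥0∞ := (volume : Measure (En n)).toSphere Set.univ with hA
  have hA0 : A ≠ 0 := by
    rw [hA, Ne, Measure.measure_univ_eq_zero]
    exact Measure.toSphere_ne_zero _
  have hAt : A ≠ ∞ := measure_ne_top _ _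
  set ρ : Measure (Set.Ioi (0 : ℝ)) := (Measure.volumeIoiPow (n - 1)).withDensity
    (fun r => ENNReal.ofReal (gd n r)) with hρ
  have hmd : Measurable (fun r : Set.Ioi (0 : ℝ) => ENNReal.ofReal (gd n r)) :=
    ((gd_meas n).comp measurable_subtype_coe).ennreal_ofReal
  refine ⟨(A • ρ).map (fun r : Set.Ioi (0 : ℝ) => (r : ℝ)), ?_, ?_⟩
  · rw [ae_map_iff measurable_subtype_coe.aemeasurable measurableSet_Ioi]
    exact Filter.Eventually.of_forall fun r => r.2
  · intro G hG
    have hinner : Measurable (fun r : ℝ => ∫⁻ y : Sph n, G (r • (y : En n)) ∂(sg n)) := by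
      have : SFinite (sg n) := by unfold sg; infer_instance
      exact Measurable.lintegral_prod_right' (f := fun p : ℝ × Sph n => G (p.1 • (p.2 : En n)))
        (hG.comp (by fun_prop))
    have hin2 : Measurable (fun r : Set.Ioi (0 : ℝ) =>
        ∫⁻ y : Sph n, G ((r : ℝ) • (y : En n)) ∂(sg n)) := hinner.comp measurable_subtype_coe
    have hgn : Measurable (fun x : En n => ENNReal.ofReal (gd n ‖x‖)) :=
      ((gd_meas n).comp measurable_norm).ennreal_ofReal
    rw [lintegral_map hinner measurable_subtype_coe, lintegral_smul_measure, hρ,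
      lintegral_withDensity_eq_lintegral_mul _ hmd hin2,
      gauss_density, lintegral_withDensity_eq_lintegral_mul _
      hgn hG, polar_vol n hn _ (hgn.mul hG), smul_eq_mul,
      ← lintegral_const_mul _ (hmd.mul hin2)]
    apply lintegral_congr
    intro r
    have hr : (0 : ℝ) < r := r.2
    simp only [Pi.mul_apply]
    have h1 : ∀ y : Sph n, ENNReal.ofReal (gd n ‖(r : ℝ) • (y : En n)‖) =
        ENNReal.ofReal (gd n r) := by
      intro y
      rw [norm_smul]
      simp [abs_of_pos hr]
    simp only [h1]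
    have hGy : Measurable (fun y : Sph n => G ((r : ℝ) • (y : En n))) := hG.comp (by fun_prop)
    rw [lintegral_const_mul _ hGy]
    unfold sg
    rw [lintegral_smul_measure, ← hA, smul_eq_mul]
    rw [mul_left_comm, ← mul_assoc A A⁻¹, ENNReal.mul_inv_cancel hA0 hAt, one_mul]

private theorem inner_law (n : ℕ) (v : En n) (hv : ‖v‖ = 1) :
    (stdGaussian (En n)).map (fun x => ⟪v, x⟫) = gaussianReal 0 1 := by
  have h := IsGaussian.map_eq_gaussianReal (μ := stdGaussian (En n)) (innerSL ℝ v)
  have h1 : (fun x : En n => ⟪v, x⟫) = (innerSL ℝ v : En n → ℝ) := by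
    ext x
    simp
  rw [h1, h, integral_strongDual_stdGaussian, variance_dual_stdGaussian, innerSL_apply_norm, hv]
  simp

theorem polar (n : ℕ) (hn : 1 ≤ n) : ∃ τ : Measure ℝ, IsProbabilityMeasure τ ∧
    (∀ᵐ r ∂τ, 0 < r) ∧ (∫⁻ r, ENNReal.ofReal (r ^ 2) ∂τ = n) ∧
    ∀ v : En n, ‖v‖ = 1 → ∀ F : ℝ → ℝ≥0∞, Measurable F →
      ∫⁻ s, F s ∂(gaussianReal 0 1)
        = ∫⁻ r, ∫⁻ y : Sph n, F (r * ⟪v, (y : En n)⟫) ∂(sg n) ∂τ := by
  obtain ⟨τ, hpos, hτ⟩ := polarG n hn
  have hp : IsProbabilityMeasure (sg n) := sg_prob n hn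
  refine ⟨τ, ⟨?_⟩, hpos, ?_, ?_⟩
  · have h := hτ (fun _ => 1) measurable_const
    simpa using h.symm
  · have h := hτ (fun x => ENNReal.ofReal (‖x‖ ^ 2)) (by fun_prop)
    have h1 : ∀ r : ℝ, ∫⁻ y : Sph n, ENNReal.ofReal (‖r • (y : En n)‖ ^ 2) ∂(sg n) =
        ENNReal.ofReal (r ^ 2) := by
      intro r
      have : ∀ y : Sph n, ‖r • (y : En n)‖ ^ 2 = r ^ 2 := by
        intro y
        rw [norm_smul]
        simp
      simp [this]
    simp only [h1] at h
    rw [← h]
    have h2 : ∀ x : En n, ENNReal.ofReal (‖x‖ ^ 2) = ∑ i : Fin n, ENNReal.ofReal (x i ^ 2) := by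
      intro x
      rw [EuclideanSpace.real_norm_sq_eq, ENNReal.ofReal_sum_of_nonneg]
      intro i _
      positivity
    simp only [h2]
    rw [lintegral_finsetSum _ (by intro i _; fun_prop)]
    have h3 : ∀ i : Fin n, ∫⁻ x : En n, ENNReal.ofReal (x i ^ 2) ∂(stdGaussian (En n)) = 1 := by
      intro i
      have hl := inner_law n (EuclideanSpace.single i 1) (by simp)
      have h4 : ∫⁻ x : En n, ENNReal.ofReal (x i ^ 2) ∂(stdGaussian (En n)) =
          ∫⁻ s, ENNReal.ofReal (s ^ 2) ∂(gaussianReal 0 1) := by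
        rw [← hl, lintegral_map (by fun_prop) (by fun_prop)]
        apply lintegral_congr
        intro x
        congr 2
        rw [EuclideanSpace.inner_single_left]
        simp
      rw [h4, ← ofReal_integral_eq_lintegral_ofReal]
      · have hvar := variance_id_gaussianReal (μ := 0) (v := 1)
        rw [variance_eq_integral measurable_id.aemeasurable] at hvar
        simp only [id, integral_id_gaussianReal, sub_zero, NNReal.coe_one] at hvar
        rw [hvar]
        simp
      · have := (IsGaussian.memLp_two_id (μ := gaussianReal 0 1)).integrable_sq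
        simpa using this
      · exact Filter.Eventually.of_forall fun s => sq_nonneg s
    simp [h3]
  · intro v hv F hF
    rw [← inner_law n v hv, lintegral_map hF (by fun_prop),
      hτ (fun x => F ⟪v, x⟫) (hF.comp (by fun_prop))]
    simp only [inner_smul_right]

end Pool.Agent.Helper47.UB
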