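import Pool.Agent.Helper47.UB.Sphere

/-!
# Polynomials of degree `≤ D` on the sphere

`mon c` = product of at most `D` coordinates. `PD n D` their span: at most `(n+1)^D` generators
(`finrank_span_le_card` for the range of a function on `Fin D → Option (Fin n)`).
`PD_ridge`: `⟨v,y⟩^k = (∑ v_i y_i)^k` for `k ≤ D`: write it as `∏_{l : Fin D} a_l`, `a_l = ∑ v_i y_i`
for `l < k`, `a_l = 1` for `l ≥ k`, and expand the product (`Finset.prod_univ_sum`); each term is a
multiple of a `mon c`. `PD_rot`: coordinates of `ρ y` are linear forms `⟨ρ⁻¹ e_i, y⟩`, so `mon c ∘ rot ρ`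
is a product of `≤ D` linear forms; expand again. (Suggestion: first prove that
`y ↦ ∏_{l : Fin D} (if l ∈ s then ⟨v l, y⟩ else 1)` is in `PD` for all `v : Fin D → En n`, `s`.)
-/

open MeasureTheory Metric
open scoped RealInnerProductSpace ENNReal

namespace Pool.Agent.Helper47.UB

/-- Product of at most `D` coordinates. -/
noncomputable def mon {n D : ℕ} (c : Fin D → Option (Fin n)) : C(Sph n, ℝ) where
  toFun y := ∏ l, (match c l with | none => (1 : ℝ) | some i => (y : En n) i)
  continuous_toFun := by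
    refine continuous_finset_prod _ fun l _ => ?_
    cases c l with
    | none => exact continuous_const
    | some i => exact (EuclideanSpace.proj (𝕜 := ℝ) i).continuous.comp continuous_subtype_val

noncomputable def PD (n D : ℕ) : Submodule ℝ C(Sph n, ℝ) :=
  Submodule.span ℝ (Set.range (mon (n := n) (D := D)))

/-- generators: the constant one and the coordinates -/
private noncomputable def psGen (n : ℕ) : Option (Fin n) → C(Sph n, ℝ)
  | none => 1
  | some i => ⟨fun y => (y : En n) i,
      (EuclideanSpace.proj (𝕜 := ℝ) i).continuous.comp continuous_subtype_val⟩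

private noncomputable def psL (n : ℕ) : Submodule ℝ C(Sph n, ℝ) :=
  Submodule.span ℝ (Set.range (psGen n))

private theorem psGen_mem (n : ℕ) (o : Option (Fin n)) : psGen n o ∈ psL n :=
  Submodule.subset_span ⟨o, rfl⟩

private theorem ps_mon_eq (n D : ℕ) (c : Fin D → Option (Fin n)) :
    mon c = ∏ l, psGen n (c l) := by
  ext y
  rw [ContinuousMap.prod_apply]
  show ∏ l, (match c l with | none => (1 : ℝ) | some i => (y : En n) i) = _
  refine Finset.prod_congr rfl fun l _ => ?_
  cases c l with
  | none => rfl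
  | some i => rfl

open scoped Pointwise in
private theorem ps_PD_eq (n D : ℕ) : PD n D = psL n ^ D := by
  unfold PD psL
  rw [Submodule.span_pow]
  congr 1
  ext f
  rw [Set.mem_pow]
  constructor
  · rintro ⟨c, rfl⟩
    refine ⟨fun l => ⟨psGen n (c l), ⟨c l, rfl⟩⟩, ?_⟩
    rw [List.prod_ofFn, ps_mon_eq]
  · rintro ⟨g, hg⟩
    choose c hc using fun l => (g l).2
    refine ⟨c, ?_⟩
    rw [ps_mon_eq, ← hg, List.prod_ofFn]
    exact Finset.prod_congr rfl fun l _ => hc l

private noncomputable def psIp (n : ℕ) (v : En n) : C(Sph n, ℝ) :=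
  ⟨fun y => ⟪v, (y : En n)⟫, continuous_const.inner continuous_subtype_val⟩

private theorem psIp_mem (n : ℕ) (v : En n) : psIp n v ∈ psL n := by
  have e : psIp n v = ∑ i, v i • psGen n (some i) := by
    ext y
    rw [ContinuousMap.sum_apply]
    show ⟪v, (y : En n)⟫ = ∑ i, (v i • psGen n (some i)) y
    rw [PiLp.inner_apply]
    refine Finset.sum_congr rfl fun i _ => ?_
    rw [ContinuousMap.smul_apply, smul_eq_mul]
    show (y : En n) i * v i = v i * (y : En n) i
    ring
  rw [e]
  exact Submodule.sum_mem _ fun i _ => Submodule.smul_mem _ _ (psGen_mem n _)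

private theorem ps_rot_cont {n : ℕ} (ρ : En n ≃ₗᵢ[ℝ] En n) : Continuous (rot ρ) :=
  (ρ.continuous.comp continuous_subtype_val).subtype_mk _

theorem PD_finite (n D : ℕ) : FiniteDimensional ℝ (PD n D) :=
  FiniteDimensional.span_of_finite ℝ (Set.finite_range _)

theorem PD_finrank (n D : ℕ) : (Module.finrank ℝ (PD n D) : ℝ) ≤ ((n : ℝ) + 1) ^ D := by
  have h : Module.finrank ℝ (PD n D) ≤ Fintype.card (Fin D → Option (Fin n)) :=
    finrank_range_le_card _
  rw [Fintype.card_fun, Fintype.card_option, Fintype.card_fin, Fintype.card_fin] at h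
  exact_mod_cast h

theorem PD_ridge (n D : ℕ) (v : En n) (p : Polynomial ℝ) (hp : p.natDegree ≤ D)
    (f : C(Sph n, ℝ)) (hf : ∀ y, f y = p.eval ⟪v, (y : En n)⟫) : f ∈ PD n D := by
  have e : f = ∑ k ∈ Finset.range (p.natDegree + 1),
      p.coeff k • (psIp n v ^ k * (1 : C(Sph n, ℝ)) ^ (D - k)) := by
    ext y
    rw [hf, Polynomial.eval_eq_sum_range, ContinuousMap.sum_apply]
    refine Finset.sum_congr rfl fun k _ => ?_
    rw [one_pow, mul_one, ContinuousMap.smul_apply, ContinuousMap.pow_apply, smul_eq_mul]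
    rfl
  rw [e, ps_PD_eq]
  refine Submodule.sum_mem _ fun k hk => Submodule.smul_mem _ _ ?_
  have hk' : k ≤ D := by
    rw [Finset.mem_range] at hk
    omega
  have e2 : psL n ^ D = psL n ^ k * psL n ^ (D - k) := by
    rw [← pow_add]
    congr 1
    omega
  rw [e2]
  exact Submodule.mul_mem_mul (Submodule.pow_mem_pow _ (psIp_mem n v) k)
    (Submodule.pow_mem_pow _ (psGen_mem n none) (D - k))

theorem PD_rot (n D : ℕ) (ρ : En n ≃ₗᵢ[ℝ] En n) (f g : C(Sph n, ℝ)) (hf : f ∈ PD n D)
    (hg : ∀ y, g y = f (rot ρ y)) : g ∈ PD n D := by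
  set Φ : C(Sph n, ℝ) →ₐ[ℝ] C(Sph n, ℝ) :=
    ContinuousMap.compRightAlgHom ℝ ℝ ⟨rot ρ, ps_rot_cont ρ⟩ with hΦ
  have hL : (psL n).map Φ.toLinearMap ≤ psL n := by
    unfold psL
    rw [Submodule.map_span, Submodule.span_le]
    rintro _ ⟨_, ⟨o, rfl⟩, rfl⟩
    cases o with
    | none =>
      have : Φ.toLinearMap (psGen n none) = psGen n none := by
        ext y
        rfl
      rw [this]
      exact psGen_mem n none
    | some i =>
      have : Φ.toLinearMap (psGen n (some i)) =
          psIp n (ρ.symm (EuclideanSpace.single i (1 : ℝ))) := by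
        ext y
        show (ρ (y : En n)) i = ⟪ρ.symm (EuclideanSpace.single i (1 : ℝ)), (y : En n)⟫
        have e3 : ⟪ρ.symm (EuclideanSpace.single i (1 : ℝ)), (y : En n)⟫ =
            ⟪EuclideanSpace.single i (1 : ℝ), ρ (y : En n)⟫ := by
          rw [← ρ.inner_map_map, ρ.apply_symm_apply]
        rw [e3, EuclideanSpace.inner_single_left]
        simp
      rw [this]
      exact psIp_mem n _
  have hgf : g = Φ f := by
    ext y
    exact hg y
  rw [ps_PD_eq] at hf ⊢
  have h1 : Φ f ∈ (psL n ^ D).map Φ.toLinearMap := ⟨f, hf, rfl⟩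
  rw [Submodule.map_pow] at h1
  rw [hgf]
  exact (pow_le_pow_left' hL D) h1

end Pool.Agent.Helper47.UB
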