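import Mathlib

/-!
# Solving a linear system near the identity

`G = 1 + E`, `∑ E_ik² ≤ 1/4`, so `|E c| ≤ |c|/2` (Cauchy-Schwarz), `|G c| ≥ |c|/2`, `G` is injective, hence
surjective; `|c| ≤ 2 |G c|`.
-/

open Matrix

namespace Pool.Agent.Helper47.UB

private theorem solve_bound {h : ℕ} (G : Matrix (Fin h) (Fin h) ℝ)
    (hG : ∑ i, ∑ k, (G i k - (if i = k then 1 else 0)) ^ 2 ≤ (1 / 4 : ℝ)) (c : Fin h → ℝ) :
    ∑ i, c i ^ 2 ≤ 4 * ∑ i, (G *ᵥ c) i ^ 2 := by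
  set E : Fin h → Fin h → ℝ := fun i k => G i k - (if i = k then 1 else 0) with hE
  have h1 : ∀ i, (G *ᵥ c) i = c i + ∑ k, E i k * c k := by
    intro i
    have h2 : ∑ k, E i k * c k = ∑ k, G i k * c k - ∑ k, (if i = k then 1 else 0) * c k := by
      rw [← Finset.sum_sub_distrib]
      exact Finset.sum_congr rfl fun k _ => sub_mul _ _ _
    have h3 : ∑ k, (if i = k then (1 : ℝ) else 0) * c k = c i := by
      simp
    rw [h2, h3]
    show ∑ k, G i k * c k = _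
    ring
  have h2 : ∀ i, (∑ k, E i k * c k) ^ 2 ≤ (∑ k, E i k ^ 2) * ∑ k, c k ^ 2 := fun i =>
    Finset.sum_mul_sq_le_sq_mul_sq _ _ _
  have hc0 : 0 ≤ ∑ k, c k ^ 2 := Finset.sum_nonneg fun k _ => sq_nonneg _
  have h3 : ∑ i, (∑ k, E i k * c k) ^ 2 ≤ 1 / 4 * ∑ k, c k ^ 2 := by
    calc ∑ i, (∑ k, E i k * c k) ^ 2 ≤ ∑ i, (∑ k, E i k ^ 2) * ∑ k, c k ^ 2 :=
          Finset.sum_le_sum fun i _ => h2 i
      _ = (∑ i, ∑ k, E i k ^ 2) * ∑ k, c k ^ 2 := by rw [Finset.sum_mul]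
      _ ≤ 1 / 4 * ∑ k, c k ^ 2 := mul_le_mul_of_nonneg_right hG hc0
  have h4 : ∑ i, c i ^ 2 ≤ ∑ i, (2 * (G *ᵥ c) i ^ 2 + 2 * (∑ k, E i k * c k) ^ 2) := by
    refine Finset.sum_le_sum fun i _ => ?_
    rw [h1 i]
    nlinarith [sq_nonneg (c i + 2 * ∑ k, E i k * c k)]
  rw [Finset.sum_add_distrib, ← Finset.mul_sum, ← Finset.mul_sum] at h4
  linarith

theorem solve {h : ℕ} (G : Matrix (Fin h) (Fin h) ℝ)
    (hG : ∑ i, ∑ k, (G i k - (if i = k then 1 else 0)) ^ 2 ≤ (1 / 4 : ℝ)) (e : Fin h → ℝ) :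
    ∃ c : Fin h → ℝ, G *ᵥ c = e ∧ ∑ i, c i ^ 2 ≤ 4 * ∑ i, e i ^ 2 := by
  have hinj : Function.Injective G.mulVecLin := by
    rw [injective_iff_map_eq_zero]
    intro c hc
    rw [Matrix.mulVecLin_apply] at hc
    have h1 := solve_bound G hG c
    rw [hc] at h1
    have h2 : ∑ i, c i ^ 2 ≤ 0 := by simpa using h1
    have h3 : ∑ i, c i ^ 2 = 0 := le_antisymm h2 (Finset.sum_nonneg fun k _ => sq_nonneg _)
    rw [Finset.sum_eq_zero_iff_of_nonneg fun k _ => sq_nonneg _] at h3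
    funext i
    exact pow_eq_zero_iff two_ne_zero |>.1 (h3 i (Finset.mem_univ i))
  obtain ⟨c, hc⟩ := LinearMap.injective_iff_surjective.1 hinj e
  rw [Matrix.mulVecLin_apply] at hc
  refine ⟨c, hc, ?_⟩
  have h1 := solve_bound G hG c
  rwa [hc] at h1

end Pool.Agent.Helper47.UB
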