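import Pool.Agent.Helper47.UB.Events
import Pool.Agent.Helper47.UB.Solve

/-!
# The quadrature rule

`y` from `good_sample`. `Γ_{ik} = (1/N) ∑_j b_i(y_j) b_k(y_j)`, `e_i = (1/N) ∑_j b_i(y_j) - ∫ b_i`.
`∑ (Γ_{ik} - δ_{ik})² ≤ 8 h²/N ≤ 1/4` (`N ≥ 32 h²`), `∑ e_i² ≤ 8h/N`. `solve` with `-e`: `Γ c = -e`,
`∑ c_i² ≤ 32 h/N`. `p(y) = ∑ c_i b_i(y)`, `|p| ≤ √h (32h/N)^{1/2} ≤ 1` (`N ≥ 32 h²`), `w_j = (1 + p(y_j))/N ≥ 0`.
`∑_j w_j b_i(y_j) = ∫ b_i + e_i + (Γc)_i = ∫ b_i` (`Γ` symmetric), so by `res_expand` the error is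
`∑ w_j res b v (y_j) = (1/N) ∑ res b v (y_j) + (1/N) ∑_i c_i ∑_j b_i(y_j) res b v (y_j)`, at most
`(C/N) √(Nδ log) (1 + ∑ |c_i| h)`, `∑ |c_i| h ≤ h √h (32h/N)^{1/2} ≤ 6 h²/√N ≤ 1` as `N ≥ C h^8`, `C ≥ 36`
(enlarge `C`).
-/

open MeasureTheory Metric
open scoped RealInnerProductSpace ENNReal

namespace Pool.Agent.Helper47.UB

theorem quad : ∃ C : ℝ, 1 ≤ C ∧ ∀ (n D h N : ℕ) (b : Fin h → C(Sph n, ℝ)) (δ : ℝ), 1 ≤ n →
    OB n D b → 0 < δ → δ ≤ 1 → (∀ v : En n, ‖v‖ = 1 → ∫ y, res b v y ^ 2 ∂(sg n) ≤ δ / n) →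
    C * ((h : ℝ) ^ 2 * n / δ) ^ 4 ≤ N → ∃ (y : Fin N → Sph n) (w : Fin N → ℝ), (∀ j, 0 ≤ w j) ∧
      ∀ v : En n, ‖v‖ = 1 →
        |∑ j, w j * |⟪v, (y j : En n)⟫| - ∫ z : Sph n, |⟪v, (z : En n)⟫| ∂(sg n)| ≤
          C * Real.sqrt (δ * Real.log (2 / δ) / N) := by
  obtain ⟨C₀, hC₀, hgs⟩ := good_sample
  refine ⟨64 * C₀, by linarith, fun n D h N b δ hn hb hδ hδ1 hres hN => ?_⟩
  have hh : (1 : ℝ) ≤ h := by exact_mod_cast hb.pos
  have hn' : (1 : ℝ) ≤ n := by exact_mod_cast hn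
  have hX : (h : ℝ) ^ 2 ≤ (h : ℝ) ^ 2 * n / δ := by
    rw [le_div_iff₀ hδ]
    have h1 : 0 ≤ (h : ℝ) ^ 2 := by positivity
    nlinarith
  have hX4 : (h : ℝ) ^ 8 ≤ ((h : ℝ) ^ 2 * n / δ) ^ 4 := by
    calc (h : ℝ) ^ 8 = ((h : ℝ) ^ 2) ^ 4 := by ring
      _ ≤ ((h : ℝ) ^ 2 * n / δ) ^ 4 := pow_le_pow_left₀ (by positivity) hX 4
  have hX0 : 0 ≤ ((h : ℝ) ^ 2 * n / δ) ^ 4 := by positivity
  have hN0 : C₀ * ((h : ℝ) ^ 2 * n / δ) ^ 4 ≤ N := by nlinarith
  have hN8 : 64 * (h : ℝ) ^ 8 ≤ N := by nlinarith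
  have hh4 : (h : ℝ) ^ 4 ≤ (h : ℝ) ^ 8 := pow_le_pow_right₀ hh (by norm_num)
  have hh2 : (h : ℝ) ^ 2 ≤ (h : ℝ) ^ 8 := pow_le_pow_right₀ hh (by norm_num)
  have hh8 : (1 : ℝ) ≤ (h : ℝ) ^ 8 := one_le_pow₀ hh
  have hNpos : (0 : ℝ) < N := by linarith
  obtain ⟨y, hA, hB, hE, hG⟩ := hgs n D h N b δ hn hb hδ hδ1 hres hN0
  -- the linear system
  obtain ⟨G, hGd⟩ : ∃ G : Matrix (Fin h) (Fin h) ℝ, ∀ i k, G i k =
      (∑ j, b i (y j) * b k (y j)) / N := ⟨Matrix.of fun i k => _, fun _ _ => rfl⟩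
  have hG1 : ∑ i, ∑ k, (G i k - (if i = k then 1 else 0)) ^ 2 ≤ (1 / 4 : ℝ) := by
    have e1 : ∀ i k, (G i k - (if i = k then 1 else 0)) ^ 2 =
        (∑ j, (b i (y j) * b k (y j) - (if i = k then 1 else 0))) ^ 2 * ((N : ℝ) ^ 2)⁻¹ := by
      intro i k
      rw [hGd, Finset.sum_sub_distrib, Finset.sum_const, Finset.card_univ, Fintype.card_fin,
        nsmul_eq_mul]
      field_simp
    simp only [e1, ← Finset.sum_mul]
    rw [← div_eq_mul_inv, div_le_iff₀ (by positivity)]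
    refine hG.trans ?_
    nlinarith
  obtain ⟨e, he⟩ : ∃ e : Fin h → ℝ, ∀ i, e i =
      (∑ j, b i (y j)) / N - ∫ z, b i z ∂(sg n) := ⟨_, fun _ => rfl⟩
  have he1 : ∑ i, e i ^ 2 ≤ 8 * h / N := by
    have e1 : ∀ i, e i ^ 2 =
        (∑ j, (b i (y j) - ∫ z, b i z ∂(sg n))) ^ 2 * ((N : ℝ) ^ 2)⁻¹ := by
      intro i
      rw [he, Finset.sum_sub_distrib, Finset.sum_const, Finset.card_univ, Fintype.card_fin,
        nsmul_eq_mul]
      field_simp
    simp only [e1, ← Finset.sum_mul]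
    rw [← div_eq_mul_inv, div_le_div_iff₀ (by positivity) hNpos]
    nlinarith
  obtain ⟨c, hc, hc2⟩ := solve G hG1 (fun i => -e i)
  have hcs : ∑ i, c i ^ 2 ≤ 32 * h / N := by
    refine hc2.trans ?_
    simp only [neg_sq]
    calc 4 * ∑ i, e i ^ 2 ≤ 4 * (8 * h / N) := by linarith
      _ = 32 * h / N := by ring
  have hcs0 : 0 ≤ ∑ i, c i ^ 2 := Finset.sum_nonneg fun _ _ => sq_nonneg _
  -- the polynomial
  have hp : ∀ z : Sph n, |∑ i, c i * b i z| ≤ 1 := by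
    intro z
    rw [← sq_le_one_iff_abs_le_one]
    have h1 := Finset.sum_mul_sq_le_sq_mul_sq Finset.univ c (fun i => b i z)
    rw [hb.kern z] at h1
    refine h1.trans ?_
    calc (∑ i, c i ^ 2) * (h : ℝ) ≤ (32 * h / N) * h :=
          mul_le_mul_of_nonneg_right hcs (by linarith)
      _ = 32 * (h : ℝ) ^ 2 / N := by ring
      _ ≤ 1 := by
        rw [div_le_one hNpos]
        linarith
  obtain ⟨w, hw⟩ : ∃ w : Fin N → ℝ, ∀ j, w j = (1 + ∑ i, c i * b i (y j)) / N :=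
    ⟨_, fun _ => rfl⟩
  refine ⟨y, w, fun j => ?_, fun v hv => ?_⟩
  · rw [hw]
    have := (abs_le.1 (hp (y j))).1
    exact div_nonneg (by linarith) hNpos.le
  · have hex : ∀ i, ∑ j, w j * b i (y j) = ∫ z, b i z ∂(sg n) := by
      intro i
      have h1 : ∑ j, w j * b i (y j) = (∑ j, b i (y j)) / N + ∑ k, G i k * c k := by
        have h2 : ∀ j, w j * b i (y j) =
            b i (y j) / N + ∑ k, (b i (y j) * b k (y j)) * c k / N := by
          intro j
          rw [hw, div_mul_eq_mul_div, add_mul, one_mul, add_div, Finset.sum_mul, Finset.sum_div]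
          congr 1
          exact Finset.sum_congr rfl fun k _ => by ring
        simp only [h2]
        rw [Finset.sum_add_distrib, ← Finset.sum_div, Finset.sum_comm]
        congr 1
        refine Finset.sum_congr rfl fun k _ => ?_
        rw [hGd, ← Finset.sum_div, ← Finset.sum_mul]
        ring
      have h3 := congrFun hc i
      have h4 : ∑ k, G i k * c k = -e i := h3
      rw [h1, h4, he]
      ring
    rw [res_expand hn hb y w hex v]
    obtain ⟨S, hS⟩ : ∃ S, S = Real.sqrt (N * (δ * Real.log (2 / δ))) := ⟨_, rfl⟩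
    have hS0 : 0 ≤ S := by
      rw [hS]
      exact Real.sqrt_nonneg _
    have hAv := hA v hv
    rw [← hS] at hAv
    have hBv : ∀ i, |∑ j, b i (y j) * res b v (y j)| ≤ C₀ * h * S := fun i => by
      rw [hS]
      exact hB i v hv
    have h1 : ∑ j, w j * res b v (y j) = (∑ j, res b v (y j) +
        ∑ i, c i * ∑ j, b i (y j) * res b v (y j)) / N := by
      have h2 : ∀ j, w j * res b v (y j) =
          (res b v (y j) + ∑ i, c i * (b i (y j) * res b v (y j))) / N := by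
        intro j
        rw [hw, div_mul_eq_mul_div, add_mul, one_mul, Finset.sum_mul]
        congr 2
        exact Finset.sum_congr rfl fun k _ => by ring
      simp only [h2]
      rw [← Finset.sum_div, Finset.sum_add_distrib, Finset.sum_comm]
      congr 2
      exact Finset.sum_congr rfl fun k _ => by rw [Finset.mul_sum]
    have hab : (h : ℝ) * ∑ i, |c i| ≤ 1 := by
      have h2 : (∑ i, |c i|) ^ 2 ≤ h * ∑ i, c i ^ 2 := by
        have h3 := Finset.sum_mul_sq_le_sq_mul_sq Finset.univ (fun _ : Fin h => (1 : ℝ))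
          (fun i => |c i|)
        simpa using h3
      have h4 : ((h : ℝ) * ∑ i, |c i|) ^ 2 ≤ 1 := by
        calc ((h : ℝ) * ∑ i, |c i|) ^ 2 = (h : ℝ) ^ 2 * (∑ i, |c i|) ^ 2 := by ring
          _ ≤ (h : ℝ) ^ 2 * (h * (32 * h / N)) := by
            refine mul_le_mul_of_nonneg_left (h2.trans ?_) (by positivity)
            exact mul_le_mul_of_nonneg_left hcs (by linarith)
          _ = 32 * (h : ℝ) ^ 4 / N := by ring
          _ ≤ 1 := by
            rw [div_le_one hNpos]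
            linarith
      have h5 : abs ((h : ℝ) * ∑ i, |c i|) ≤ 1 := (sq_le_one_iff_abs_le_one _).1 h4
      exact (le_abs_self _).trans h5
    rw [h1, abs_div, abs_of_pos hNpos]
    have h6 : |∑ j, res b v (y j) + ∑ i, c i * ∑ j, b i (y j) * res b v (y j)| ≤
        2 * C₀ * S := by
      have h7 : |∑ i, c i * ∑ j, b i (y j) * res b v (y j)| ≤ C₀ * S := by
        refine (Finset.abs_sum_le_sum_abs _ _).trans ?_
        calc ∑ i, |c i * ∑ j, b i (y j) * res b v (y j)| ≤ ∑ i, |c i| * (C₀ * h * S) := by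
              refine Finset.sum_le_sum fun i _ => ?_
              rw [abs_mul]
              exact mul_le_mul_of_nonneg_left (hBv i) (abs_nonneg _)
          _ = (C₀ * S) * (h * ∑ i, |c i|) := by
              rw [← Finset.sum_mul]
              ring
          _ ≤ (C₀ * S) * 1 := mul_le_mul_of_nonneg_left hab (by positivity)
          _ = C₀ * S := mul_one _
      have h8 := abs_add_le (∑ j, res b v (y j)) (∑ i, c i * ∑ j, b i (y j) * res b v (y j))
      linarith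
    have h9 : S / N = Real.sqrt (δ * Real.log (2 / δ) / N) := by
      have h10 : δ * Real.log (2 / δ) / N = (N * (δ * Real.log (2 / δ))) / (N : ℝ) ^ 2 := by
        field_simp
      rw [h10, Real.sqrt_div' _ (by positivity), Real.sqrt_sq hNpos.le, hS]
    calc |∑ j, res b v (y j) + ∑ i, c i * ∑ j, b i (y j) * res b v (y j)| / N ≤
          (2 * C₀ * S) / N := by gcongr
      _ = 2 * C₀ * (S / N) := by ring
      _ ≤ 64 * C₀ * (S / N) := by
          refine mul_le_mul_of_nonneg_right (by linarith) (by positivity)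
      _ = 64 * C₀ * Real.sqrt (δ * Real.log (2 / δ) / N) := by rw [h9]

end Pool.Agent.Helper47.UB
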