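import Pool.Agent.Helper47.UB.Defs

/-!
# The normalised surface measure

`sg_prob`: `toSphere univ` is nonzero (`toSphere_ne_zero`, `Nontrivial (En n)` as `n ≥ 1`) and finite.
`sg_openPos`: `toSphere` has the instance `IsOpenPosMeasure`, scaling by a nonzero constant.
`sg_rot`: for measurable `s`, `toSphere s = dim * volume (Ioo 0 1 • (coe '' s))`
(`Measure.toSphere_apply'`), and `ρ` preserves volume (`LinearIsometryEquiv.measurePreserving`) and
commutes with scalar multiplication. `exists_rot`: the reflection in the hyperplane orthogonal to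
`y - y'` (`reflection_sub` or similar) maps `y` to `y'` as `‖y‖ = ‖y'‖`.
-/

open MeasureTheory Metric
open scoped RealInnerProductSpace ENNReal

namespace Pool.Agent.Helper47.UB

private theorem sg_ne_zero (n : ℕ) (hn : 1 ≤ n) :
    (volume : Measure (En n)).toSphere Set.univ ≠ 0 := by
  have : Nonempty (Fin n) := ⟨⟨0, hn⟩⟩
  have hnt : Nontrivial (En n) := inferInstance
  intro h
  exact Measure.toSphere_ne_zero (volume : Measure (En n)) (Measure.measure_univ_eq_zero.1 h)

private theorem sg_ne_top (n : ℕ) : (volume : Measure (En n)).toSphere Set.univ ≠ ⊤ :=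
  measure_ne_top _ _

theorem sg_prob (n : ℕ) (hn : 1 ≤ n) : IsProbabilityMeasure (sg n) := by
  constructor
  unfold sg
  rw [Measure.smul_apply, smul_eq_mul]
  exact ENNReal.inv_mul_cancel (sg_ne_zero n hn) (sg_ne_top n)

theorem sg_openPos (n : ℕ) (hn : 1 ≤ n) : (sg n).IsOpenPosMeasure := by
  constructor
  intro U hU hne
  unfold sg
  rw [Measure.smul_apply, smul_eq_mul]
  exact mul_ne_zero (ENNReal.inv_ne_zero.2 (sg_ne_top n))
    (hU.measure_ne_zero (volume : Measure (En n)).toSphere hne)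

private theorem rot_cont {n : ℕ} (ρ : En n ≃ₗᵢ[ℝ] En n) : Continuous (rot ρ) :=
  (ρ.continuous.comp continuous_subtype_val).subtype_mk _

open scoped Pointwise in
theorem sg_rot (n : ℕ) (ρ : En n ≃ₗᵢ[ℝ] En n) : MeasurePreserving (rot ρ) (sg n) (sg n) := by
  refine ⟨(rot_cont ρ).measurable, ?_⟩
  unfold sg
  rw [Measure.map_smul]
  congr 1
  ext s hs
  rw [Measure.map_apply (rot_cont ρ).measurable hs,
    Measure.toSphere_apply' _ ((rot_cont ρ).measurable hs), Measure.toSphere_apply' _ hs]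
  congr 1
  have hset : (Set.Ioo (0 : ℝ) 1 • ((↑) '' (rot ρ ⁻¹' s) : Set (En n))) =
      ρ ⁻¹' (Set.Ioo (0 : ℝ) 1 • ((↑) '' s : Set (En n))) := by
    ext x
    rw [Set.mem_preimage, Set.mem_smul, Set.mem_smul]
    constructor
    · rintro ⟨t, ht, _, ⟨y, hy, rfl⟩, rfl⟩
      refine ⟨t, ht, ρ (y : En n), ⟨rot ρ y, hy, rfl⟩, ?_⟩
      rw [map_smul]
    · rintro ⟨t, ht, _, ⟨y, hy, rfl⟩, hx⟩
      have hy1 : ‖ρ.symm (y : En n)‖ = 1 := by
        rw [LinearIsometryEquiv.norm_map]
        exact mem_sphere_zero_iff_norm.1 y.2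
      refine ⟨t, ht, ρ.symm (y : En n), ⟨⟨ρ.symm (y : En n),
        mem_sphere_zero_iff_norm.2 hy1⟩, ?_, rfl⟩, ?_⟩
      · have : rot ρ ⟨ρ.symm (y : En n), mem_sphere_zero_iff_norm.2 hy1⟩ = y := by
          apply Subtype.ext
          show ρ (ρ.symm (y : En n)) = (y : En n)
          exact ρ.apply_symm_apply _
        rw [Set.mem_preimage, this]
        exact hy
      · rw [← map_smul, hx]
        exact ρ.symm_apply_apply x
  rw [hset]
  exact ρ.measurePreserving.measure_preimage_emb ρ.toHomeomorph.measurableEmbedding _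

theorem exists_rot {n : ℕ} (y y' : Sph n) : ∃ ρ : En n ≃ₗᵢ[ℝ] En n, rot ρ y = y' := by
  have h1 : ‖(y : En n)‖ = ‖(y' : En n)‖ := by
    rw [mem_sphere_zero_iff_norm.1 y.2, mem_sphere_zero_iff_norm.1 y'.2]
  refine ⟨(ℝ ∙ ((y : En n) - (y' : En n)))ᗮ.reflection, ?_⟩
  apply Subtype.ext
  exact Submodule.reflection_sub h1

end Pool.Agent.Helper47.UB
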